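import Pool.Agent.Lib.MP_216314_pr.P.PProbB

/-!
# Percolation on the cylinder `ℤ² / ⟨(n,-n)⟩`: the lifted configuration

`red n e` is the representative of the edge `e` with `0 ≤ x - y < 2n`. A configuration of the cylinder
is a set `ω` of representatives; the lifted graph `lgr n ω` is a periodic graph on `ℤ²`.
`pull n F ω` is the lifted configuration in the finite set `F` of edges of `ℤ²`. If `red n` is injective
on `F` then it is uniformly distributed.
-/

set_option autoImplicit false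

noncomputable section

namespace FKP

open Finset FKI

/-- the representative of an edge of the cylinder `ℤ² / ⟨(n,-n)⟩`, with `0 ≤ x - y < 2 n` -/
def red (n : ℕ) (e : Edge) : Edge :=
  (e.1 - (e.1 - e.2.1) / (2 * n) * n, e.2.1 + (e.1 - e.2.1) / (2 * n) * n, e.2.2)

/-- the edges of the cylinder between the heights `-2m` and `2m` (the height is `x + y`) -/
def cylE (n m : ℕ) : Finset Edge :=
  (Icc (-(2 * m + 2 * n : ℤ)) (2 * m + 2 * n) ×ˢ
    (Icc (-(2 * m + 2 * n : ℤ)) (2 * m + 2 * n) ×ˢ ({false, true} : Finset Bool))).filter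
  (fun e => 0 ≤ e.1 - e.2.1 ∧ e.1 - e.2.1 < 2 * n ∧ -(2 * (m : ℤ)) ≤ e.1 + e.2.1 ∧
    e.1 + e.2.1 < 2 * m)

theorem mem_cylE {n m : ℕ} {e : Edge} : e ∈ cylE n m ↔
    0 ≤ e.1 - e.2.1 ∧ e.1 - e.2.1 < 2 * n ∧ -(2 * (m : ℤ)) ≤ e.1 + e.2.1 ∧ e.1 + e.2.1 < 2 * m := by
  obtain ⟨x, y, b⟩ := e
  unfold cylE
  rw [mem_filter, mem_product, mem_product, mem_Icc, mem_Icc]
  simp only
  constructor
  · exact fun h => h.2
  · intro h
    refine ⟨⟨⟨by omega, by omega⟩, ⟨by omega, by omega⟩, ?_⟩, h⟩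
    cases b <;> simp

/-- the lifted graph -/
def lgr (n : ℕ) (ω : Finset Edge) : SimpleGraph V :=
  SimpleGraph.fromRel (fun u v => ∃ e, red n e ∈ ω ∧ ea e = u ∧ eb e = v)

/-- the lifted configuration in the finite set `F` -/
def pull (n : ℕ) (F ω : Finset Edge) : Finset Edge := F.filter (fun e => red n e ∈ ω)

theorem mem_pull {n : ℕ} {F ω : Finset Edge} {e : Edge} : e ∈ pull n F ω ↔ e ∈ F ∧ red n e ∈ ω :=
  mem_filter

theorem pull_sub (n : ℕ) (F ω : Finset Edge) : pull n F ω ⊆ F := filter_subset _ _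

theorem pull_mono {n : ℕ} {F ω ω' : Finset Edge} (h : ω ⊆ ω') : pull n F ω ⊆ pull n F ω' := by
  intro e he
  rw [mem_pull] at he ⊢
  exact ⟨he.1, h he.2⟩

theorem inc_pull {n : ℕ} {F : Finset Edge} {A : Finset Edge → Prop} (hA : Inc A) :
    Inc (fun ω => A (pull n F ω)) := fun _ _ h hω => hA _ _ (pull_mono h) hω

/-- the graph of the pulled back configuration is a subgraph of the lifted graph -/
theorem gr_pull_le (n : ℕ) (F ω : Finset Edge) : gr (pull n F ω) ≤ lgr n ω := by
  intro u v huv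
  unfold gr at huv
  unfold lgr
  rw [SimpleGraph.fromRel_adj] at huv ⊢
  obtain ⟨h1, h2⟩ := huv
  refine ⟨h1, ?_⟩
  rcases h2 with ⟨e, he, h3⟩ | ⟨e, he, h3⟩
  · exact Or.inl ⟨e, (mem_pull.1 he).2, h3⟩
  · exact Or.inr ⟨e, (mem_pull.1 he).2, h3⟩

theorem reach_lgr {n : ℕ} {F ω : Finset Edge} {u v : V} (h : (gr (pull n F ω)).Reachable u v) :
    (lgr n ω).Reachable u v := SimpleGraph.Reachable.mono (gr_pull_le n F ω) h

/-- a connection in the lifted graph uses finitely many edges -/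
theorem lgr_reach {n : ℕ} {ω : Finset Edge} {u v : V} (h : (lgr n ω).Reachable u v) :
    ∃ F : Finset Edge, (gr (pull n F ω)).Reachable u v := by
  classical
  obtain ⟨p⟩ := h
  induction p with
  | nil => exact ⟨∅, SimpleGraph.Reachable.refl _⟩
  | @cons a b c hab p ih =>
    obtain ⟨F, hF⟩ := ih
    unfold lgr at hab
    rw [SimpleGraph.fromRel_adj] at hab
    obtain ⟨hne, hab⟩ := hab
    have key : ∃ e : Edge, red n e ∈ ω ∧ ((ea e = a ∧ eb e = b) ∨ (ea e = b ∧ eb e = a)) := by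
      rcases hab with ⟨e, h1, h2, h3⟩ | ⟨e, h1, h2, h3⟩
      · exact ⟨e, h1, Or.inl ⟨h2, h3⟩⟩
      · exact ⟨e, h1, Or.inr ⟨h2, h3⟩⟩
    obtain ⟨e, he, hee⟩ := key
    refine ⟨insert e F, ?_⟩
    have hsub : pull n F ω ⊆ pull n (insert e F) ω := by
      intro e' he'
      rw [mem_pull] at he' ⊢
      exact ⟨mem_insert_of_mem he'.1, he'.2⟩
    refine SimpleGraph.Reachable.trans (SimpleGraph.Adj.reachable ?_)
      (SimpleGraph.Reachable.mono (gr_mono hsub) hF)
    unfold gr
    rw [SimpleGraph.fromRel_adj]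
    refine ⟨hne, ?_⟩
    have hm : e ∈ pull n (insert e F) ω := mem_pull.2 ⟨mem_insert_self _ _, he⟩
    rcases hee with h | h
    · exact Or.inl ⟨e, hm, h⟩
    · exact Or.inr ⟨e, hm, h⟩

/-- the pulled back configuration is uniformly distributed -/
theorem Pr_pull {n : ℕ} {E F : Finset Edge} (hinj : Set.InjOn (red n) (F : Set Edge))
    (hE : ∀ e ∈ F, red n e ∈ E) (A : Finset Edge → Prop) :
    Pr E (fun ω => A (pull n F ω)) = Pr F A := by
  classical
  have hsub : F.image (red n) ⊆ E := by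
    intro e he
    obtain ⟨e', he', rfl⟩ := mem_image.1 he
    exact hE e' he'
  have hdep : Dep (F.image (red n)) (fun ω => A (pull n F ω)) := by
    intro ω
    have h1 : pull n F (ω ∩ F.image (red n)) = pull n F ω := by
      ext e
      rw [mem_pull, mem_pull, mem_inter]
      exact ⟨fun h => ⟨h.1, h.2.1⟩, fun h => ⟨h.1, h.2, mem_image_of_mem _ h.1⟩⟩
    show A (pull n F ω) ↔ A (pull n F (ω ∩ F.image (red n)))
    rw [h1]
  rw [Pr_dep hsub hdep, pproba_eq, pproba_eq, card_image_of_injOn hinj]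
  congr 2
  have hl : ∀ ω, ω ⊆ F.image (red n) → (pull n F ω).image (red n) = ω := by
    intro ω hω
    ext e
    rw [mem_image]
    constructor
    · rintro ⟨e', he', rfl⟩
      exact (mem_pull.1 he').2
    · intro he
      obtain ⟨e', he', rfl⟩ := mem_image.1 (hω he)
      exact ⟨e', mem_pull.2 ⟨he', he⟩, rfl⟩
  have hr : ∀ ω, ω ⊆ F → pull n F (ω.image (red n)) = ω := by
    intro ω hω
    ext e
    rw [mem_pull, mem_image]
    constructor
    · rintro ⟨he, e', he', h⟩
      rwa [← hinj (mem_coe.2 (hω he')) (mem_coe.2 he) h]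
    · exact fun he => ⟨hω he, e, he, rfl⟩
  refine card_nbij' (fun ω => pull n F ω) (fun ω => ω.image (red n)) ?_ ?_ ?_ ?_
  · intro ω hω
    rw [coe_filter, Set.mem_ofPred_eq, mem_powerset] at hω ⊢
    exact ⟨pull_sub n F ω, hω.2⟩
  · intro ω hω
    rw [coe_filter, Set.mem_ofPred_eq, mem_powerset] at hω ⊢
    refine ⟨image_subset_image hω.1, ?_⟩
    rw [hr ω hω.1]
    exact hω.2
  · intro ω hω
    rw [coe_filter, Set.mem_ofPred_eq, mem_powerset] at hω
    exact hl ω hω.1
  · intro ω hω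
    rw [coe_filter, Set.mem_ofPred_eq, mem_powerset] at hω
    exact hr ω hω.1

/-! ### The reduction map -/

theorem red_diag {n : ℕ} (hn : 1 ≤ n) (e : Edge) :
    0 ≤ (red n e).1 - (red n e).2.1 ∧ (red n e).1 - (red n e).2.1 < 2 * n := by
  have hn' : (0 : ℤ) < 2 * n := by omega
  have h1 : (red n e).1 - (red n e).2.1 = (e.1 - e.2.1) % (2 * n) := by
    have := Int.emod_add_mul_ediv (e.1 - e.2.1) (2 * n)
    simp only [red]
    linarith
  rw [h1]
  exact ⟨Int.emod_nonneg _ hn'.ne', Int.emod_lt_of_pos _ hn'⟩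

theorem red_height (n : ℕ) (e : Edge) : (red n e).1 + (red n e).2.1 = e.1 + e.2.1 := by
  simp only [red]
  ring

theorem red_mem {n m : ℕ} (hn : 1 ≤ n) {e : Edge} (h1 : -(2 * (m : ℤ)) ≤ e.1 + e.2.1)
    (h2 : e.1 + e.2.1 < 2 * m) : red n e ∈ cylE n m := by
  rw [mem_cylE, red_height]
  exact ⟨(red_diag hn e).1, (red_diag hn e).2, h1, h2⟩

/-- two edges with the same representative differ by a multiple of `(n,-n)` -/
theorem red_eq {n : ℕ} {e e' : Edge} (h : red n e = red n e') :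
    ∃ j : ℤ, e'.1 = e.1 + j * n ∧ e'.2.1 = e.2.1 - j * n ∧ e'.2.2 = e.2.2 := by
  have h1 := congrArg Prod.fst h
  have h2 := congrArg (fun z : Edge => z.2.1) h
  have h3 := congrArg (fun z : Edge => z.2.2) h
  simp only [red] at h1 h2 h3
  refine ⟨(e'.1 - e'.2.1) / (2 * n) - (e.1 - e.2.1) / (2 * n), ?_, ?_, h3.symm⟩
  · rw [sub_mul]
    linarith
  · rw [sub_mul]
    linarith

/-- the representative is invariant under the shift -/
theorem red_shift {n : ℕ} (hn : 1 ≤ n) (e : Edge) (j : ℤ) :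
    red n (e.1 + j * n, e.2.1 - j * n, e.2.2) = red n e := by
  have hn' : (2 * (n : ℤ)) ≠ 0 := by omega
  have h1 : (e.1 + j * n - (e.2.1 - j * n)) / (2 * n) = (e.1 - e.2.1) / (2 * n) + j := by
    have h2 : e.1 + j * n - (e.2.1 - j * n) = e.1 - e.2.1 + j * (2 * n) := by ring
    rw [h2, Int.add_mul_ediv_right _ _ hn']
  simp only [red]
  rw [h1]
  refine Prod.ext ?_ (Prod.ext ?_ rfl)
  · simp only
    ring
  · simp only
    ring

/-- `red n` is injective on sets of edges of small horizontal or vertical extension -/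
theorem red_inj_x {n : ℕ} {F : Finset Edge} {a b : ℤ} (hab : b - a < n)
    (hF : ∀ e ∈ F, a ≤ e.1 ∧ e.1 ≤ b) : Set.InjOn (red n) (F : Set Edge) := by
  intro e he e' he' h
  obtain ⟨j, h1, h2, h3⟩ := red_eq h
  have k1 := hF e (mem_coe.1 he)
  have k2 := hF e' (mem_coe.1 he')
  have hj : j = 0 := by
    by_contra hj
    rcases lt_or_gt_of_ne hj with hj | hj
    · have : j * n ≤ -1 * n := mul_le_mul_of_nonneg_right (by omega) (Int.natCast_nonneg n)
      linarith
    · have : 1 * (n : ℤ) ≤ j * n := mul_le_mul_of_nonneg_right (by omega) (Int.natCast_nonneg n)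
      linarith
  rw [hj, zero_mul, add_zero] at h1
  rw [hj, zero_mul, sub_zero] at h2
  exact (Prod.ext h1 (Prod.ext h2 h3)).symm

theorem red_inj_y {n : ℕ} {F : Finset Edge} {a b : ℤ} (hab : b - a < n)
    (hF : ∀ e ∈ F, a ≤ e.2.1 ∧ e.2.1 ≤ b) : Set.InjOn (red n) (F : Set Edge) := by
  intro e he e' he' h
  obtain ⟨j, h1, h2, h3⟩ := red_eq h
  have k1 := hF e (mem_coe.1 he)
  have k2 := hF e' (mem_coe.1 he')
  have hj : j = 0 := by
    by_contra hj
    rcases lt_or_gt_of_ne hj with hj | hj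
    · have : j * n ≤ -1 * n := mul_le_mul_of_nonneg_right (by omega) (Int.natCast_nonneg n)
      linarith
    · have : 1 * (n : ℤ) ≤ j * n := mul_le_mul_of_nonneg_right (by omega) (Int.natCast_nonneg n)
      linarith
  rw [hj, zero_mul, add_zero] at h1
  rw [hj, zero_mul, sub_zero] at h2
  exact (Prod.ext h1 (Prod.ext h2 h3)).symm

/-! ### The shift of the lifted graph -/

theorem lgr_shift {n : ℕ} (hn : 1 ≤ n) (ω : Finset Edge) (j : ℤ) {u v : V}
    (h : (lgr n ω).Reachable u v) :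
    (lgr n ω).Reachable (u.1 + j * n, u.2 - j * n) (v.1 + j * n, v.2 - j * n) := by
  obtain ⟨p⟩ := h
  induction p with
  | nil => exact SimpleGraph.Reachable.refl _
  | @cons a b c hab p ih =>
    refine SimpleGraph.Reachable.trans (SimpleGraph.Adj.reachable ?_) ih
    unfold lgr at hab ⊢
    rw [SimpleGraph.fromRel_adj] at hab ⊢
    obtain ⟨hne, hab⟩ := hab
    refine ⟨?_, ?_⟩
    · intro h
      apply hne
      have h1 := congrArg Prod.fst h
      have h2 := congrArg Prod.snd h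
      simp only at h1 h2
      exact Prod.ext (by linarith) (by linarith)
    · have key : ∀ e : Edge, ∀ a b : V, red n e ∈ ω → ea e = a → eb e = b →
          ∃ e', red n e' ∈ ω ∧ ea e' = (a.1 + j * n, a.2 - j * n) ∧
            eb e' = (b.1 + j * n, b.2 - j * n) := by
        rintro ⟨x, y, t⟩ a b he rfl rfl
        refine ⟨(x + j * n, y - j * n, t), ?_, rfl, ?_⟩
        · rw [← red_shift hn (x, y, t) j] at he
          exact he
        · cases t
          · show ((x + j * n + 1, y - j * n) : V) = (x + 1 + j * n, y - j * n)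
            exact Prod.ext (by simp only; ring) rfl
          · show ((x + j * n, y - j * n + 1) : V) = (x + j * n, y + 1 - j * n)
            exact Prod.ext rfl (by simp only; ring)
      rcases hab with ⟨e, h1, h2, h3⟩ | ⟨e, h1, h2, h3⟩
      · obtain ⟨e', k1, k2, k3⟩ := key e _ _ h1 h2 h3
        exact Or.inl ⟨e', k1, k2, k3⟩
      · obtain ⟨e', k1, k2, k3⟩ := key e _ _ h1 h2 h3
        exact Or.inr ⟨e', k1, k2, k3⟩

end FKP
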