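import Pool.Agent.Lib.MP_216314_pr.P.PUp

/-!
# The one arm event in the plane: monotonicity and extension

`SA n`: `(0,0)` is connected inside `[-n,n]²` to the boundary of this square; `pi1 n` is its probability.
-/

set_option autoImplicit false

noncomputable section

namespace FKP

open Finset FKI

/-- the square `[-n,n]²` -/
def bx (n : ℕ) : Finset Edge := box (-(n : ℤ)) n (-(n : ℤ)) n

/-- `(0,0)` is connected inside `[-n,n]²` to the boundary of `[-n,n]²` -/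
def SA (n : ℕ) (ω : Finset Edge) : Prop :=
  ∃ v : V, (v.1 = n ∨ v.1 = -(n : ℤ) ∨ v.2 = n ∨ v.2 = -(n : ℤ)) ∧ Conn (bx n) ω (0, 0) v

/-- the one arm probability of critical bond percolation on `ℤ²` -/
def pi1 (n : ℕ) : ℝ := Pr (bx n) (SA n)

theorem bx_mono {k n : ℕ} (h : k ≤ n) : bx k ⊆ bx n := by
  unfold bx
  exact box_mono (by omega) (by omega) (by omega) (by omega)

theorem inc_SA (n : ℕ) : Inc (SA n) := by
  rintro ω ω' hs ⟨v, h1, h2⟩
  exact ⟨v, h1, h2.mono (Finset.Subset.refl _) hs⟩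

theorem dep_SA {n : ℕ} {E : Finset Edge} (hE : bx n ⊆ E) : Dep E (SA n) := by
  intro ω
  constructor
  · rintro ⟨v, h1, h2⟩
    exact ⟨v, h1, (dep_Conn hE _ _ ω).1 h2⟩
  · rintro ⟨v, h1, h2⟩
    exact ⟨v, h1, (dep_Conn hE _ _ ω).2 h2⟩

theorem Pr_SA {n : ℕ} {E : Finset Edge} (hE : bx n ⊆ E) : Pr E (SA n) = pi1 n :=
  Pr_dep hE (dep_SA (Finset.Subset.refl _))

theorem pi1_nonneg (n : ℕ) : 0 ≤ pi1 n := Pr_nonneg _ _

theorem pi1_le_one (n : ℕ) : pi1 n ≤ 1 := Pr_le_one _ _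

/-- the sup norm -/
def sn (v : V) : ℤ := max |v.1| |v.2|

theorem sn_edge (e : Edge) : sn (ea e) - sn (eb e) ≤ 1 ∧ sn (eb e) - sn (ea e) ≤ 1 := by
  obtain ⟨x, y, t⟩ := e
  unfold sn
  cases t
  · simp only [ea, eb, Bool.false_eq_true, if_false]
    rcases abs_cases x with h1 | h1 <;> rcases abs_cases (x + 1) with h2 | h2 <;>
      rcases max_cases |x| |y| with h3 | h3 <;> rcases max_cases |x + 1| |y| with h4 | h4 <;>
      constructor <;> omega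
  · simp only [ea, eb, if_true]
    rcases abs_cases y with h1 | h1 <;> rcases abs_cases (y + 1) with h2 | h2 <;>
      rcases max_cases |x| |y| with h3 | h3 <;> rcases max_cases |x| |y + 1| with h4 | h4 <;>
      constructor <;> omega

theorem SA_of_reach {k : ℕ} {ω : Finset Edge} {v : V} (h : (gr ω).Reachable (0, 0) v)
    (hv : (k : ℤ) ≤ |v.1| ∨ (k : ℤ) ≤ |v.2|) : SA k ω := by
  have h0 : sn (0, 0) ≤ k := by
    unfold sn
    simp
  have h1 : (k : ℤ) ≤ sn v := by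
    unfold sn
    rcases hv with h | h
    · exact le_trans h (le_max_left _ _)
    · exact le_trans h (le_max_right _ _)
  obtain ⟨c, hc1, hc2, hc3⟩ := first_hit (F := ω) (ω := ω) sn (fun e _ => sn_edge e) h0 h1
    (Conn.of_reach (Finset.Subset.refl _) h)
  have habs : ∀ a : V, sn a ≤ k → -(k : ℤ) ≤ a.1 ∧ a.1 ≤ k ∧ -(k : ℤ) ≤ a.2 ∧ a.2 ≤ k := by
    intro a ha
    unfold sn at ha
    have h1 := abs_le.1 ((le_max_left _ _).trans ha)
    have h2 := abs_le.1 ((le_max_right _ _).trans ha)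
    exact ⟨h1.1, h1.2, h2.1, h2.2⟩
  refine ⟨c, ?_, ?_⟩
  · unfold sn at hc1
    rcases max_cases |c.1| |c.2| with h3 | h3
    · rcases abs_cases c.1 with h4 | h4
      · left; omega
      · right; left; omega
    · rcases abs_cases c.2 with h4 | h4
      · right; right; left; omega
      · right; right; right; omega
  · refine Conn.mono ?_ (Finset.Subset.refl _) hc3
    intro e he
    rw [mem_filter] at he
    have h2 := habs _ he.2.1
    have h3 := habs _ he.2.2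
    obtain ⟨x, y, t⟩ := e
    unfold bx
    rw [mem_box]
    cases t
    · simp only [ea, eb, Bool.false_eq_true, if_false] at h2 h3
      left
      refine ⟨rfl, ?_⟩
      simp only
      omega
    · simp only [ea, eb, if_true] at h2 h3
      right
      refine ⟨rfl, ?_⟩
      simp only
      omega

theorem pi1_anti {k n : ℕ} (h : k ≤ n) : pi1 n ≤ pi1 k := by
  rw [← Pr_SA (bx_mono h)]
  unfold pi1
  refine Pr_mono fun ω _ hω => ?_
  obtain ⟨v, h1, h2⟩ := hω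
  refine SA_of_reach h2.reach ?_
  rcases h1 with h1 | h1 | h1 | h1
  · left; rw [h1]; exact le_trans (by exact_mod_cast h) (le_abs_self _)
  · left; rw [h1, abs_neg]; exact le_trans (by exact_mod_cast h) (le_abs_self _)
  · right; rw [h1]; exact le_trans (by exact_mod_cast h) (le_abs_self _)
  · right; rw [h1, abs_neg]; exact le_trans (by exact_mod_cast h) (le_abs_self _)

/-- the arm meets the ring -/
theorem arm_ring {k j : ℕ} (hj : j ≤ k) {ω : Finset Edge} (hS : SA k ω)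
    {xr xr' : ℤ} (hxr : (j : ℤ) ≤ xr ∧ xr ≤ k) (hxr' : (j : ℤ) ≤ xr' ∧ xr' ≤ k)
    (hR : Conn (box j k (-(k : ℤ)) k) ω (xr, -(k : ℤ)) (xr', (k : ℤ)))
    {yt yt' : ℤ} (hyt : (j : ℤ) ≤ yt ∧ yt ≤ k) (hyt' : (j : ℤ) ≤ yt' ∧ yt' ≤ k)
    (hT : Conn (box (-(k : ℤ)) k j k) ω (-(k : ℤ), yt) ((k : ℤ), yt'))
    (hL : VC (-(k : ℤ)) (-(j : ℤ)) (-(k : ℤ)) k ω) (hB : HC (-(k : ℤ)) k (-(k : ℤ)) (-(j : ℤ)) ω) :
    (gr ω).Reachable (0, 0) (xr, -(k : ℤ)) ∧ (gr ω).Reachable (0, 0) (-(k : ℤ), yt) := by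
  have hj0 : (0 : ℤ) ≤ j := by omega
  have hjk : (j : ℤ) ≤ k := by omega
  obtain ⟨xl, xl', l1, l2, l3, l4, hL⟩ := hL
  obtain ⟨yb, yb', b1, b2, b3, b4, hB⟩ := hB
  have tr := cross (ω := ω) (x1 := -(k : ℤ)) (x2 := k) (y1 := j) (y2 := k) (x3 := j) (x4 := k)
    (y3 := -(k : ℤ)) (y4 := k) (by omega) le_rfl (by omega) le_rfl hyt hyt' hxr hxr' hT hR
  have br := cross (ω := ω) (x1 := -(k : ℤ)) (x2 := k) (y1 := -(k : ℤ)) (y2 := -(j : ℤ)) (x3 := j)
    (x4 := k) (y3 := -(k : ℤ)) (y4 := k) (by omega) le_rfl le_rfl (by omega) ⟨b1, b2⟩ ⟨b3, b4⟩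
    hxr hxr' hB hR
  have tl := cross (ω := ω) (x1 := -(k : ℤ)) (x2 := k) (y1 := j) (y2 := k) (x3 := -(k : ℤ))
    (x4 := -(j : ℤ)) (y3 := -(k : ℤ)) (y4 := k) le_rfl (by omega) (by omega) le_rfl hyt hyt'
    ⟨l1, l2⟩ ⟨l3, l4⟩ hT hL
  obtain ⟨⟨vx, vy⟩, hv, hc⟩ := hS
  unfold bx at hc
  simp only at hv
  have hm := conn_mem_box hc ⟨by simp, by simp, by simp, by simp⟩
  simp only at hm
  have main : (gr ω).Reachable (0, 0) (xr, -(k : ℤ)) := by
    rcases hv with hv | hv | hv | hv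
    · subst hv
      obtain ⟨y0, h1, h2, h3, h4⟩ := pgeo_right (t := (j : ℤ)) hc hjk
        ⟨by simp, by simp, by simp, by simp⟩
      have h5 := cross (ω := ω) le_rfl le_rfl le_rfl le_rfl ⟨h1, h2⟩ ⟨hm.2.2.1, hm.2.2.2⟩ hxr hxr'
        h4 hR
      exact h3.reach.trans h5
    · subst hv
      obtain ⟨y0, h1, h2, h3, h4⟩ := pgeo_left (t := -(j : ℤ)) hc (by omega)
        ⟨by simp, by simp, by simp, by simp⟩
      have h5 := cross (ω := ω) le_rfl le_rfl le_rfl le_rfl ⟨hm.2.2.1, hm.2.2.2⟩ ⟨h1, h2⟩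
        ⟨l1, l2⟩ ⟨l3, l4⟩ h4 hL
      exact ((hc.reach.trans h5).trans tl.symm).trans tr
    · subst hv
      obtain ⟨x0, h1, h2, h3, h4⟩ := pgeo_up (t := (j : ℤ)) hc hjk
        ⟨by simp, by simp, by simp, by simp⟩
      have h5 := cross (ω := ω) le_rfl le_rfl le_rfl le_rfl hyt hyt' ⟨h1, h2⟩ ⟨hm.1, hm.2.1⟩ hT h4
      exact (h3.reach.trans h5.symm).trans tr
    · subst hv
      obtain ⟨x0, h1, h2, h3, h4⟩ := pgeo_down (t := -(j : ℤ)) hc (by omega)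
        ⟨by simp, by simp, by simp, by simp⟩
      have h5 := cross (ω := ω) le_rfl le_rfl le_rfl le_rfl ⟨b1, b2⟩ ⟨b3, b4⟩ ⟨hm.1, hm.2.1⟩
        ⟨h1, h2⟩ hB h4
      exact (hc.reach.trans h5.symm).trans br
  exact ⟨main, main.trans tr.symm⟩

/-- extension of the arm -/
theorem SA_ext {k j n : ℕ} (hj : j ≤ k) (hkn : k ≤ n) {ω : Finset Edge} (hS : SA k ω)
    (hR : VC j k (-(k : ℤ)) k ω) (hT : HC (-(k : ℤ)) k j k ω)
    (hL : VC (-(k : ℤ)) (-(j : ℤ)) (-(k : ℤ)) k ω) (hB : HC (-(k : ℤ)) k (-(k : ℤ)) (-(j : ℤ)) ω)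
    (hG : HC 0 n (-(j : ℤ)) j ω) : SA n ω := by
  obtain ⟨xr, xr', r1, r2, r3, r4, hR⟩ := hR
  obtain ⟨yt, yt', t1, t2, t3, t4, hT⟩ := hT
  obtain ⟨y, y', g1, g2, g3, g4, hG⟩ := hG
  have h1 := (arm_ring hj hS ⟨r1, r2⟩ ⟨r3, r4⟩ hR ⟨t1, t2⟩ ⟨t3, t4⟩ hT hL hB).1
  have h2 := cross (ω := ω) (x1 := 0) (x2 := n) (y1 := -(j : ℤ)) (y2 := j) (x3 := j) (x4 := k)
    (y3 := -(k : ℤ)) (y4 := k) (by omega) (by omega) (by omega) (by omega) ⟨g1, g2⟩ ⟨g3, g4⟩
    ⟨r1, r2⟩ ⟨r3, r4⟩ hG hR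
  exact SA_of_reach ((h1.trans h2.symm).trans hG.reach) (Or.inl (le_abs_self _))

theorem pi1_line (n : ℕ) : (1 / 2 : ℝ) ^ n ≤ pi1 n := by
  have hsub : box 0 (n : ℤ) 0 ((0 : ℕ) : ℤ) ⊆ bx n := by
    unfold bx
    exact box_mono (by omega) le_rfl (by omega) (by omega)
  refine (h_line n 0).trans ?_
  rw [← Pr_HC (x1 := 0) (x2 := n) (y1 := 0) (y2 := ((0 : ℕ) : ℤ)) n 0 (by ring) (by ring) hsub]
  unfold pi1
  refine Pr_mono fun ω _ hω => ?_
  obtain ⟨y, y', h1, h2, h3, h4, h5⟩ := hω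
  have e1 : y = 0 := by omega
  subst e1
  exact SA_of_reach h5.reach (Or.inl (le_abs_self _))

theorem pi1_pos (n : ℕ) : 0 < pi1 n := lt_of_lt_of_le (by positivity) (pi1_line n)

/-- quasi-multiplicativity between comparable scales -/
theorem pi1_ext : ∃ C : ℝ, 0 < C ∧ ∀ k n : ℕ, k ≤ n → n ≤ 4 * k + 4 → pi1 k ≤ C * pi1 n := by
  obtain ⟨c, hc0, hc⟩ := rsw 32
  refine ⟨1 / c ^ 5 + 2 ^ 8, by positivity, fun k n hkn hn => ?_⟩
  have hp := pi1_pos n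
  rcases Nat.lt_or_ge k 2 with hk | hk
  · have h1 : (1 / 2 : ℝ) ^ 8 ≤ pi1 n :=
      (pow_le_pow_of_le_one (by norm_num) (by norm_num) (by omega)).trans (pi1_line n)
    have h2 : (0 : ℝ) ≤ 1 / c ^ 5 * pi1 n := by positivity
    have h3 := pi1_le_one k
    have h4 : (1 : ℝ) ≤ 2 ^ 8 * pi1 n := by
      calc (1 : ℝ) = 2 ^ 8 * (1 / 2) ^ 8 := by norm_num
        _ ≤ 2 ^ 8 * pi1 n := mul_le_mul_of_nonneg_left h1 (by norm_num)
    rw [add_mul]
    linarith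
  · obtain ⟨j, hj⟩ : ∃ j, j = k / 2 := ⟨_, rfl⟩
    have hjk : j ≤ k := by omega
    have hsub : ∀ {x1 x2 y1 y2 : ℤ}, -(n : ℤ) ≤ x1 → x2 ≤ n → -(n : ℤ) ≤ y1 → y2 ≤ n →
        box x1 x2 y1 y2 ⊆ bx n := fun h1 h2 h3 h4 => box_mono h1 h2 h3 h4
    have pS : pi1 k ≤ Pr (bx n) (SA k) := (Pr_SA (bx_mono hkn)).ge
    have pR : c ≤ Pr (bx n) (VC j k (-(k : ℤ)) k) := by
      rw [Pr_VC (k - j) (2 * k) (by omega) (by omega)
        (hsub (by omega) (by omega) (by omega) (by omega))]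
      exact hc _ _ (by omega) (by omega)
    have pT : c ≤ Pr (bx n) (HC (-(k : ℤ)) k j k) := by
      rw [Pr_HC (2 * k) (k - j) (by omega) (by omega)
        (hsub (by omega) (by omega) (by omega) (by omega))]
      exact hc _ _ (by omega) (by omega)
    have pL : c ≤ Pr (bx n) (VC (-(k : ℤ)) (-(j : ℤ)) (-(k : ℤ)) k) := by
      rw [Pr_VC (k - j) (2 * k) (by omega) (by omega)
        (hsub (by omega) (by omega) (by omega) (by omega))]
      exact hc _ _ (by omega) (by omega)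
    have pB : c ≤ Pr (bx n) (HC (-(k : ℤ)) k (-(k : ℤ)) (-(j : ℤ))) := by
      rw [Pr_HC (2 * k) (k - j) (by omega) (by omega)
        (hsub (by omega) (by omega) (by omega) (by omega))]
      exact hc _ _ (by omega) (by omega)
    have pG : c ≤ Pr (bx n) (HC 0 n (-(j : ℤ)) j) := by
      rw [Pr_HC n (2 * j) (by omega) (by omega)
        (hsub (by omega) (by omega) (by omega) (by omega))]
      exact hc _ _ (by omega) (by omega)
    have iR := inc_VC (j : ℤ) k (-(k : ℤ)) k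
    have iT := inc_HC (-(k : ℤ)) k (j : ℤ) k
    have iL := inc_VC (-(k : ℤ)) (-(j : ℤ)) (-(k : ℤ)) k
    have iB := inc_HC (-(k : ℤ)) k (-(k : ℤ)) (-(j : ℤ))
    have iG := inc_HC 0 (n : ℤ) (-(j : ℤ)) j
    have f1 := pup_fkg (inc_SA k) iR hc0.le pS pR
    have f2 := pup_fkg (pup_and (inc_SA k) iR) iT hc0.le f1 pT
    have f3 := pup_fkg (pup_and (pup_and (inc_SA k) iR) iT) iL hc0.le f2 pL
    have f4 := pup_fkg (pup_and (pup_and (pup_and (inc_SA k) iR) iT) iL) iB hc0.le f3 pB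
    have f5 := pup_fkg (pup_and (pup_and (pup_and (pup_and (inc_SA k) iR) iT) iL) iB) iG hc0.le f4 pG
    have f6 : pi1 k * c * c * c * c * c ≤ pi1 n := by
      refine f5.trans ?_
      unfold pi1
      refine Pr_mono fun ω _ hω => ?_
      obtain ⟨⟨⟨⟨⟨h1, h2⟩, h3⟩, h4⟩, h5⟩, h6⟩ := hω
      exact SA_ext hjk hkn h1 h2 h3 h4 h5 h6
    have f7 : pi1 k * c ^ 5 ≤ pi1 n := by
      calc pi1 k * c ^ 5 = pi1 k * c * c * c * c * c := by ring
        _ ≤ pi1 n := f6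
    have f8 : pi1 k ≤ 1 / c ^ 5 * pi1 n := by
      rw [div_mul_eq_mul_div, one_mul, le_div_iff₀ (by positivity)]
      exact f7
    have f9 : (0 : ℝ) ≤ 2 ^ 8 * pi1 n := by positivity
    rw [add_mul]
    linarith

end FKP
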