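import Pool.Agent.Lib.MP_216314_pr.Cy.CyA
import Pool.Agent.Lib.MP_216314_pr.Cy.CyB

/-!
# The two bounds on the cylinder
-/

set_option autoImplicit false

noncomputable section

namespace FKP

open Finset FKI

/-- two vertices of the plane in the same cluster of the lifted configuration -/
def Wind (n : ℕ) (ω : Finset Edge) : Prop := (lgr n ω).Reachable (0, 0) ((n : ℤ), -(n : ℤ))

/-- an increasing event of the plane, pulled back to the cylinder -/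
theorem Pr_pull_of {n m : ℕ} {F : Finset Edge} (hinj : Set.InjOn (red n) (F : Set Edge)) (hn : 1 ≤ n)
    (hE : ∀ e ∈ F, -(2 * (m : ℤ)) ≤ e.1 + e.2.1 ∧ e.1 + e.2.1 < 2 * m) (A : Finset Edge → Prop) :
    Pr (cylE n m) (fun ω => A (pull n F ω)) = Pr F A :=
  Pr_pull hinj (fun e he => red_mem hn (hE e he).1 (hE e he).2) A

theorem SA_pull {n k : ℕ} {ω : Finset Edge} {v : V} (h : (lgr n ω).Reachable (0, 0) v)
    (hv : (k : ℤ) ≤ |v.1| ∨ (k : ℤ) ≤ |v.2|) : SA k (pull n (bx k) ω) := by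
  obtain ⟨F, hF⟩ := lgr_reach h
  have h1 := SA_of_reach hF hv
  have h2 := (dep_SA (Finset.Subset.refl (bx k)) _).1 h1
  refine inc_SA k _ _ ?_ h2
  intro e he
  rw [mem_inter, mem_pull] at he
  exact mem_pull.2 ⟨he.2, he.1.2⟩

theorem mem_bx {k : ℕ} {e : Edge} (he : e ∈ bx k) :
    -(k : ℤ) ≤ e.1 ∧ e.1 ≤ k ∧ -(k : ℤ) ≤ e.2.1 ∧ e.2.1 ≤ k := by
  unfold bx at he
  rw [mem_box] at he
  omega

theorem mem_box' {x1 x2 y1 y2 : ℤ} {e : Edge} (he : e ∈ box x1 x2 y1 y2) :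
    x1 ≤ e.1 ∧ e.1 ≤ x2 ∧ y1 ≤ e.2.1 ∧ e.2.1 ≤ y2 := by
  rw [mem_box] at he
  omega

/-- the pulled back square has the law of the square -/
theorem Pr_pull_bx {n m k : ℕ} (hk : 2 * k < n) (hm : n ≤ m) (A : Finset Edge → Prop) :
    Pr (cylE n m) (fun ω => A (pull n (bx k) ω)) = Pr (bx k) A := by
  refine Pr_pull_of (red_inj_x (a := -(k : ℤ)) (b := k) (by omega) ?_) (by omega) ?_ A
  · intro e he
    have := mem_bx he
    exact ⟨this.1, this.2.1⟩
  · intro e he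
    have := mem_bx he
    omega

/-- the upper bound -/
theorem cyl_upper : ∃ C : ℝ, 0 < C ∧ ∀ n : ℕ, 1 ≤ n → ∀ m : ℕ, n ≤ m → ∀ A : Finset Edge → Prop,
    (∀ ω, ω ⊆ cylE n m → A ω →
      ∃ v : V, (lgr n ω).Reachable (0, 0) v ∧ ((n : ℤ) ≤ 2 * |v.1| ∨ (n : ℤ) ≤ 2 * |v.2|)) →
    Pr (cylE n m) A ≤ C * pi1 n := by
  obtain ⟨C, hC, hext⟩ := pi1_ext
  refine ⟨C, hC, fun n hn m hm A hA => ?_⟩
  obtain ⟨k, hk⟩ : ∃ k, k = (n - 1) / 2 := ⟨_, rfl⟩
  refine le_trans ?_ (hext k n (by omega) (by omega))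
  have h1 : Pr (cylE n m) A ≤ Pr (cylE n m) (fun ω => SA k (pull n (bx k) ω)) := by
    refine Pr_mono fun ω hω hAω => ?_
    obtain ⟨v, hv1, hv2⟩ := hA ω hω hAω
    exact SA_pull hv1 (by omega)
  rw [Pr_pull_bx (by omega) hm] at h1
  exact h1

/-- connection in a larger finite window -/
theorem conn_pull {n : ℕ} {F F' : Finset Edge} (hF : F ⊆ F') {B ω : Finset Edge} {u v : V}
    (h : Conn B (pull n F ω) u v) : Conn B (pull n F' ω) u v := by
  refine h.mono (Finset.Subset.refl _) ?_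
  intro e he
  rw [mem_pull] at he ⊢
  exact ⟨hF he.1, he.2⟩

/-- the translate of a connection by `(n,-n)` -/
theorem conn_shift {n : ℕ} (hn : 1 ≤ n) {F F' ω : Finset Edge}
    (hF : F.map (shE n (-(n : ℤ))).toEmbedding ⊆ F') {x1 x2 y1 y2 : ℤ} {u v : V}
    (h : Conn (box x1 x2 y1 y2) (pull n F ω) u v) :
    Conn (box (x1 + n) (x2 + n) (y1 + -(n : ℤ)) (y2 + -(n : ℤ))) (pull n F' ω)
      (u.1 + n, u.2 + -(n : ℤ)) (v.1 + n, v.2 + -(n : ℤ)) := by
  have h1 := (conn_map (cp_sh (n : ℤ) (-(n : ℤ))) (box x1 x2 y1 y2) (pull n F ω) u v).2 h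
  rw [box_sh] at h1
  refine Conn.mono (Finset.Subset.refl _) ?_ h1
  intro e he
  rw [mem_map] at he
  obtain ⟨e', he', rfl⟩ := he
  rw [mem_pull] at he' ⊢
  refine ⟨hF (mem_map_of_mem _ he'.1), ?_⟩
  have h2 := red_shift hn e' 1
  have h3 : (shE n (-(n : ℤ))).toEmbedding e' = (e'.1 + 1 * n, e'.2.1 - 1 * n, e'.2.2) := by
    show ((e'.1 + n, e'.2.1 + -(n : ℤ), e'.2.2) : Edge) = _
    rw [one_mul, sub_eq_add_neg]
  rw [h3, h2]
  exact he'.2

/-- the geometric part of the lower bound -/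
theorem wind_geo {n k j : ℕ} (hj : 2 * j ≤ k) (hk : 2 * k < n) {ω : Finset Edge}
    (hS : SA k (pull n (bx k) ω)) (hR : VC j k (-(k : ℤ)) k (pull n (bx k) ω))
    (hT : HC (-(k : ℤ)) k j k (pull n (bx k) ω))
    (hL : VC (-(k : ℤ)) (-(j : ℤ)) (-(k : ℤ)) k (pull n (bx k) ω))
    (hB : HC (-(k : ℤ)) k (-(k : ℤ)) (-(j : ℤ)) (pull n (bx k) ω))
    (hG : HC 0 (n + j) (-(j : ℤ)) j (pull n (box 0 (n + j) (-(j : ℤ)) j) ω))
    (hH : VC (n - j) (n + j) (-(n : ℤ)) j (pull n (box (n - j) (n + j) (-(n : ℤ)) j) ω)) :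
    Wind n ω := by
  obtain ⟨F, hF⟩ : ∃ F, F = bx (3 * n) := ⟨_, rfl⟩
  have hsub : ∀ {x1 x2 y1 y2 : ℤ}, -(3 * (n : ℤ)) ≤ x1 → x2 ≤ 3 * n → -(3 * (n : ℤ)) ≤ y1 →
      y2 ≤ 3 * n → box x1 x2 y1 y2 ⊆ F := by
    intro x1 x2 y1 y2 h1 h2 h3 h4
    rw [hF]
    unfold bx
    exact box_mono (by push_cast; omega) (by push_cast; omega) (by push_cast; omega)
      (by push_cast; omega)
  have hbk : bx k ⊆ F := by
    unfold bx
    exact hsub (by omega) (by omega) (by omega) (by omega)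
  obtain ⟨xr, xr', r1, r2, r3, r4, hR⟩ := hR
  obtain ⟨yt, yt', t1, t2, t3, t4, hT⟩ := hT
  obtain ⟨y, y', g1, g2, g3, g4, hG⟩ := hG
  obtain ⟨z, z', h1, h2, h3, h4, hH⟩ := hH
  obtain ⟨a1, a2⟩ := arm_ring (by omega) hS ⟨r1, r2⟩ ⟨r3, r4⟩ hR ⟨t1, t2⟩ ⟨t3, t4⟩ hT hL hB
  have b1 := reach_lgr a1
  have b2 := reach_lgr a2
  have hG' := conn_pull (F' := F) (hsub (by omega) (by omega) (by omega) (by omega)) hG
  have hH' := conn_pull (F' := F) (hsub (by omega) (by omega) (by omega) (by omega)) hH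
  have hR' := conn_pull hbk hR
  have hT' := conn_shift (n := n) (F' := F) (by omega) (F := bx k) (by
    unfold bx
    rw [box_sh]
    exact hsub (by omega) (by omega) (by omega) (by omega)) hT
  simp only at hT'
  have c1 := cross (x1 := 0) (x2 := n + j) (y1 := -(j : ℤ)) (y2 := j) (x3 := j) (x4 := k)
    (y3 := -(k : ℤ)) (y4 := k) (by omega) (by omega) (by omega) (by omega) ⟨g1, g2⟩ ⟨g3, g4⟩
    ⟨r1, r2⟩ ⟨r3, r4⟩ hG' hR'
  have c2 := cross (x1 := 0) (x2 := n + j) (y1 := -(j : ℤ)) (y2 := j) (x3 := n - j) (x4 := n + j)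
    (y3 := -(n : ℤ)) (y4 := j) (by omega) (by omega) (by omega) (by omega) ⟨g1, g2⟩ ⟨g3, g4⟩
    ⟨h1, h2⟩ ⟨h3, h4⟩ hG' hH'
  have c3 := cross (x1 := -(k : ℤ) + n) (x2 := k + n) (y1 := j + -(n : ℤ)) (y2 := k + -(n : ℤ))
    (x3 := n - j) (x4 := n + j) (y3 := -(n : ℤ)) (y4 := j) (by omega) (by omega) (by omega)
    (by omega) (yu := yt + -(n : ℤ)) (yu' := yt' + -(n : ℤ)) (by omega) (by omega)
    ⟨h1, h2⟩ ⟨h3, h4⟩ hT' hH'
  have d1 := reach_lgr c1
  have d2 := reach_lgr c2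
  have d3 := reach_lgr c3
  have b3 := lgr_shift (by omega) ω 1 b2
  simp only [one_mul, zero_add, sub_eq_add_neg] at b3
  exact (((b1.trans d1.symm).trans d2).trans d3.symm).trans b3.symm

/-- the lower bound -/
theorem cyl_lower : ∃ c : ℝ, 0 < c ∧ ∀ n : ℕ, 1 ≤ n → ∀ m : ℕ, n ≤ m →
    c * pi1 n ≤ Pr (cylE n m) (Wind n) := by
  obtain ⟨c, hc0, hc⟩ := rsw 32
  refine ⟨min (c ^ 6) ((1 / 2) ^ 8), by positivity, fun n hn m hm => ?_⟩
  have hp := pi1_nonneg n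
  rcases Nat.lt_or_ge n 5 with h5 | h5
  · have h1 : min (c ^ 6) ((1 / 2) ^ 8) * pi1 n ≤ (1 / 2) ^ 8 := by
      calc min (c ^ 6) ((1 / 2) ^ 8) * pi1 n ≤ (1 / 2) ^ 8 * 1 :=
            mul_le_mul (min_le_right _ _) (pi1_le_one n) hp (by positivity)
        _ = (1 / 2) ^ 8 := mul_one _
    refine h1.trans ?_
    have i1 : Inc (fun ω => HC 0 n 0 0 (pull n (box 0 n 0 0) ω)) := inc_pull (inc_HC _ _ _ _)
    have i2 : Inc (fun ω => VC n n (-(n : ℤ)) 0 (pull n (box n n (-(n : ℤ)) 0) ω)) :=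
      inc_pull (inc_VC _ _ _ _)
    have p1 : (1 / 2 : ℝ) ^ n ≤ Pr (cylE n m) (fun ω => HC 0 n 0 0 (pull n (box 0 n 0 0) ω)) := by
      rw [Pr_pull_of (m := m) (red_inj_y (a := 0) (b := 0) (by omega) fun e he => ?_) hn
        (fun e he => ?_) (HC 0 n 0 0), Pr_HC n 0 (by ring) (by simp) (Finset.Subset.refl _)]
      · exact h_line n 0
      · have := mem_box' he
        omega
      · rw [mem_box] at he
        omega
    have p2 : (1 / 2 : ℝ) ^ n ≤ Pr (cylE n m)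
        (fun ω => VC n n (-(n : ℤ)) 0 (pull n (box n n (-(n : ℤ)) 0) ω)) := by
      rw [Pr_pull_of (m := m) (red_inj_x (a := n) (b := n) (by omega) fun e he => ?_) hn
        (fun e he => ?_) (VC n n (-(n : ℤ)) 0), Pr_VC 0 n (by simp) (by simp)
        (Finset.Subset.refl _)]
      · exact h_line n 0
      · have := mem_box' he
        omega
      · rw [mem_box] at he
        omega
    have f1 := pup_fkg i1 i2 (by positivity) p1 p2
    have f2 : (1 / 2 : ℝ) ^ 8 ≤ (1 / 2) ^ n * (1 / 2) ^ n := by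
      rw [← pow_add]
      exact pow_le_pow_of_le_one (by norm_num) (by norm_num) (by omega)
    refine (f2.trans f1).trans (Pr_mono fun ω _ hω => ?_)
    obtain ⟨⟨y, y', h1, h2, h3, h4, hG⟩, ⟨x, x', k1, k2, k3, k4, hH⟩⟩ := hω
    have e1 : y = 0 := by omega
    have e2 : y' = 0 := by omega
    have e3 : x = n := by omega
    have e4 : x' = n := by omega
    subst e1 e2 e3 e4
    exact (reach_lgr hG.reach).trans (reach_lgr hH.reach).symm
  · obtain ⟨k, hk⟩ : ∃ k, k = (n - 1) / 2 := ⟨_, rfl⟩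
    obtain ⟨j, hj⟩ : ∃ j, j = k / 2 := ⟨_, rfl⟩
    have hk2 : 2 * k < n := by omega
    have hbk : ∀ {x1 x2 y1 y2 : ℤ}, -(k : ℤ) ≤ x1 → x2 ≤ k → -(k : ℤ) ≤ y1 → y2 ≤ k →
        box x1 x2 y1 y2 ⊆ bx k := fun h1 h2 h3 h4 => box_mono h1 h2 h3 h4
    have iS : Inc (fun ω => SA k (pull n (bx k) ω)) := inc_pull (inc_SA k)
    have iR : Inc (fun ω => VC j k (-(k : ℤ)) k (pull n (bx k) ω)) := inc_pull (inc_VC _ _ _ _)
    have iT : Inc (fun ω => HC (-(k : ℤ)) k j k (pull n (bx k) ω)) := inc_pull (inc_HC _ _ _ _)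
    have iL : Inc (fun ω => VC (-(k : ℤ)) (-(j : ℤ)) (-(k : ℤ)) k (pull n (bx k) ω)) :=
      inc_pull (inc_VC _ _ _ _)
    have iB : Inc (fun ω => HC (-(k : ℤ)) k (-(k : ℤ)) (-(j : ℤ)) (pull n (bx k) ω)) :=
      inc_pull (inc_HC _ _ _ _)
    have iG : Inc (fun ω => HC 0 (n + j) (-(j : ℤ)) j (pull n (box 0 (n + j) (-(j : ℤ)) j) ω)) :=
      inc_pull (inc_HC _ _ _ _)
    have iH : Inc (fun ω => VC (n - j) (n + j) (-(n : ℤ)) j
        (pull n (box (n - j) (n + j) (-(n : ℤ)) j) ω)) := inc_pull (inc_VC _ _ _ _)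
    have pS : pi1 n ≤ Pr (cylE n m) (fun ω => SA k (pull n (bx k) ω)) := by
      rw [Pr_pull_bx hk2 hm]
      exact pi1_anti (by omega)
    have pR : c ≤ Pr (cylE n m) (fun ω => VC j k (-(k : ℤ)) k (pull n (bx k) ω)) := by
      rw [Pr_pull_bx hk2 hm, Pr_VC (k - j) (2 * k) (by omega) (by omega)
        (hbk (by omega) (by omega) (by omega) (by omega))]
      exact hc _ _ (by omega) (by omega)
    have pT : c ≤ Pr (cylE n m) (fun ω => HC (-(k : ℤ)) k j k (pull n (bx k) ω)) := by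
      rw [Pr_pull_bx hk2 hm, Pr_HC (2 * k) (k - j) (by omega) (by omega)
        (hbk (by omega) (by omega) (by omega) (by omega))]
      exact hc _ _ (by omega) (by omega)
    have pL : c ≤ Pr (cylE n m)
        (fun ω => VC (-(k : ℤ)) (-(j : ℤ)) (-(k : ℤ)) k (pull n (bx k) ω)) := by
      rw [Pr_pull_bx hk2 hm, Pr_VC (k - j) (2 * k) (by omega) (by omega)
        (hbk (by omega) (by omega) (by omega) (by omega))]
      exact hc _ _ (by omega) (by omega)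
    have pB : c ≤ Pr (cylE n m)
        (fun ω => HC (-(k : ℤ)) k (-(k : ℤ)) (-(j : ℤ)) (pull n (bx k) ω)) := by
      rw [Pr_pull_bx hk2 hm, Pr_HC (2 * k) (k - j) (by omega) (by omega)
        (hbk (by omega) (by omega) (by omega) (by omega))]
      exact hc _ _ (by omega) (by omega)
    have pG : c ≤ Pr (cylE n m)
        (fun ω => HC 0 (n + j) (-(j : ℤ)) j (pull n (box 0 (n + j) (-(j : ℤ)) j) ω)) := by
      rw [Pr_pull_of (m := m) (red_inj_y (a := -(j : ℤ)) (b := j) (by omega) fun e he => ?_) hn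
        (fun e he => ?_) (HC 0 (n + j) (-(j : ℤ)) j),
        Pr_HC (n + j) (2 * j) (by push_cast; ring) (by push_cast; ring) (Finset.Subset.refl _)]
      · exact hc _ _ (by omega) (by omega)
      · have := mem_box' he
        omega
      · have := mem_box' he
        omega
    have pH : c ≤ Pr (cylE n m) (fun ω => VC (n - j) (n + j) (-(n : ℤ)) j
        (pull n (box (n - j) (n + j) (-(n : ℤ)) j) ω)) := by
      rw [Pr_pull_of (m := m) (red_inj_x (a := n - j) (b := n + j) (by omega) fun e he => ?_) hn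
        (fun e he => ?_) (VC (n - j) (n + j) (-(n : ℤ)) j),
        Pr_VC (2 * j) (n + j) (by push_cast; ring) (by push_cast; ring) (Finset.Subset.refl _)]
      · exact hc _ _ (by omega) (by omega)
      · have := mem_box' he
        omega
      · have := mem_box' he
        omega
    have f1 := pup_fkg iS iR hc0.le pS pR
    have f2 := pup_fkg (pup_and iS iR) iT hc0.le f1 pT
    have f3 := pup_fkg (pup_and (pup_and iS iR) iT) iL hc0.le f2 pL
    have f4 := pup_fkg (pup_and (pup_and (pup_and iS iR) iT) iL) iB hc0.le f3 pB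
    have f5 := pup_fkg (pup_and (pup_and (pup_and (pup_and iS iR) iT) iL) iB) iG hc0.le f4 pG
    have f6 := pup_fkg (pup_and (pup_and (pup_and (pup_and (pup_and iS iR) iT) iL) iB) iG) iH
      hc0.le f5 pH
    have f7 : pi1 n * c * c * c * c * c * c ≤ Pr (cylE n m) (Wind n) := by
      refine f6.trans (Pr_mono fun ω _ hω => ?_)
      obtain ⟨⟨⟨⟨⟨⟨h1, h2⟩, h3⟩, h4⟩, h5⟩, h6⟩, h7⟩ := hω
      exact wind_geo (by omega) hk2 h1 h2 h3 h4 h5 h6 h7
    calc min (c ^ 6) ((1 / 2) ^ 8) * pi1 n ≤ c ^ 6 * pi1 n :=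
          mul_le_mul_of_nonneg_right (min_le_left _ _) hp
      _ = pi1 n * c * c * c * c * c * c := by ring
      _ ≤ Pr (cylE n m) (Wind n) := f7

/-- **The passage from the cylinder to the plane.** -/
theorem cyl_passage : ∃ c C : ℝ, 0 < c ∧ 0 < C ∧ ∀ n : ℕ, 1 ≤ n → ∀ m : ℕ, n ≤ m →
    ∀ A : Finset Edge → Prop, (∀ ω, ω ⊆ cylE n m → Wind n ω → A ω) →
    (∀ ω, ω ⊆ cylE n m → A ω →
      ∃ v : V, (lgr n ω).Reachable (0, 0) v ∧ ((n : ℤ) ≤ 2 * |v.1| ∨ (n : ℤ) ≤ 2 * |v.2|)) →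
    c * pi1 n ≤ Pr (cylE n m) A ∧ Pr (cylE n m) A ≤ C * pi1 n := by
  obtain ⟨c, hc, h1⟩ := cyl_lower
  obtain ⟨C, hC, h2⟩ := cyl_upper
  exact ⟨c, C, hc, hC, fun n hn m hm A hA hB =>
    ⟨(h1 n hn m hm).trans (Pr_mono hA), h2 n hn m hm A hB⟩⟩

end FKP
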