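import Pool.Agent.Lib.MP_216314_pr.Cy.CyB

/-!
# Arms and rings around an arbitrary vertex
-/

set_option autoImplicit false

noncomputable section

namespace FKP

open Finset FKI

/-- sup distance -/
def sd (u v : V) : ℤ := max |v.1 - u.1| |v.2 - u.2|

/-- the square of radius `m` centred at `u` -/
def bu (u : V) (m : ℕ) : Finset Edge := box (u.1 - m) (u.1 + m) (u.2 - m) (u.2 + m)

/-- `u` is connected inside the square of radius `m` centred at `u` to the boundary of this square -/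
def AR (u : V) (m : ℕ) (ω : Finset Edge) : Prop := ∃ v : V, sd u v = m ∧ Conn (bu u m) ω u v

/-- crossings of the four strips of the annulus of radii `j`, `k` around `u` -/
def RG (u : V) (j k : ℕ) (ω : Finset Edge) : Prop :=
  ((VC (u.1 + j) (u.1 + k) (u.2 - k) (u.2 + k) ω ∧ HC (u.1 - k) (u.1 + k) (u.2 + j) (u.2 + k) ω) ∧
    VC (u.1 - k) (u.1 - j) (u.2 - k) (u.2 + k) ω) ∧ HC (u.1 - k) (u.1 + k) (u.2 - k) (u.2 - j) ω

theorem sd_le {u v : V} {m : ℤ} : sd u v ≤ m ↔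
    (u.1 - m ≤ v.1 ∧ v.1 ≤ u.1 + m) ∧ (u.2 - m ≤ v.2 ∧ v.2 ≤ u.2 + m) := by
  unfold sd
  rw [max_le_iff, abs_le, abs_le]
  constructor
  · rintro ⟨⟨h1, h2⟩, ⟨h3, h4⟩⟩
    exact ⟨⟨by omega, by omega⟩, ⟨by omega, by omega⟩⟩
  · rintro ⟨⟨h1, h2⟩, ⟨h3, h4⟩⟩
    exact ⟨⟨by omega, by omega⟩, ⟨by omega, by omega⟩⟩

theorem sd_cases {u v : V} {m : ℤ} (h : sd u v = m) :
    v.1 = u.1 + m ∨ v.1 = u.1 - m ∨ v.2 = u.2 + m ∨ v.2 = u.2 - m := by
  unfold sd at h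
  rcases max_cases |v.1 - u.1| |v.2 - u.2| with h3 | h3
  · rcases abs_cases (v.1 - u.1) with h4 | h4
    · left; omega
    · right; left; omega
  · rcases abs_cases (v.2 - u.2) with h4 | h4
    · right; right; left; omega
    · right; right; right; omega

theorem sd_self (u : V) : sd u u = 0 := by
  unfold sd
  simp

theorem sd_nonneg (u v : V) : 0 ≤ sd u v := le_trans (abs_nonneg _) (le_max_left _ _)

theorem sd_comm (u v : V) : sd u v = sd v u := by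
  unfold sd
  rw [abs_sub_comm v.1, abs_sub_comm v.2]

theorem sd_tri (u v w : V) : sd u w ≤ sd u v + sd v w := by
  rw [sd_le]
  have h1 := (sd_le (u := u) (v := v)).1 le_rfl
  have h2 := (sd_le (u := v) (v := w)).1 le_rfl
  omega

theorem sd_edge (u : V) (e : Edge) :
    sd u (ea e) - sd u (eb e) ≤ 1 ∧ sd u (eb e) - sd u (ea e) ≤ 1 := by
  have h1 : sd (ea e) (eb e) ≤ 1 := by
    rw [sd_le]
    obtain ⟨x, y, t⟩ := e
    cases t <;> simp [ea, eb] <;> omega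
  have h2 := sd_tri u (ea e) (eb e)
  have h3 := sd_tri u (eb e) (ea e)
  rw [sd_comm (eb e) (ea e)] at h3
  constructor <;> linarith

/-- an edge with both end points in the square belongs to the square -/
theorem mem_bu {u : V} {m : ℕ} {e : Edge} :
    e ∈ bu u m ↔ sd u (ea e) ≤ m ∧ sd u (eb e) ≤ m := by
  rw [sd_le, sd_le]
  obtain ⟨x, y, t⟩ := e
  unfold bu
  rw [mem_box]
  cases t
  · simp [ea, eb]
    omega
  · simp [ea, eb]
    omega

theorem bu_sub {u u' : V} {m m' : ℕ} (h : sd u u' + m ≤ m') : bu u' m ⊆ bu u m' := by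
  intro e he
  rw [mem_bu] at he ⊢
  have h1 := sd_tri u u' (ea e)
  have h2 := sd_tri u u' (eb e)
  constructor <;> linarith [he.1, he.2]

theorem bu_zero (m : ℕ) : bu (0, 0) m = bx m := by
  unfold bu bx
  simp

theorem inc_AR (u : V) (m : ℕ) : Inc (AR u m) := by
  rintro ω ω' hs ⟨v, h1, h2⟩
  exact ⟨v, h1, h2.mono (Finset.Subset.refl _) hs⟩

theorem dep_AR {u : V} {m : ℕ} {E : Finset Edge} (hE : bu u m ⊆ E) : Dep E (AR u m) := by
  intro ω
  constructor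
  · rintro ⟨v, h1, h2⟩
    exact ⟨v, h1, (dep_Conn hE _ _ ω).1 h2⟩
  · rintro ⟨v, h1, h2⟩
    exact ⟨v, h1, (dep_Conn hE _ _ ω).2 h2⟩

/-- first exit from the square of radius `k` around `u` -/
theorem hit_of_reach {u a b : V} {k : ℕ} {ω : Finset Edge} (h : (gr ω).Reachable a b)
    (ha : sd u a ≤ k) (hb : (k : ℤ) ≤ sd u b) : ∃ c, sd u c = k ∧ Conn (bu u k) ω a c := by
  obtain ⟨c, hc1, hc2, hc3⟩ := first_hit (F := ω) (ω := ω) (sd u) (fun e _ => sd_edge u e) ha hb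
    (Conn.of_reach (Finset.Subset.refl _) h)
  refine ⟨c, hc1, Conn.mono ?_ (Finset.Subset.refl _) hc3⟩
  intro e he
  rw [mem_filter] at he
  rw [mem_bu]
  exact he.2

theorem AR_of_reach {u v : V} {m : ℕ} {ω : Finset Edge} (h : (gr ω).Reachable u v)
    (hv : (m : ℤ) ≤ sd u v) : AR u m ω :=
  hit_of_reach h (by rw [sd_self]; omega) hv

theorem AR_anti {u : V} {m m' : ℕ} (h : m ≤ m') {ω : Finset Edge} (hA : AR u m' ω) : AR u m ω := by
  obtain ⟨v, h1, h2⟩ := hA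
  exact AR_of_reach h2.reach (by rw [h1]; exact_mod_cast h)

theorem AR_sh (u : V) (m : ℕ) (ω : Finset Edge) :
    AR u m (ω.map (shE u.1 u.2).toEmbedding) ↔ SA m ω := by
  have key : ∀ v : V, Conn (bu u m) (ω.map (shE u.1 u.2).toEmbedding) u (v.1 + u.1, v.2 + u.2) ↔
      Conn (bx m) ω (0, 0) v := by
    intro v
    have h := conn_map (cp_sh u.1 u.2) (bx m) ω (0, 0) v
    have h1 : shV u.1 u.2 (0, 0) = u := by
      show ((0 + u.1, 0 + u.2) : V) = u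
      simp
    have h2 : (bx m).map (shE u.1 u.2).toEmbedding = bu u m := by
      unfold bx bu
      rw [box_sh]
      congr 1 <;> ring
    rw [h1, h2] at h
    exact h
  constructor
  · rintro ⟨v, h1, h2⟩
    refine ⟨(v.1 - u.1, v.2 - u.2), ?_, ?_⟩
    · rcases sd_cases h1 with h | h | h | h
      · left; simp only; omega
      · right; left; simp only; omega
      · right; right; left; simp only; omega
      · right; right; right; simp only; omega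
    · rw [← key]
      simp only [sub_add_cancel]
      exact h2
  · rintro ⟨v, h1, h2⟩
    have h3 := (key v).2 h2
    refine AR_of_reach h3.reach ?_
    unfold sd
    rw [le_max_iff]
    simp only [add_sub_cancel_right]
    rcases h1 with h1 | h1 | h1 | h1
    · left; rw [h1]; exact le_abs_self _
    · left; rw [h1, abs_neg]; exact le_abs_self _
    · right; rw [h1]; exact le_abs_self _
    · right; rw [h1, abs_neg]; exact le_abs_self _

theorem Pr_AR {u : V} {m : ℕ} {E : Finset Edge} (hE : bu u m ⊆ E) : Pr E (AR u m) = pi1 m := by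
  rw [Pr_dep hE (dep_AR (Finset.Subset.refl _))]
  have h1 : bu u m = (bx m).map (shE u.1 u.2).toEmbedding := by
    unfold bx bu
    rw [box_sh]
    congr 1 <;> ring
  rw [h1, Pr_map]
  unfold pi1
  congr 1
  funext ω
  exact propext (AR_sh u m ω)

theorem inc_RG (u : V) (j k : ℕ) : Inc (RG u j k) :=
  pup_and (pup_and (pup_and (inc_VC _ _ _ _) (inc_HC _ _ _ _)) (inc_VC _ _ _ _)) (inc_HC _ _ _ _)

/-- RSW for rings -/
theorem RG_prob : ∃ c : ℝ, 0 < c ∧ ∀ (u : V) (j k : ℕ) (E : Finset Edge), j < k →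
    2 * k ≤ 32 * (k - j) → bu u k ⊆ E → c ≤ Pr E (RG u j k) := by
  obtain ⟨c, hc0, hc⟩ := rsw 32
  refine ⟨c * c * c * c, by positivity, fun u j k E hj hk hE => ?_⟩
  have hsub : ∀ {x1 x2 y1 y2 : ℤ}, u.1 - k ≤ x1 → x2 ≤ u.1 + k → u.2 - k ≤ y1 → y2 ≤ u.2 + k →
      box x1 x2 y1 y2 ⊆ E := fun h1 h2 h3 h4 => (box_mono h1 h2 h3 h4).trans hE
  have pR : c ≤ Pr E (VC (u.1 + j) (u.1 + k) (u.2 - k) (u.2 + k)) := by
    rw [Pr_VC (k - j) (2 * k) (by omega) (by omega)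
      (hsub (by omega) (by omega) (by omega) (by omega))]
    exact hc _ _ (by omega) (by omega)
  have pT : c ≤ Pr E (HC (u.1 - k) (u.1 + k) (u.2 + j) (u.2 + k)) := by
    rw [Pr_HC (2 * k) (k - j) (by omega) (by omega)
      (hsub (by omega) (by omega) (by omega) (by omega))]
    exact hc _ _ (by omega) (by omega)
  have pL : c ≤ Pr E (VC (u.1 - k) (u.1 - j) (u.2 - k) (u.2 + k)) := by
    rw [Pr_VC (k - j) (2 * k) (by omega) (by omega)
      (hsub (by omega) (by omega) (by omega) (by omega))]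
    exact hc _ _ (by omega) (by omega)
  have pB : c ≤ Pr E (HC (u.1 - k) (u.1 + k) (u.2 - k) (u.2 - j)) := by
    rw [Pr_HC (2 * k) (k - j) (by omega) (by omega)
      (hsub (by omega) (by omega) (by omega) (by omega))]
    exact hc _ _ (by omega) (by omega)
  have f1 := pup_fkg (inc_VC _ _ _ _) (inc_HC _ _ _ _) hc0.le pR pT
  have f2 := pup_fkg (pup_and (inc_VC _ _ _ _) (inc_HC _ _ _ _)) (inc_VC _ _ _ _) hc0.le f1 pL
  have f3 := pup_fkg (pup_and (pup_and (inc_VC _ _ _ _) (inc_HC _ _ _ _)) (inc_VC _ _ _ _))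
    (inc_HC _ _ _ _) hc0.le f2 pB
  exact f3

/-- the properties of a ring: the vertex `r` is connected to every path that crosses the annulus, to
every horizontal crossing of the right strip and to every vertical crossing of the upper strip -/
theorem ring_core {u : V} {j k : ℕ} (hj : j ≤ k) {ω : Finset Edge} (h : RG u j k ω) : ∃ r : V,
    (∀ a b : V, sd u a ≤ j → (k : ℤ) ≤ sd u b → (gr ω).Reachable a b → (gr ω).Reachable a r) ∧
    (∀ x1 x2 y1 y2 y y' : ℤ, x1 ≤ u.1 + j → u.1 + k ≤ x2 → u.2 - k ≤ y1 → y2 ≤ u.2 + k →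
      y1 ≤ y ∧ y ≤ y2 → y1 ≤ y' ∧ y' ≤ y2 → Conn (box x1 x2 y1 y2) ω (x1, y) (x2, y') →
      (gr ω).Reachable (x1, y) r) ∧
    (∀ x1 x2 y1 y2 x x' : ℤ, u.1 - k ≤ x1 → x2 ≤ u.1 + k → y1 ≤ u.2 + j → u.2 + k ≤ y2 →
      x1 ≤ x ∧ x ≤ x2 → x1 ≤ x' ∧ x' ≤ x2 → Conn (box x1 x2 y1 y2) ω (x, y1) (x', y2) →
      (gr ω).Reachable (x, y1) r) := by
  obtain ⟨⟨⟨hR, hT⟩, hL⟩, hB⟩ := h
  obtain ⟨xr, xr', r1, r2, r3, r4, hR⟩ := hR
  obtain ⟨yt, yt', t1, t2, t3, t4, hT⟩ := hT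
  obtain ⟨xl, xl', l1, l2, l3, l4, hL⟩ := hL
  obtain ⟨yb, yb', b1, b2, b3, b4, hB⟩ := hB
  have hjk : (j : ℤ) ≤ k := by omega
  have tr := cross (ω := ω) (x1 := u.1 - k) (x2 := u.1 + k) (y1 := u.2 + j) (y2 := u.2 + k)
    (x3 := u.1 + j) (x4 := u.1 + k) (y3 := u.2 - k) (y4 := u.2 + k) (by omega) le_rfl (by omega)
    le_rfl ⟨t1, t2⟩ ⟨t3, t4⟩ ⟨r1, r2⟩ ⟨r3, r4⟩ hT hR
  have br := cross (ω := ω) (x1 := u.1 - k) (x2 := u.1 + k) (y1 := u.2 - k) (y2 := u.2 - j)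
    (x3 := u.1 + j) (x4 := u.1 + k) (y3 := u.2 - k) (y4 := u.2 + k) (by omega) le_rfl le_rfl
    (by omega) ⟨b1, b2⟩ ⟨b3, b4⟩ ⟨r1, r2⟩ ⟨r3, r4⟩ hB hR
  have tl := cross (ω := ω) (x1 := u.1 - k) (x2 := u.1 + k) (y1 := u.2 + j) (y2 := u.2 + k)
    (x3 := u.1 - k) (x4 := u.1 - j) (y3 := u.2 - k) (y4 := u.2 + k) le_rfl (by omega) (by omega)
    le_rfl ⟨t1, t2⟩ ⟨t3, t4⟩ ⟨l1, l2⟩ ⟨l3, l4⟩ hT hL
  refine ⟨(xr, u.2 - k), ?_, ?_, ?_⟩
  · intro a b ha hb hab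
    obtain ⟨c, hc1, hc2⟩ := hit_of_reach hab (ha.trans (by omega)) hb
    rw [sd_le] at ha
    obtain ⟨⟨a1, a2⟩, ⟨a3, a4⟩⟩ := ha
    have hm := conn_mem_box hc2 ⟨by omega, by omega, by omega, by omega⟩
    unfold bu at hc2
    obtain ⟨cx, cy⟩ := c
    simp only at hm
    have hcc := sd_cases hc1
    simp only at hcc
    rcases hcc with hv | hv | hv | hv
    · subst hv
      obtain ⟨y0, h1, h2, h3, h4⟩ := pgeo_right (t := u.1 + j) hc2 (by omega)
        ⟨by omega, by omega, by omega, by omega⟩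
      have h5 := cross (ω := ω) le_rfl le_rfl le_rfl le_rfl ⟨h1, h2⟩ ⟨hm.2.2.1, hm.2.2.2⟩
        ⟨r1, r2⟩ ⟨r3, r4⟩ h4 hR
      exact h3.reach.trans h5
    · subst hv
      obtain ⟨y0, h1, h2, h3, h4⟩ := pgeo_left (t := u.1 - j) hc2 (by omega)
        ⟨by omega, by omega, by omega, by omega⟩
      have h5 := cross (ω := ω) le_rfl le_rfl le_rfl le_rfl ⟨hm.2.2.1, hm.2.2.2⟩ ⟨h1, h2⟩
        ⟨l1, l2⟩ ⟨l3, l4⟩ h4 hL
      exact ((hc2.reach.trans h5).trans tl.symm).trans tr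
    · subst hv
      obtain ⟨x0, h1, h2, h3, h4⟩ := pgeo_up (t := u.2 + j) hc2 (by omega)
        ⟨by omega, by omega, by omega, by omega⟩
      have h5 := cross (ω := ω) le_rfl le_rfl le_rfl le_rfl ⟨t1, t2⟩ ⟨t3, t4⟩ ⟨h1, h2⟩
        ⟨hm.1, hm.2.1⟩ hT h4
      exact (h3.reach.trans h5.symm).trans tr
    · subst hv
      obtain ⟨x0, h1, h2, h3, h4⟩ := pgeo_down (t := u.2 - j) hc2 (by omega)
        ⟨by omega, by omega, by omega, by omega⟩
      have h5 := cross (ω := ω) le_rfl le_rfl le_rfl le_rfl ⟨b1, b2⟩ ⟨b3, b4⟩ ⟨hm.1, hm.2.1⟩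
        ⟨h1, h2⟩ hB h4
      exact (hc2.reach.trans h5.symm).trans br
  · intro x1 x2 y1 y2 y y' h1 h2 h3 h4 hy hy' hc
    exact cross h1 h2 h3 h4 hy hy' ⟨r1, r2⟩ ⟨r3, r4⟩ hc hR
  · intro x1 x2 y1 y2 x x' h1 h2 h3 h4 hx hx' hc
    exact (cross (ω := ω) h1 h2 h3 h4 ⟨t1, t2⟩ ⟨t3, t4⟩ hx hx' hT hc).symm.trans tr

end FKP
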