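import Pool.Agent.Lib.MP_216314_pr.Cy.CyD

/-!
# The two point function
-/

set_option autoImplicit false

noncomputable section

namespace FKP

open Finset FKI

theorem inc_gr (u v : V) : Inc (fun ω => (gr ω).Reachable u v) :=
  fun _ _ hs h => SimpleGraph.Reachable.mono (gr_mono hs) h

theorem pi1_two {u v : V} {m : ℕ} (h : 2 * (m : ℤ) < sd u v) {E : Finset Edge} (hu : bu u m ⊆ E)
    (hv : bu v m ⊆ E) : Pr E (fun ω => AR u m ω ∧ AR v m ω) = pi1 m ^ 2 := by
  have hd : Disjoint (bu u m) (bu v m) := by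
    rw [Finset.disjoint_left]
    intro e h1 h2
    rw [mem_bu] at h1 h2
    have h3 := sd_tri u (ea e) v
    rw [sd_comm (ea e) v] at h3
    linarith [h1.1, h2.1]
  rw [Pr_indep hu hv hd (dep_AR (Finset.Subset.refl _)) (dep_AR (Finset.Subset.refl _)), Pr_AR hu,
    Pr_AR hv, sq]

/-- upper bound for the two point function -/
theorem tau_upper {u v : V} {m : ℕ} (h : 2 * (m : ℤ) < sd u v) (E : Finset Edge) :
    Pr E (fun ω => (gr ω).Reachable u v) ≤ pi1 m ^ 2 := by
  have h1 : E ⊆ E ∪ (bu u m ∪ bu v m) := Finset.subset_union_left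
  have h2 : bu u m ⊆ E ∪ (bu u m ∪ bu v m) :=
    Finset.Subset.trans Finset.subset_union_left Finset.subset_union_right
  have h3 : bu v m ⊆ E ∪ (bu u m ∪ bu v m) :=
    Finset.Subset.trans Finset.subset_union_right Finset.subset_union_right
  refine (Pr_super h1 (inc_gr u v)).trans ?_
  rw [← pi1_two h h2 h3]
  refine Pr_mono fun ω _ hω => ⟨?_, ?_⟩
  · exact AR_of_reach hω (by linarith)
  · exact AR_of_reach hω.symm (by rw [sd_comm]; linarith)

/-- the geometric part of the lower bound -/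
theorem tau_geo {x : V} {j k : ℕ} (hj : j ≤ k) {ω : Finset Edge}
    (hS : AR (0, 0) k ω) (hR : RG (0, 0) j k ω) (hS' : AR x k ω) (hR' : RG x j k ω)
    (hG : HC (min 0 x.1 - 2 * k) (max 0 x.1 + 2 * k) (-(j : ℤ)) j ω)
    (hH : VC (x.1 - j) (x.1 + j) (min 0 x.2 - 2 * k) (max 0 x.2 + 2 * k) ω) :
    (gr ω).Reachable (0, 0) x := by
  obtain ⟨r, q1, q2, -⟩ := ring_core hj hR
  obtain ⟨s, p1, -, p3⟩ := ring_core hj hR'
  obtain ⟨v, v1, v2⟩ := hS
  obtain ⟨w, w1, w2⟩ := hS'
  obtain ⟨y, y', g1, g2, g3, g4, hG⟩ := hG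
  obtain ⟨z, z', h1, h2, h3, h4, hH⟩ := hH
  have m1 := min_le_left 0 x.1
  have m2 := min_le_right 0 x.1
  have m3 := le_max_left 0 x.1
  have m4 := le_max_right 0 x.1
  have n1 := min_le_left 0 x.2
  have n2 := min_le_right 0 x.2
  have n3 := le_max_left 0 x.2
  have n4 := le_max_right 0 x.2
  have a1 := q1 (0, 0) v (by rw [sd_self]; omega) v1.ge v2.reach
  have a2 := p1 x w (by rw [sd_self]; omega) w1.ge w2.reach
  have a3 := q2 _ _ _ _ y y' (by simp only; omega) (by simp only; omega) (by simp only; omega)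
    (by simp only; omega) ⟨g1, g2⟩ ⟨g3, g4⟩ hG
  have a4 := p3 _ _ _ _ z z' (by omega) (by omega) (by omega) (by omega) ⟨h1, h2⟩ ⟨h3, h4⟩ hH
  have a5 := cross (by omega) (by omega) (by omega) (by omega) ⟨g1, g2⟩ ⟨g3, g4⟩ ⟨h1, h2⟩ ⟨h3, h4⟩
    hG hH
  exact (((a1.trans a3.symm).trans a5).trans a4).trans a2.symm

/-- lower bound for the two point function -/
theorem tau_lower : ∃ c : ℝ, 0 < c ∧ ∀ (x : V) (r N : ℕ), sd (0, 0) x = r → 1 ≤ r → 2 * r ≤ N →
    c * pi1 r ^ 2 ≤ Pr (bx N) (fun ω => Conn (bx N) ω (0, 0) x) := by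
  obtain ⟨c, hc0, hc⟩ := rsw 32
  obtain ⟨d, hd0, hd⟩ := RG_prob
  refine ⟨min (d * d * c * c) ((1 / 2) ^ 16), by positivity, fun x r N hx hr hN => ?_⟩
  have hp := pi1_nonneg r
  have hle := (sd_le (u := (0, 0)) (v := x) (m := r)).1 hx.le
  simp only [zero_sub, zero_add] at hle
  obtain ⟨⟨l1, l2⟩, ⟨l3, l4⟩⟩ := hle
  have m1 := min_le_left 0 x.1
  have m2 := min_le_right 0 x.1
  have m3 := le_max_left 0 x.1
  have m4 := le_max_right 0 x.1
  have n1 := min_le_left 0 x.2
  have n2 := min_le_right 0 x.2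
  have n3 := le_max_left 0 x.2
  have n4 := le_max_right 0 x.2
  have m5 : -(r : ℤ) ≤ min 0 x.1 := le_min (by omega) l1
  have m6 : max 0 x.1 ≤ r := max_le (by omega) l2
  have n5 : -(r : ℤ) ≤ min 0 x.2 := le_min (by omega) l3
  have n6 : max 0 x.2 ≤ r := max_le (by omega) l4
  have hbox : ∀ {x1 x2 y1 y2 : ℤ}, -(N : ℤ) ≤ x1 → x2 ≤ N → -(N : ℤ) ≤ y1 → y2 ≤ N →
      box x1 x2 y1 y2 ⊆ bx N := fun h1 h2 h3 h4 => box_mono h1 h2 h3 h4
  rcases Nat.lt_or_ge r 8 with h8 | h8
  · have e1 : min (d * d * c * c) ((1 / 2) ^ 16) * pi1 r ^ 2 ≤ (1 / 2) ^ 16 := by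
      calc min (d * d * c * c) ((1 / 2) ^ 16) * pi1 r ^ 2 ≤ (1 / 2) ^ 16 * 1 :=
            mul_le_mul (min_le_right _ _) (pow_le_one₀ hp (pi1_le_one r)) (by positivity)
              (by positivity)
        _ = (1 / 2) ^ 16 := mul_one _
    refine e1.trans ?_
    obtain ⟨a, ha⟩ : ∃ a : ℕ, (a : ℤ) = max 0 x.1 - min 0 x.1 :=
      ⟨(max 0 x.1 - min 0 x.1).toNat, Int.toNat_of_nonneg (by omega)⟩
    obtain ⟨b, hb⟩ : ∃ b : ℕ, (b : ℤ) = max 0 x.2 - min 0 x.2 :=
      ⟨(max 0 x.2 - min 0 x.2).toNat, Int.toNat_of_nonneg (by omega)⟩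
    have p1 : (1 / 2 : ℝ) ^ a ≤ Pr (bx N) (HC (min 0 x.1) (max 0 x.1) 0 0) := by
      rw [Pr_HC a 0 (by omega) (by omega) (hbox (by omega) (by omega) (by omega) (by omega))]
      exact h_line a 0
    have p2 : (1 / 2 : ℝ) ^ b ≤ Pr (bx N) (VC x.1 x.1 (min 0 x.2) (max 0 x.2)) := by
      rw [Pr_VC 0 b (by omega) (by omega) (hbox (by omega) (by omega) (by omega) (by omega))]
      exact h_line b 0
    have f1 := pup_fkg (inc_HC _ _ _ _) (inc_VC _ _ _ _) (by positivity) p1 p2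
    have f2 : (1 / 2 : ℝ) ^ 16 ≤ (1 / 2) ^ a * (1 / 2) ^ b := by
      rw [← pow_add]
      exact pow_le_pow_of_le_one (by norm_num) (by norm_num) (by
        have h1 : (a : ℤ) ≤ r := by
          rcases le_total 0 x.1 with h | h
          · rw [min_eq_left h, max_eq_right h] at ha; omega
          · rw [min_eq_right h, max_eq_left h] at ha; omega
        have h2 : (b : ℤ) ≤ r := by
          rcases le_total 0 x.2 with h | h
          · rw [min_eq_left h, max_eq_right h] at hb; omega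
          · rw [min_eq_right h, max_eq_left h] at hb; omega
        omega)
    refine (f2.trans f1).trans (Pr_mono fun ω hω hω' => ?_)
    obtain ⟨⟨y, y', h1, h2, h3, h4, hG⟩, ⟨z, z', k1, k2, k3, k4, hH⟩⟩ := hω'
    have e1 : y = 0 := by omega
    have e2 : y' = 0 := by omega
    have e3 : z = x.1 := by omega
    have e4 : z' = x.1 := by omega
    subst e1 e2 e3 e4
    refine Conn.of_reach hω ?_
    have t1 : (gr ω).Reachable (0, 0) (x.1, 0) := by
      have := hG.reach
      rcases le_total 0 x.1 with h | h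
      · rw [min_eq_left h, max_eq_right h] at this; exact this
      · rw [min_eq_right h, max_eq_left h] at this; exact this.symm
    have t2 : (gr ω).Reachable (x.1, 0) (x.1, x.2) := by
      have := hH.reach
      rcases le_total 0 x.2 with h | h
      · rw [min_eq_left h, max_eq_right h] at this; exact this
      · rw [min_eq_right h, max_eq_left h] at this; exact this.symm
    exact t1.trans t2
  · obtain ⟨k, hk⟩ : ∃ k, k = r / 4 := ⟨_, rfl⟩
    obtain ⟨j, hj⟩ : ∃ j, j = k / 2 := ⟨_, rfl⟩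
    obtain ⟨a, ha⟩ : ∃ a : ℕ, (a : ℤ) = max 0 x.1 - min 0 x.1 :=
      ⟨(max 0 x.1 - min 0 x.1).toNat, Int.toNat_of_nonneg (by omega)⟩
    obtain ⟨b, hb⟩ : ∃ b : ℕ, (b : ℤ) = max 0 x.2 - min 0 x.2 :=
      ⟨(max 0 x.2 - min 0 x.2).toNat, Int.toNat_of_nonneg (by omega)⟩
    have hb1 : bu (0, 0) k ⊆ bx N := by
      unfold bu
      exact hbox (by simp only; omega) (by simp only; omega) (by simp only; omega)
        (by simp only; omega)
    have hb2 : bu x k ⊆ bx N := by
      unfold bu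
      exact hbox (by omega) (by omega) (by omega) (by omega)
    have ha2 : (a : ℤ) ≤ r := by
      rcases le_total 0 x.1 with h | h
      · rw [min_eq_left h, max_eq_right h] at ha; omega
      · rw [min_eq_right h, max_eq_left h] at ha; omega
    have hb3 : (b : ℤ) ≤ r := by
      rcases le_total 0 x.2 with h | h
      · rw [min_eq_left h, max_eq_right h] at hb; omega
      · rw [min_eq_right h, max_eq_left h] at hb; omega
    have pS : pi1 r ≤ Pr (bx N) (AR (0, 0) k) := by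
      rw [Pr_AR hb1]
      exact pi1_anti (by omega)
    have pS' : pi1 r ≤ Pr (bx N) (AR x k) := by
      rw [Pr_AR hb2]
      exact pi1_anti (by omega)
    have pR := hd (0, 0) j k (bx N) (by omega) (by omega) hb1
    have pR' := hd x j k (bx N) (by omega) (by omega) hb2
    have pG : c ≤ Pr (bx N) (HC (min 0 x.1 - 2 * k) (max 0 x.1 + 2 * k) (-(j : ℤ)) j) := by
      rw [Pr_HC (a + 4 * k) (2 * j) (by push_cast; omega) (by push_cast; omega)
        (hbox (by omega) (by omega) (by omega) (by omega))]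
      exact hc _ _ (by omega) (by omega)
    have pH : c ≤ Pr (bx N) (VC (x.1 - j) (x.1 + j) (min 0 x.2 - 2 * k) (max 0 x.2 + 2 * k)) := by
      rw [Pr_VC (2 * j) (b + 4 * k) (by push_cast; omega) (by push_cast; omega)
        (hbox (by omega) (by omega) (by omega) (by omega))]
      exact hc _ _ (by omega) (by omega)
    have iS := inc_AR (0, 0) k
    have iS' := inc_AR x k
    have iR := inc_RG (0, 0) j k
    have iR' := inc_RG x j k
    have iG := inc_HC (min 0 x.1 - 2 * k) (max 0 x.1 + 2 * k) (-(j : ℤ)) j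
    have iH := inc_VC (x.1 - j) (x.1 + j) (min 0 x.2 - 2 * k) (max 0 x.2 + 2 * k)
    have f1 := pup_fkg iS iS' hp pS pS'
    have f2 := pup_fkg (pup_and iS iS') iR hd0.le f1 pR
    have f3 := pup_fkg (pup_and (pup_and iS iS') iR) iR' hd0.le f2 pR'
    have f4 := pup_fkg (pup_and (pup_and (pup_and iS iS') iR) iR') iG hc0.le f3 pG
    have f5 := pup_fkg (pup_and (pup_and (pup_and (pup_and iS iS') iR) iR') iG) iH hc0.le f4 pH
    calc min (d * d * c * c) ((1 / 2) ^ 16) * pi1 r ^ 2 ≤ (d * d * c * c) * pi1 r ^ 2 :=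
          mul_le_mul_of_nonneg_right (min_le_left _ _) (by positivity)
      _ = pi1 r * pi1 r * d * d * c * c := by ring
      _ ≤ _ := f5
      _ ≤ Pr (bx N) (fun ω => Conn (bx N) ω (0, 0) x) := by
        refine Pr_mono fun ω hω hω' => Conn.of_reach hω ?_
        obtain ⟨⟨⟨⟨⟨h1, h2⟩, h3⟩, h4⟩, h5⟩, h6⟩ := hω'
        exact tau_geo (by omega) h1 h3 h2 h4 h5 h6

end FKP
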