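import Pool.Agent.Lib.MP_216314_pr.Cy.CyE

/-!
# Annulus crossings, quasi-multiplicativity, two arms from different points
-/

set_option autoImplicit false

noncomputable section

namespace FKP

open Finset FKI

/-- the edges of the square of radius `b` around `u` outside the square of radius `a` -/
def an (u : V) (a b : ℕ) : Finset Edge := bu u b \ bu u a

/-- crossing of the annulus between the radii `a + 1` and `b` around `u` by edges outside the square of
radius `a` -/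
def AA (u : V) (a b : ℕ) (ω : Finset Edge) : Prop :=
  ∃ v w : V, sd u v = a + 1 ∧ sd u w = b ∧ Conn (an u a b) ω v w

theorem inc_AA (u : V) (a b : ℕ) : Inc (AA u a b) := by
  rintro ω ω' hs ⟨v, w, h1, h2, h3⟩
  exact ⟨v, w, h1, h2, h3.mono (Finset.Subset.refl _) hs⟩

theorem dep_AA {u : V} {a b : ℕ} {E : Finset Edge} (hE : an u a b ⊆ E) : Dep E (AA u a b) := by
  intro ω
  constructor
  · rintro ⟨v, w, h0, h1, h2⟩
    exact ⟨v, w, h0, h1, (dep_Conn hE _ _ ω).1 h2⟩
  · rintro ⟨v, w, h0, h1, h2⟩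
    exact ⟨v, w, h0, h1, (dep_Conn hE _ _ ω).2 h2⟩

theorem AA_of_reach {u p q : V} {a b : ℕ} {ω : Finset Edge} (hab : a < b)
    (hp : sd u p ≤ a) (hq : (b : ℤ) ≤ sd u q) (h : (gr ω).Reachable p q) : AA u a b ω := by
  obtain ⟨w, hw1, hw2⟩ := hit_of_reach h (hp.trans (by omega)) hq
  obtain ⟨v, hv1, hv2, hv3⟩ := last_exit (F := bu u b) (ω := ω) (sd u) (fun e _ => sd_edge u e)
    (t := (a : ℤ) + 1) (a := p) (b := w) (by omega) (by omega) hw2
  refine ⟨v, w, hv1, hw1, Conn.mono ?_ (Finset.Subset.refl _) hv3⟩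
  intro e he
  rw [mem_filter] at he
  unfold an
  rw [mem_sdiff, mem_bu (m := a)]
  refine ⟨he.1, fun h => ?_⟩
  omega

/-- quasi-multiplicativity -/
theorem qm : ∃ C : ℝ, 0 < C ∧ ∀ (u : V) (a b : ℕ) (E : Finset Edge), 1 ≤ a → a < b → bu u b ⊆ E →
    pi1 a * Pr E (AA u a b) ≤ C * pi1 b := by
  obtain ⟨C, hC, hext⟩ := pi1_ext
  obtain ⟨d, hd0, hd⟩ := RG_prob
  refine ⟨C + C / d, by positivity, fun u a b E ha hab hE => ?_⟩
  have hpb := pi1_nonneg b
  have hP := Pr_nonneg E (AA u a b)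
  rcases Nat.lt_or_ge b (2 * a + 2) with h | h
  · have h1 : pi1 a * Pr E (AA u a b) ≤ pi1 a := mul_le_of_le_one_right (pi1_nonneg a) (Pr_le_one _ _)
    have h2 := hext a b (by omega) (by omega)
    have h3 : 0 ≤ C / d * pi1 b := by positivity
    rw [add_mul]
    linarith
  · have hsub : bu u (2 * a + 2) ⊆ E := (bu_sub (by rw [sd_self]; omega)).trans hE
    have p1 : pi1 (2 * a + 2) ≤ Pr E (AR u (2 * a + 2)) := (Pr_AR hsub).ge
    have p2 := hd u (a + 1) (2 * a + 2) E (by omega) (by omega) hsub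
    have f1 := pup_fkg (inc_AR u (2 * a + 2)) (inc_RG u (a + 1) (2 * a + 2)) hd0.le p1 p2
    have f2 := pup_fkg (pup_and (inc_AR u (2 * a + 2)) (inc_RG u (a + 1) (2 * a + 2)))
      (inc_AA u a b) hP f1 le_rfl
    have f3 : pi1 (2 * a + 2) * d * Pr E (AA u a b) ≤ pi1 b := by
      refine f2.trans ?_
      rw [← Pr_AR hE]
      refine Pr_mono fun ω _ hω => ?_
      obtain ⟨⟨⟨v, v1, v2⟩, h2⟩, ⟨p, q, p1, q1, pq⟩⟩ := hω
      obtain ⟨r, r1, -, -⟩ := ring_core (by omega) h2
      have a1 := r1 u v (by rw [sd_self]; omega) (by rw [v1]) v2.reach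
      have a2 := r1 p q (by rw [p1]; push_cast; omega) (by rw [q1]; exact_mod_cast h) pq.reach
      exact AR_of_reach ((a1.trans a2.symm).trans pq.reach) q1.ge
    have f4 := hext a (2 * a + 2) (by omega) (by omega)
    have f5 : pi1 a * Pr E (AA u a b) ≤ C / d * pi1 b := by
      rw [div_mul_eq_mul_div, le_div_iff₀ hd0]
      calc pi1 a * Pr E (AA u a b) * d ≤ (C * pi1 (2 * a + 2)) * Pr E (AA u a b) * d := by
            gcongr
        _ = C * (pi1 (2 * a + 2) * d * Pr E (AA u a b)) := by ring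
        _ ≤ C * pi1 b := by gcongr
    have h3 : 0 ≤ C * pi1 b := by positivity
    rw [add_mul]
    linarith

/-- two arms from different vertices -/
theorem pair_bound : ∃ C : ℝ, 0 < C ∧ ∀ (u v : V) (r D : ℕ) (E : Finset Edge), sd u v = r → 1 ≤ r →
    r ≤ D → Pr E (fun ω => (∃ p, (D : ℤ) ≤ sd u p ∧ (gr ω).Reachable u p) ∧
      ∃ p, (D : ℤ) ≤ sd v p ∧ (gr ω).Reachable v p) ≤ C * (pi1 r * pi1 D) := by
  obtain ⟨C, hC, hext⟩ := pi1_ext
  obtain ⟨C', hC', hqm⟩ := qm
  refine ⟨C * C * (1 + C'), by positivity, fun u v r D E huv hr hrD => ?_⟩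
  obtain ⟨m, hm⟩ : ∃ m, m = (r - 1) / 2 := ⟨_, rfl⟩
  obtain ⟨E', hE'⟩ : ∃ E', E' = E ∪ (bu u (D + r) ∪ bu v (D + r)) := ⟨_, rfl⟩
  have s0 : E ⊆ E' := by
    rw [hE']
    exact Finset.subset_union_left
  have s1 : bu u (D + r) ⊆ E' := by
    rw [hE']
    exact Finset.Subset.trans Finset.subset_union_left Finset.subset_union_right
  have s2 : bu v (D + r) ⊆ E' := by
    rw [hE']
    exact Finset.Subset.trans Finset.subset_union_right Finset.subset_union_right
  have i1 : Inc (fun ω => (∃ p, (D : ℤ) ≤ sd u p ∧ (gr ω).Reachable u p) ∧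
      ∃ p, (D : ℤ) ≤ sd v p ∧ (gr ω).Reachable v p) := by
    rintro ω ω' hs ⟨⟨p, p1, p2⟩, ⟨q, q1, q2⟩⟩
    exact ⟨⟨p, p1, SimpleGraph.Reachable.mono (gr_mono hs) p2⟩,
      ⟨q, q1, SimpleGraph.Reachable.mono (gr_mono hs) q2⟩⟩
  refine (Pr_super s0 i1).trans ?_
  have hu : bu u m ⊆ E' := (bu_sub (by rw [sd_self]; omega)).trans s1
  have hv : bu v m ⊆ E' := (bu_sub (by rw [sd_self]; omega)).trans s2
  have hmm : 2 * (m : ℤ) < sd u v := by rw [huv]; omega
  have e1 : pi1 m ≤ C * pi1 r := hext m r (by omega) (by omega)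
  have hr0 := pi1_nonneg r
  have hD0 := pi1_nonneg D
  have hm0 := pi1_nonneg m
  rcases Nat.lt_or_ge (2 * r) D with h | h
  · -- three independent events
    have hA : an u (2 * r) D ⊆ E' := by
      refine Finset.Subset.trans ?_ s1
      refine Finset.Subset.trans Finset.sdiff_subset (bu_sub (by rw [sd_self]; push_cast; omega))
    have hAE : bu u D ⊆ E' := (bu_sub (by rw [sd_self]; push_cast; omega)).trans s1
    have hd : Disjoint (bu u m ∪ bu v m) (an u (2 * r) D) := by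
      rw [Finset.disjoint_left]
      intro e h1 h2
      unfold an at h2
      rw [mem_sdiff] at h2
      rw [mem_union] at h1
      apply h2.2
      rcases h1 with h1 | h1
      · exact bu_sub (by rw [sd_self]; omega) h1
      · exact bu_sub (by rw [huv]; push_cast; omega) h1
    have d1 : Dep (bu u m ∪ bu v m) (fun ω => AR u m ω ∧ AR v m ω) := by
      intro ω
      have a1 := dep_AR (E := bu u m ∪ bu v m) (u := u) (m := m) Finset.subset_union_left ω
      have a2 := dep_AR (E := bu u m ∪ bu v m) (u := v) (m := m) Finset.subset_union_right ω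
      exact and_congr a1 a2
    have p1 := Pr_indep (E := E') (Finset.union_subset hu hv) hA hd d1
      (dep_AA (Finset.Subset.refl _))
    rw [pi1_two hmm hu hv] at p1
    have p2 : Pr E' (fun ω => (∃ p, (D : ℤ) ≤ sd u p ∧ (gr ω).Reachable u p) ∧
        ∃ p, (D : ℤ) ≤ sd v p ∧ (gr ω).Reachable v p) ≤
        pi1 m ^ 2 * Pr E' (AA u (2 * r) D) := by
      rw [← p1]
      refine Pr_mono fun ω _ hω => ?_
      obtain ⟨⟨p, p1, p2⟩, ⟨q, q1, q2⟩⟩ := hω
      refine ⟨⟨AR_of_reach p2 (by omega), AR_of_reach q2 (by omega)⟩, ?_⟩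
      exact AA_of_reach h (by rw [sd_self]; omega) p1 p2
    have p3 := hqm u (2 * r) D E' (by omega) h hAE
    have e2 : pi1 m ≤ C * pi1 (2 * r) := hext m (2 * r) (by omega) (by omega)
    calc _ ≤ pi1 m ^ 2 * Pr E' (AA u (2 * r) D) := p2
      _ = pi1 m * (pi1 m * Pr E' (AA u (2 * r) D)) := by ring
      _ ≤ (C * pi1 r) * ((C * pi1 (2 * r)) * Pr E' (AA u (2 * r) D)) := by
          have := Pr_nonneg E' (AA u (2 * r) D)
          gcongr
      _ = C * C * pi1 r * (pi1 (2 * r) * Pr E' (AA u (2 * r) D)) := by ring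
      _ ≤ C * C * pi1 r * (C' * pi1 D) := by gcongr
      _ ≤ C * C * (1 + C') * (pi1 r * pi1 D) := by
          have : 0 ≤ C * C * (pi1 r * pi1 D) := by positivity
          linarith
  · have e2 : pi1 m ≤ C * pi1 D := by
      refine (hext m (2 * r) (by omega) (by omega)).trans ?_
      exact mul_le_mul_of_nonneg_left (pi1_anti h) hC.le
    have p2 : Pr E' (fun ω => (∃ p, (D : ℤ) ≤ sd u p ∧ (gr ω).Reachable u p) ∧
        ∃ p, (D : ℤ) ≤ sd v p ∧ (gr ω).Reachable v p) ≤ pi1 m ^ 2 := by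
      rw [← pi1_two hmm hu hv]
      refine Pr_mono fun ω _ hω => ?_
      obtain ⟨⟨p, p1, p2⟩, ⟨q, q1, q2⟩⟩ := hω
      exact ⟨AR_of_reach p2 (by omega), AR_of_reach q2 (by omega)⟩
    calc _ ≤ pi1 m ^ 2 := p2
      _ = pi1 m * pi1 m := by ring
      _ ≤ (C * pi1 r) * (C * pi1 D) := by gcongr
      _ ≤ C * C * (1 + C') * (pi1 r * pi1 D) := by
          have : 0 ≤ C * C * C' * (pi1 r * pi1 D) := by positivity
          linarith

end FKP
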