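import Pool.Agent.Lib.MP_216314_pr.Cy.CyF

/-!
# Sums over squares, expectations
-/

set_option autoImplicit false

noncomputable section

namespace FKP

open Finset FKI

/-- the vertices of the square `[-n,n]²` -/
def vx (n : ℕ) : Finset V := Icc (-(n : ℤ)) n ×ˢ Icc (-(n : ℤ)) n

theorem mem_vx {n : ℕ} {v : V} : v ∈ vx n ↔ sd (0, 0) v ≤ n := by
  unfold vx
  rw [mem_product, mem_Icc, mem_Icc, sd_le]
  simp only [zero_sub, zero_add]

theorem card_vx (n : ℕ) : (vx n).card = (2 * n + 1) ^ 2 := by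
  unfold vx
  rw [card_product, Int.card_Icc, sq]
  congr 1 <;> omega

/-- the number of vertices at distance `r` -/
theorem card_sphere (u : V) (r : ℕ) (hr : 1 ≤ r) (S : Finset V) :
    (S.filter (fun v => sd u v = r)).card ≤ 8 * r := by
  have h1 : S.filter (fun v => sd u v = r) ⊆
      (Icc (u.1 - r) (u.1 + r) ×ˢ Icc (u.2 - r) (u.2 + r)) \
        (Icc (u.1 - (r - 1)) (u.1 + (r - 1)) ×ˢ Icc (u.2 - (r - 1)) (u.2 + (r - 1))) := by
    intro v hv
    rw [mem_filter] at hv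
    have h2 := (sd_le (u := u) (v := v) (m := r)).1 hv.2.le
    have h3 : ¬ sd u v ≤ (r : ℤ) - 1 := by rw [hv.2]; omega
    rw [sd_le] at h3
    rw [mem_sdiff, mem_product, mem_product, mem_Icc, mem_Icc, mem_Icc, mem_Icc]
    exact ⟨h2, h3⟩
  refine (card_le_card h1).trans ?_
  rw [card_sdiff_of_subset, card_product, card_product, Int.card_Icc, Int.card_Icc, Int.card_Icc,
    Int.card_Icc]
  · have e1 : (u.1 + r + 1 - (u.1 - r)).toNat = 2 * r + 1 := by omega
    have e2 : (u.2 + r + 1 - (u.2 - r)).toNat = 2 * r + 1 := by omega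
    have e3 : (u.1 + (r - 1) + 1 - (u.1 - (r - 1))).toNat = 2 * r - 1 := by omega
    have e4 : (u.2 + (r - 1) + 1 - (u.2 - (r - 1))).toNat = 2 * r - 1 := by omega
    rw [e1, e2, e3, e4]
    obtain ⟨s, rfl⟩ : ∃ s, r = s + 1 := ⟨r - 1, by omega⟩
    have e5 : 2 * (s + 1) - 1 = 2 * s + 1 := by omega
    rw [e5]
    have e6 : (2 * (s + 1) + 1) * (2 * (s + 1) + 1) = (2 * s + 1) * (2 * s + 1) + 8 * (s + 1) := by
      ring
    rw [e6]
    omega
  · refine product_subset_product ?_ ?_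
    · exact Icc_subset_Icc (by omega) (by omega)
    · exact Icc_subset_Icc (by omega) (by omega)

/-- sums of powers of the distance -/
theorem sum_dist {n : ℕ} (hn : 1 ≤ n) {u : V} (hu : u ∈ vx n) {a : ℝ} (ha0 : 0 ≤ a) (ha1 : a ≤ 1)
    (f : ℕ → ℝ) (hf0 : ∀ r, 0 ≤ f r) {C : ℝ} (hC : 0 ≤ C) (hf : ∀ r : ℕ, 1 ≤ r → f r ≤ C * (r : ℝ) ^ (-a)) :
    ∑ v ∈ (vx n).erase u, f (sd u v).toNat ≤ 32 * C * (n : ℝ) ^ (2 - a) := by
  have h1 : ∀ v ∈ (vx n).erase u, (sd u v).toNat ∈ Icc 1 (2 * n) := by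
    intro v hv
    rw [mem_erase] at hv
    rw [mem_vx] at hu
    have h2 := mem_vx.1 hv.2
    have h3 := sd_tri u (0, 0) v
    rw [sd_comm u (0, 0)] at h3
    have h4 : 1 ≤ sd u v := by
      have h5 := sd_nonneg u v
      have h6 : sd u v ≠ 0 := by
        intro h7
        have h8 := (sd_le (u := u) (v := v) (m := 0)).1 h7.le
        exact hv.1 (Prod.ext (by omega) (by omega))
      omega
    rw [mem_Icc]
    omega
  rw [← sum_fiberwise_of_maps_to h1]
  have hn0 : (0 : ℝ) < n := by exact_mod_cast hn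
  have h2 : ∀ r ∈ Icc 1 (2 * n), ∑ v ∈ ((vx n).erase u).filter (fun v => (sd u v).toNat = r),
      f (sd u v).toNat ≤ 8 * C * (2 * (n : ℝ)) ^ (1 - a) := by
    intro r hr
    rw [mem_Icc] at hr
    have hr0 : (0 : ℝ) < r := by exact_mod_cast hr.1
    have h3 : ∑ v ∈ ((vx n).erase u).filter (fun v => (sd u v).toNat = r), f (sd u v).toNat =
        (((vx n).erase u).filter (fun v => (sd u v).toNat = r)).card * f r := by
      rw [← nsmul_eq_mul, ← sum_const]
      exact sum_congr rfl fun v hv => by rw [(mem_filter.1 hv).2]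
    have h4 : (((vx n).erase u).filter (fun v => (sd u v).toNat = r)).card ≤ 8 * r := by
      refine le_trans (card_le_card fun v hv => ?_) (card_sphere u r hr.1 (vx n))
      rw [mem_filter] at hv ⊢
      refine ⟨mem_of_mem_erase hv.1, ?_⟩
      have h5 := sd_nonneg u v
      omega
    rw [h3]
    calc ((((vx n).erase u).filter (fun v => (sd u v).toNat = r)).card : ℝ) * f r
        ≤ (8 * r : ℕ) * f r := mul_le_mul_of_nonneg_right (by exact_mod_cast h4) (hf0 r)
      _ ≤ (8 * r : ℕ) * (C * (r : ℝ) ^ (-a)) := mul_le_mul_of_nonneg_left (hf r hr.1) (by positivity)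
      _ = 8 * C * (r : ℝ) ^ (1 - a) := by
          rw [sub_eq_add_neg, Real.rpow_add hr0, Real.rpow_one]
          push_cast
          ring
      _ ≤ 8 * C * (2 * (n : ℝ)) ^ (1 - a) := by
          refine mul_le_mul_of_nonneg_left ?_ (by positivity)
          refine Real.rpow_le_rpow hr0.le ?_ (by linarith)
          exact_mod_cast hr.2
  refine (sum_le_sum h2).trans ?_
  rw [sum_const, Nat.card_Icc, nsmul_eq_mul]
  have e1 : ((2 * n + 1 - 1 : ℕ) : ℝ) = 2 * (n : ℝ) := by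
    rw [Nat.add_sub_cancel]
    push_cast
    ring
  rw [e1]
  have h2n : (0 : ℝ) < 2 * n := by positivity
  have e3 : (n : ℝ) ^ (2 - a) = n * (n : ℝ) ^ (1 - a) := by
    rw [← Real.rpow_one_add' hn0.le (by linarith)]
    congr 1
    ring
  have e4 : (2 : ℝ) ^ (1 - a) ≤ 2 := by
    calc (2 : ℝ) ^ (1 - a) ≤ 2 ^ (1 : ℝ) :=
          Real.rpow_le_rpow_of_exponent_le (by norm_num) (by linarith)
      _ = 2 := Real.rpow_one 2
  rw [Real.mul_rpow (by norm_num) hn0.le, e3]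
  calc 2 * (n : ℝ) * (8 * C * ((2 : ℝ) ^ (1 - a) * (n : ℝ) ^ (1 - a)))
      = (16 * C * n * (n : ℝ) ^ (1 - a)) * (2 : ℝ) ^ (1 - a) := by ring
    _ ≤ (16 * C * n * (n : ℝ) ^ (1 - a)) * 2 := mul_le_mul_of_nonneg_left e4 (by positivity)
    _ = 32 * C * (n * (n : ℝ) ^ (1 - a)) := by ring

/-- expectation under the uniform measure on the subsets of `E` -/
def Ex (E : Finset Edge) (f : Finset Edge → ℝ) : ℝ := (∑ ω ∈ E.powerset, f ω) / 2 ^ E.card

theorem Ex_mono {E : Finset Edge} {f g : Finset Edge → ℝ} (h : ∀ ω, ω ⊆ E → f ω ≤ g ω) :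
    Ex E f ≤ Ex E g := by
  unfold Ex
  refine div_le_div_of_nonneg_right ?_ (by positivity)
  exact sum_le_sum fun ω hω => h ω (mem_powerset.1 hω)

theorem Ex_nonneg {E : Finset Edge} {f : Finset Edge → ℝ} (h : ∀ ω, ω ⊆ E → 0 ≤ f ω) :
    0 ≤ Ex E f := by
  unfold Ex
  exact div_nonneg (sum_nonneg fun ω hω => h ω (mem_powerset.1 hω)) (by positivity)

theorem Ex_smul (E : Finset Edge) (c : ℝ) (f : Finset Edge → ℝ) :
    Ex E (fun ω => c * f ω) = c * Ex E f := by
  unfold Ex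
  rw [← mul_sum, mul_div_assoc]

theorem Ex_sum {ι : Type*} (E : Finset Edge) (S : Finset ι) (f : ι → Finset Edge → ℝ) :
    Ex E (fun ω => ∑ i ∈ S, f i ω) = ∑ i ∈ S, Ex E (f i) := by
  unfold Ex
  rw [sum_comm, sum_div]

open Classical in
theorem Ex_ind (E : Finset Edge) (A : Finset Edge → Prop) :
    Ex E (fun ω => if A ω then 1 else 0) = Pr E A := by
  rw [pproba_eq]
  unfold Ex
  rw [sum_boole]

/-- Markov inequality -/
theorem Ex_markov {E : Finset Edge} {f : Finset Edge → ℝ} (hf : ∀ ω, ω ⊆ E → 0 ≤ f ω) {t : ℝ}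
    (A : Finset Edge → Prop) (hA : ∀ ω, ω ⊆ E → A ω → t ≤ f ω) : t * Pr E A ≤ Ex E f := by
  classical
  rw [← Ex_ind, ← Ex_smul]
  refine Ex_mono fun ω hω => ?_
  by_cases h : A ω
  · rw [if_pos h, mul_one]
    exact hA ω hω h
  · rw [if_neg h, mul_zero]
    exact hf ω hω

/-- Cauchy-Schwarz inequality -/
theorem Ex_cs (E : Finset Edge) (f g : Finset Edge → ℝ) :
    Ex E (fun ω => f ω * g ω) ^ 2 ≤ Ex E (fun ω => f ω ^ 2) * Ex E (fun ω => g ω ^ 2) := by
  unfold Ex
  rw [div_pow, div_mul_div_comm, ← sq]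
  exact div_le_div_of_nonneg_right (sum_mul_sq_le_sq_mul_sq _ _ _) (by positivity)

/-- Paley-Zygmund inequality -/
theorem Ex_pz {E : Finset Edge} {f : Finset Edge → ℝ} (hf : ∀ ω, ω ⊆ E → 0 ≤ f ω) {t : ℝ}
    (ht : 0 ≤ t) (ht2 : 2 * t ≤ Ex E f) :
    t ^ 2 ≤ Ex E (fun ω => f ω ^ 2) * Pr E (fun ω => t ≤ f ω) := by
  classical
  have h1 := Ex_cs E f (fun ω => if t ≤ f ω then 1 else 0)
  have h2 : Ex E (fun ω => (if t ≤ f ω then (1 : ℝ) else 0) ^ 2) = Pr E (fun ω => t ≤ f ω) := by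
    rw [← Ex_ind]
    congr 1
    funext ω
    by_cases h : t ≤ f ω
    · simp [h]
    · simp [h]
  rw [h2] at h1
  have h3 : t ≤ Ex E (fun ω => f ω * (if t ≤ f ω then (1 : ℝ) else 0)) := by
    have h4 : Ex E f ≤ Ex E (fun ω => f ω * (if t ≤ f ω then (1 : ℝ) else 0)) + t := by
      have h5 : Ex E (fun _ => t) = t := by
        unfold Ex
        rw [sum_const, card_powerset, nsmul_eq_mul]
        push_cast
        field_simp
      have h6 : Ex E (fun ω => f ω * (if t ≤ f ω then (1 : ℝ) else 0) + t) =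
          Ex E (fun ω => f ω * (if t ≤ f ω then (1 : ℝ) else 0)) + Ex E (fun _ => t) := by
        unfold Ex
        rw [sum_add_distrib, add_div]
      rw [h5] at h6
      rw [← h6]
      refine Ex_mono fun ω _ => ?_
      by_cases h : t ≤ f ω
      · rw [if_pos h, mul_one]
        linarith
      · rw [if_neg h, mul_zero, zero_add]
        exact (not_le.1 h).le
    linarith
  calc t ^ 2 ≤ Ex E (fun ω => f ω * (if t ≤ f ω then (1 : ℝ) else 0)) ^ 2 :=
        pow_le_pow_left₀ ht h3 2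
    _ ≤ _ := h1

end FKP
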