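import Pool.Agent.Lib.MP_216314_pr.Cy.CyG

/-!
# Two point function and moments of the number of vertices with an arm, given the one arm exponent
-/

set_option autoImplicit false

noncomputable section

namespace FKP

open Finset FKI

/-- the one arm probability has the exponent `5/48`, up to constants -/
def OneArm : Prop := ∃ c C : ℝ, 0 < c ∧ 0 < C ∧ ∀ n : ℕ, 1 ≤ n →
  c * (n : ℝ) ^ (-(5 / 48) : ℝ) ≤ pi1 n ∧ pi1 n ≤ C * (n : ℝ) ^ (-(5 / 48) : ℝ)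

/-- two point function, upper bound in any finite graph, in terms of `pi1` -/
theorem two_le : ∃ C : ℝ, 0 < C ∧ ∀ (u v : V) (r : ℕ) (E : Finset Edge), sd u v = r → 1 ≤ r →
    Pr E (fun ω => (gr ω).Reachable u v) ≤ C * pi1 r ^ 2 := by
  obtain ⟨C, hC, hext⟩ := pi1_ext
  refine ⟨C ^ 2, by positivity, fun u v r E hr h1 => ?_⟩
  refine (tau_upper (m := (r - 1) / 2) (by rw [hr]; omega) E).trans ?_
  rw [← mul_pow]
  exact pow_le_pow_left₀ (pi1_nonneg _) (hext _ _ (by omega) (by omega)) 2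

/-- **The two point function.** -/
theorem two_point (h : OneArm) : ∃ c C : ℝ, 0 < c ∧ 0 < C ∧ ∀ (x : V) (r N : ℕ),
    sd (0, 0) x = r → 1 ≤ r → 2 * r ≤ N →
    c * (r : ℝ) ^ (-(5 / 24) : ℝ) ≤ Pr (bx N) (fun ω => Conn (bx N) ω (0, 0) x) ∧
    Pr (bx N) (fun ω => Conn (bx N) ω (0, 0) x) ≤ C * (r : ℝ) ^ (-(5 / 24) : ℝ) := by
  obtain ⟨c, C, hc, hC, hpi⟩ := h
  obtain ⟨c1, hc1, h1⟩ := tau_lower
  obtain ⟨C1, hC1, h2⟩ := two_le
  refine ⟨c1 * c ^ 2, C1 * C ^ 2, by positivity, by positivity, fun x r N hx hr hN => ?_⟩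
  have hr0 : (0 : ℝ) < r := by exact_mod_cast hr
  obtain ⟨p1, p2⟩ := hpi r hr
  have e1 : ((r : ℝ) ^ (-(5 / 48) : ℝ)) ^ 2 = (r : ℝ) ^ (-(5 / 24) : ℝ) := by
    rw [← Real.rpow_natCast, ← Real.rpow_mul hr0.le]
    norm_num
  constructor
  · refine le_trans ?_ (h1 x r N hx hr hN)
    rw [← e1, mul_assoc, ← mul_pow]
    refine mul_le_mul_of_nonneg_left ?_ hc1.le
    exact pow_le_pow_left₀ (by positivity) p1 2
  · refine (Pr_mono fun ω _ hω => hω.reach).trans ((h2 (0, 0) x r (bx N) hx hr).trans ?_)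
    rw [← e1, mul_assoc, ← mul_pow]
    refine mul_le_mul_of_nonneg_left ?_ hC1.le
    exact pow_le_pow_left₀ (pi1_nonneg _) p2 2

/-- `v` is connected to the boundary of `[-n,n]²` -/
def OUT (n : ℕ) (v : V) (ω : Finset Edge) : Prop := ∃ c, sd (0, 0) c = n ∧ (gr ω).Reachable v c

theorem inc_OUT (n : ℕ) (v : V) : Inc (OUT n v) := by
  rintro ω ω' hs ⟨c, h1, h2⟩
  exact ⟨c, h1, SimpleGraph.Reachable.mono (gr_mono hs) h2⟩

open Classical in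
/-- the number of vertices of the square of radius `n / 4` that are connected to the boundary -/
def ZZ (n : ℕ) (ω : Finset Edge) : ℝ := ∑ v ∈ vx (n / 4), if OUT n v ω then 1 else 0

theorem ZZ_nonneg (n : ℕ) (ω : Finset Edge) : 0 ≤ ZZ n ω := by
  unfold ZZ
  exact sum_nonneg fun v _ => by split_ifs <;> norm_num

theorem ZZ_mono {n : ℕ} {ω ω' : Finset Edge} (h : ω ⊆ ω') : ZZ n ω ≤ ZZ n ω' := by
  unfold ZZ
  refine sum_le_sum fun v _ => ?_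
  by_cases h1 : OUT n v ω
  · rw [if_pos h1, if_pos (inc_OUT n v _ _ h h1)]
  · rw [if_neg h1]
    split_ifs <;> norm_num

theorem OUT_ge {n : ℕ} {v : V} (hv : sd (0, 0) v ≤ n) : pi1 (2 * n) ≤ Pr (bx n) (OUT n v) := by
  obtain ⟨E, hE⟩ : ∃ E, E = bx n ∪ bu v (2 * n) := ⟨_, rfl⟩
  have h1 : bx n ⊆ E := by
    rw [hE]
    exact subset_union_left
  have h2 : bu v (2 * n) ⊆ E := by
    rw [hE]
    exact subset_union_right
  rw [← Pr_AR h2]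
  have h3 : Pr E (fun ω => OUT n v (ω ∩ bx n)) = Pr (bx n) (fun ω => OUT n v (ω ∩ bx n)) := by
    refine Pr_dep h1 ?_
    intro ω
    show OUT n v (ω ∩ bx n) ↔ OUT n v (ω ∩ bx n ∩ bx n)
    rw [inter_assoc, inter_self]
  have h4 : Pr (bx n) (fun ω => OUT n v (ω ∩ bx n)) = Pr (bx n) (OUT n v) := by
    refine Pr_congr fun ω hω => ?_
    rw [inter_eq_left.2 hω]
  rw [← h4, ← h3]
  refine Pr_mono fun ω _ hω => ?_
  obtain ⟨w, hw1, hw2⟩ := hω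
  have h5 : (n : ℤ) ≤ sd (0, 0) w := by
    have h6 := sd_tri v (0, 0) w
    rw [sd_comm v (0, 0), hw1] at h6
    push_cast at h6
    linarith
  obtain ⟨c, hc1, hc2⟩ := hit_of_reach (u := (0, 0)) (k := n) hw2.reach hv h5
  refine ⟨c, hc1, ?_⟩
  rw [bu_zero] at hc2
  exact hc2

/-- lower bound for the first moment -/
theorem ZZ_first (h : OneArm) : ∃ c : ℝ, 0 < c ∧ ∀ n : ℕ, 1 ≤ n →
    c * (n : ℝ) ^ (91 / 48 : ℝ) ≤ ∑ v ∈ vx (n / 4), Pr (bx n) (OUT n v) := by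
  obtain ⟨c, C, hc, hC, hpi⟩ := h
  refine ⟨c / 9 * (1 / 2), by positivity, fun n hn => ?_⟩
  have hn0 : (0 : ℝ) < n := by exact_mod_cast hn
  have h1 : ∑ v ∈ vx (n / 4), Pr (bx n) (OUT n v) ≥ ∑ _v ∈ vx (n / 4), pi1 (2 * n) := by
    refine sum_le_sum fun v hv => OUT_ge ?_
    rw [mem_vx] at hv
    refine hv.trans ?_
    have : n / 4 ≤ n := Nat.div_le_self n 4
    exact_mod_cast this
  refine le_trans ?_ h1
  rw [sum_const, card_vx, nsmul_eq_mul]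
  have h2 := (hpi (2 * n) (by omega)).1
  have h3 : ((n : ℝ) / 3) ^ 2 ≤ (((2 * (n / 4) + 1) ^ 2 : ℕ) : ℝ) := by
    push_cast
    refine pow_le_pow_left₀ (by positivity) ?_ 2
    rw [div_le_iff₀ (by norm_num)]
    have h4 : n ≤ (2 * (n / 4) + 1) * 3 := by omega
    have h5 : ((n : ℕ) : ℝ) ≤ (((2 * (n / 4) + 1) * 3 : ℕ) : ℝ) := by exact_mod_cast h4
    push_cast at h5
    exact h5
  have h6 : (1 / 2 : ℝ) * (n : ℝ) ^ (-(5 / 48) : ℝ) ≤ ((2 * n : ℕ) : ℝ) ^ (-(5 / 48) : ℝ) := by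
    push_cast
    rw [Real.mul_rpow (by norm_num) hn0.le]
    refine mul_le_mul_of_nonneg_right ?_ (by positivity)
    calc (1 / 2 : ℝ) = 2 ^ (-1 : ℝ) := by norm_num [Real.rpow_neg_one]
      _ ≤ 2 ^ (-(5 / 48) : ℝ) := Real.rpow_le_rpow_of_exponent_le (by norm_num) (by norm_num)
  have h7 : (n : ℝ) ^ (91 / 48 : ℝ) = (n : ℝ) ^ 2 * (n : ℝ) ^ (-(5 / 48) : ℝ) := by
    rw [← Real.rpow_natCast, ← Real.rpow_add hn0]
    norm_num
  rw [h7]
  calc c / 9 * (1 / 2) * ((n : ℝ) ^ 2 * (n : ℝ) ^ (-(5 / 48) : ℝ))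
      = ((n : ℝ) / 3) ^ 2 * (c * ((1 / 2) * (n : ℝ) ^ (-(5 / 48) : ℝ))) := by ring
    _ ≤ ((n : ℝ) / 3) ^ 2 * (c * ((2 * n : ℕ) : ℝ) ^ (-(5 / 48) : ℝ)) := by gcongr
    _ ≤ ((n : ℝ) / 3) ^ 2 * pi1 (2 * n) := by gcongr
    _ ≤ _ := mul_le_mul_of_nonneg_right h3 (pi1_nonneg _)

/-- upper bound for the second moment -/
theorem ZZ_second (h : OneArm) : ∃ C : ℝ, 0 < C ∧ ∀ n : ℕ, 1 ≤ n →
    ∑ u ∈ vx (n / 4), ∑ v ∈ vx (n / 4), Pr (bx n) (fun ω => OUT n u ω ∧ OUT n v ω) ≤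
      C * (n : ℝ) ^ (91 / 24 : ℝ) := by
  obtain ⟨c, C, hc, hC, hpi⟩ := h
  obtain ⟨C1, hC1, hext⟩ := pi1_ext
  obtain ⟨C2, hC2, hpair⟩ := pair_bound
  refine ⟨9 * (C1 * C * (1 + C2 * (32 * C))), by positivity, fun n hn => ?_⟩
  have hn0 : (0 : ℝ) < n := by exact_mod_cast hn
  have hn1 : (1 : ℝ) ≤ n := by exact_mod_cast hn
  obtain ⟨i, hi⟩ : ∃ i, i = n / 4 := ⟨_, rfl⟩
  obtain ⟨D, hD⟩ : ∃ D, D = n - i := ⟨_, rfl⟩
  rw [← hi]
  have hDn : pi1 D ≤ C1 * C * (n : ℝ) ^ (-(5 / 48) : ℝ) := by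
    refine (hext D n (by omega) (by omega)).trans ?_
    rw [mul_assoc]
    exact mul_le_mul_of_nonneg_left (hpi n hn).2 hC1.le
  have hout : ∀ v ∈ vx i, ∀ ω, OUT n v ω → ∃ p, (D : ℤ) ≤ sd v p ∧ (gr ω).Reachable v p := by
    rintro v hv ω ⟨p, p1, p2⟩
    refine ⟨p, ?_, p2⟩
    rw [mem_vx] at hv
    have h1 := sd_tri (0, 0) v p
    rw [p1] at h1
    omega
  have hD0 := pi1_nonneg D
  have key : ∀ u ∈ vx i, ∑ v ∈ vx i, Pr (bx n) (fun ω => OUT n u ω ∧ OUT n v ω) ≤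
      pi1 D * (1 + C2 * (32 * C * (n : ℝ) ^ (2 - 5 / 48 : ℝ))) := by
    intro u hu
    have hun : u ∈ vx n := by
      rw [mem_vx] at hu ⊢
      omega
    have e1 : ∑ v ∈ vx i, Pr (bx n) (fun ω => OUT n u ω ∧ OUT n v ω) =
        ∑ v ∈ (vx i).erase u, Pr (bx n) (fun ω => OUT n u ω ∧ OUT n v ω) +
          Pr (bx n) (fun ω => OUT n u ω ∧ OUT n u ω) := (sum_erase_add _ _ hu).symm
    have e2 : Pr (bx n) (fun ω => OUT n u ω ∧ OUT n u ω) ≤ pi1 D := by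
      have h1 : Pr (bx n) (fun ω => OUT n u ω ∧ OUT n u ω) ≤ Pr (bx n) (AR u D) := by
        refine Pr_mono fun ω _ hω => ?_
        obtain ⟨p, p1, p2⟩ := hout u hu ω hω.1
        exact AR_of_reach p2 p1
      refine h1.trans ((Pr_super (E' := bx n ∪ bu u D) subset_union_left (inc_AR u D)).trans ?_)
      exact (Pr_AR subset_union_right).le
    have e3 : ∀ v ∈ (vx i).erase u, Pr (bx n) (fun ω => OUT n u ω ∧ OUT n v ω) ≤
        (C2 * pi1 D) * pi1 (sd u v).toNat := by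
      intro v hv
      rw [mem_erase] at hv
      have s1 := sd_nonneg u v
      have s2 : sd u v = ((sd u v).toNat : ℤ) := (Int.toNat_of_nonneg s1).symm
      have s3 : sd u v ≠ 0 := by
        intro h7
        have h8 := (sd_le (u := u) (v := v) (m := 0)).1 h7.le
        exact hv.1 (Prod.ext (by omega) (by omega))
      have s4 := mem_vx.1 hu
      have s5 := mem_vx.1 hv.2
      have s6 := sd_tri u (0, 0) v
      rw [sd_comm u (0, 0)] at s6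
      have h1 := hpair u v (sd u v).toNat D (bx n) s2 (by omega) (by omega)
      refine (Pr_mono fun ω _ hω => ?_).trans (h1.trans (le_of_eq (by ring)))
      exact ⟨hout u hu ω hω.1, hout v hv.2 ω hω.2⟩
    have e4 : ∑ v ∈ (vx i).erase u, Pr (bx n) (fun ω => OUT n u ω ∧ OUT n v ω) ≤
        (C2 * pi1 D) * ∑ v ∈ (vx n).erase u, pi1 (sd u v).toNat := by
      rw [mul_sum]
      refine (sum_le_sum e3).trans ?_
      refine sum_le_sum_of_subset_of_nonneg ?_ fun v _ _ =>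
        mul_nonneg (by positivity) (pi1_nonneg _)
      refine erase_subset_erase _ fun v hv => ?_
      rw [mem_vx] at hv ⊢
      omega
    have e5 := sum_dist hn hun (a := 5 / 48) (by norm_num) (by norm_num) pi1 pi1_nonneg hC.le
      (fun r hr => (hpi r hr).2)
    rw [e1]
    calc _ ≤ (C2 * pi1 D) * (32 * C * (n : ℝ) ^ (2 - 5 / 48 : ℝ)) + pi1 D := by
          refine add_le_add (e4.trans ?_) e2
          exact mul_le_mul_of_nonneg_left e5 (by positivity)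
      _ = pi1 D * (1 + C2 * (32 * C * (n : ℝ) ^ (2 - 5 / 48 : ℝ))) := by ring
  refine (sum_le_sum key).trans ?_
  rw [sum_const, card_vx, nsmul_eq_mul]
  have h3 : (((2 * i + 1) ^ 2 : ℕ) : ℝ) ≤ 9 * (n : ℝ) ^ 2 := by
    have h4 : (2 * i + 1) ^ 2 ≤ (3 * n) ^ 2 := Nat.pow_le_pow_left (by omega) 2
    calc (((2 * i + 1) ^ 2 : ℕ) : ℝ) ≤ (((3 * n) ^ 2 : ℕ) : ℝ) := by exact_mod_cast h4
      _ = 9 * (n : ℝ) ^ 2 := by
        push_cast
        ring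
  have h5 : (1 : ℝ) ≤ (n : ℝ) ^ (2 - 5 / 48 : ℝ) := Real.one_le_rpow hn1 (by norm_num)
  have h6 : 1 + C2 * (32 * C * (n : ℝ) ^ (2 - 5 / 48 : ℝ)) ≤
      (1 + C2 * (32 * C)) * (n : ℝ) ^ (2 - 5 / 48 : ℝ) := by
    rw [add_mul, one_mul]
    linarith
  have h7 : (n : ℝ) ^ (91 / 24 : ℝ) =
      (n : ℝ) ^ 2 * ((n : ℝ) ^ (-(5 / 48) : ℝ) * (n : ℝ) ^ (2 - 5 / 48 : ℝ)) := by
    rw [← Real.rpow_natCast, ← Real.rpow_add hn0, ← Real.rpow_add hn0]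
    norm_num
  rw [h7]
  calc (((2 * i + 1) ^ 2 : ℕ) : ℝ) * (pi1 D * (1 + C2 * (32 * C * (n : ℝ) ^ (2 - 5 / 48 : ℝ))))
      ≤ (9 * (n : ℝ) ^ 2) * ((C1 * C * (n : ℝ) ^ (-(5 / 48) : ℝ)) *
          ((1 + C2 * (32 * C)) * (n : ℝ) ^ (2 - 5 / 48 : ℝ))) := by
        gcongr
    _ = _ := by ring

end FKP
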