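import Pool.Agent.Lib.MP_216314_pr.Cy.CyH

/-!
# The largest cluster of a square has `n^(91/48)` vertices

PROOF of `largest`. Upper bound. (1) `mx n ω ^ 2 ≤ ∑ u ∈ vx n, csz n u ω`: `vx n` is nonempty, let `u0` be a vertex with `mx n ω = csz n u0 ω`
(`Finset.exists_mem_eq_sup`). If `Conn (bx n) ω u0 u` then `csz n u ω = csz n u0 ω` (same filter, by `Conn.symm`, `Conn.trans`), so
`∑ u ∈ vx n, csz n u ω ≥ ∑ u ∈ filter (Conn (bx n) ω u0), csz n u0 ω = csz n u0 ω ^ 2`. (2) `Ex (bx n) (∑ u ∈ vx n, csz n u) = ∑ u ∈ vx n, ∑ v ∈ vx n,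
Pr (bx n) (Conn (bx n) · u v)` (`csz` as a sum of indicators, `Ex_sum`, `Ex_ind`). (3) for `u ≠ v`, `r = sd u v` (`≥ 1`): `Conn.reach`, `two_le`:
`Pr ≤ C' pi1 r ^ 2 ≤ C' C² r^(-5/24)`; for `u = v` `Pr ≤ 1`. `sum_dist` with `a = 5/24`, `f r = pi1 r ^ 2` : `∑_{v ≠ u} ≤ 32 C² n^(2 - 5/24)`. So
`Ex mx² ≤ (2n+1)² (1 + C'' n^(43/24)) ≤ C''' n^(91/24)` (`2n + 1 ≤ 3n`, `1 ≤ n^(43/24)`). (4) `Ex_cs` with `g = 1`: `(Ex mx)² ≤ Ex mx²` (`Ex (bx n) (fun _ => 1) = 1`), so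
`Ex mx ≤ √C''' n^(91/48)` (`Real.sqrt`, or `abs_le_of_sq_le_sq'`/`pow_le_pow_left` with `(n^(91/48))² = n^(91/24)`).
Lower bound. `j := n / 2`, `RG (0,0) j n` has probability `≥ d` in `bx n` (`RG_prob`, `bu_zero`, for `n ≥ 1`: `j < n`, `2 n ≤ 32 (n - j)`). On `RG (0,0) j n ω`:
`ZZ n ω ≤ mx n ω`: if some `v0 ∈ vx (n/4)` has `OUT n v0 ω` then all such `v` are connected to the vertex `r` of `ring_core` (first property, `a = v`,
`sd (0,0) v ≤ n/4 ≤ j`, `b = c`), so to `v0`, and `Conn.of_reach` (`ω ⊆ bx n`), so `ZZ n ω ≤ csz n v0 ω ≤ mx n ω` (`Finset.le_sup`); otherwise `ZZ n ω = 0`.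
So `Ex mx ≥ Ex (∑ v ∈ vx (n/4), 1[OUT n v ∧ RG]) = ∑ Pr (OUT n v ∧ RG) ≥ d ∑ Pr (OUT n v)` (`Pr_fkg`, `inc_OUT`, `inc_RG`) and `ZZ_first`.
-/

set_option autoImplicit false

noncomputable section

namespace FKP

open Finset FKI

open Classical in
/-- number of vertices of `[-N,N]²` connected to `u` by open paths of this square -/
def csz (N : ℕ) (u : V) (ω : Finset Edge) : ℕ := ((vx N).filter (fun v => Conn (bx N) ω u v)).card

/-- number of vertices of the largest open cluster of `[-N,N]²` -/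
def mx (N : ℕ) (ω : Finset Edge) : ℕ := (vx N).sup (fun u => csz N u ω)

open Classical in
theorem cyI_csz_eq {n : ℕ} {ω : Finset Edge} {u v : V} (h : Conn (bx n) ω u v) :
    csz n v ω = csz n u ω := by
  unfold csz
  congr 1
  refine filter_congr fun w _ => ?_
  exact ⟨fun h1 => h.trans h1, fun h1 => h.symm.trans h1⟩

theorem cyI_vx_nonempty (n : ℕ) : (vx n).Nonempty := by
  rw [← card_pos, card_vx]
  positivity

theorem cyI_exists_max (n : ℕ) (ω : Finset Edge) : ∃ u0 ∈ vx n, mx n ω = csz n u0 ω := by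
  obtain ⟨u0, h1, h2⟩ := exists_mem_eq_sup (vx n) (cyI_vx_nonempty n) (fun u => csz n u ω)
  exact ⟨u0, h1, h2⟩

theorem mx_sq (n : ℕ) (ω : Finset Edge) : mx n ω ^ 2 ≤ ∑ u ∈ vx n, csz n u ω := by
  classical
  obtain ⟨u0, -, h2⟩ := cyI_exists_max n ω
  rw [h2]
  calc csz n u0 ω ^ 2 = ∑ _u ∈ (vx n).filter (fun v => Conn (bx n) ω u0 v), csz n u0 ω := by
        rw [sum_const, smul_eq_mul, sq]
        congr 1
    _ = ∑ u ∈ (vx n).filter (fun v => Conn (bx n) ω u0 v), csz n u ω := by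
        refine sum_congr rfl fun u hu => ?_
        exact (cyI_csz_eq (mem_filter.1 hu).2).symm
    _ ≤ ∑ u ∈ vx n, csz n u ω := sum_le_sum_of_subset (filter_subset _ _)

theorem ZZ_le_mx {n : ℕ} (hn : 1 ≤ n) {ω : Finset Edge} (hω : ω ⊆ bx n) (h : RG (0, 0) (n / 2) n ω) :
    ZZ n ω ≤ mx n ω := by
  classical
  obtain ⟨r, q1, -, -⟩ := ring_core (Nat.div_le_self n 2) h
  have key : ∀ v ∈ vx (n / 4), OUT n v ω → (gr ω).Reachable v r := by
    rintro v hv ⟨c, hc1, hc2⟩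
    rw [mem_vx] at hv
    exact q1 v c (by omega) hc1.ge hc2
  unfold ZZ
  rw [sum_boole]
  by_cases hex : ∃ v0 ∈ vx (n / 4), OUT n v0 ω
  · obtain ⟨v0, hv0, ho⟩ := hex
    have h0 := key v0 hv0 ho
    have hsub : vx (n / 4) ⊆ vx n := by
      intro v hv
      rw [mem_vx] at hv ⊢
      omega
    have h1 : ((vx (n / 4)).filter (fun v => OUT n v ω)).card ≤ csz n v0 ω := by
      unfold csz
      refine card_le_card fun v hv => ?_
      rw [mem_filter] at hv ⊢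
      exact ⟨hsub hv.1, Conn.of_reach hω (h0.trans (key v hv.1 hv.2).symm)⟩
    have h2 : csz n v0 ω ≤ mx n ω := by
      unfold mx
      exact le_sup (f := fun u => csz n u ω) (hsub hv0)
    exact_mod_cast h1.trans h2
  · have h1 : (vx (n / 4)).filter (fun v => OUT n v ω) = ∅ := by
      rw [filter_eq_empty_iff]
      intro v hv ho
      exact hex ⟨v, hv, ho⟩
    rw [h1, card_empty]
    simp

theorem cyI_Ex_const (E : Finset Edge) (t : ℝ) : Ex E (fun _ => t) = t := by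
  unfold Ex
  rw [sum_const, card_powerset, nsmul_eq_mul]
  push_cast
  field_simp

theorem cyI_Ex_csz (n : ℕ) (u : V) :
    Ex (bx n) (fun ω => (csz n u ω : ℝ)) = ∑ v ∈ vx n, Pr (bx n) (fun ω => Conn (bx n) ω u v) := by
  classical
  have h1 : (fun ω : Finset Edge => (csz n u ω : ℝ)) =
      fun ω => ∑ v ∈ vx n, if Conn (bx n) ω u v then (1 : ℝ) else 0 := by
    funext ω
    rw [sum_boole]
    unfold csz
    congr 2
  rw [h1, Ex_sum]
  refine sum_congr rfl fun v _ => ?_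
  rw [← Ex_ind]

/-- upper bound -/
theorem cyI_upper (h : OneArm) : ∃ C : ℝ, 0 < C ∧ ∀ n : ℕ, 1 ≤ n →
    Ex (bx n) (fun ω => (mx n ω : ℝ)) ≤ C * (n : ℝ) ^ (91 / 48 : ℝ) := by
  obtain ⟨c, C, hc, hC, hpi⟩ := h
  obtain ⟨C2, hC2, htwo⟩ := two_le
  obtain ⟨M, hM⟩ : ∃ M : ℝ, M = 9 * (1 + 32 * (C2 * C ^ 2)) := ⟨_, rfl⟩
  have hM0 : 0 < M := by rw [hM]; positivity
  refine ⟨Real.sqrt M, Real.sqrt_pos.2 hM0, fun n hn => ?_⟩
  have hn0 : (0 : ℝ) < n := by exact_mod_cast hn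
  have hn1 : (1 : ℝ) ≤ n := by exact_mod_cast hn
  -- the sum over `v`
  have key : ∀ u ∈ vx n, ∑ v ∈ vx n, Pr (bx n) (fun ω => Conn (bx n) ω u v) ≤
      1 + 32 * (C2 * C ^ 2) * (n : ℝ) ^ (2 - 5 / 24 : ℝ) := by
    intro u hu
    rw [← sum_erase_add _ _ hu]
    have e1 : Pr (bx n) (fun ω => Conn (bx n) ω u u) ≤ 1 := Pr_le_one _ _
    have e2 : ∀ v ∈ (vx n).erase u, Pr (bx n) (fun ω => Conn (bx n) ω u v) ≤
        (fun r : ℕ => C2 * pi1 r ^ 2) (sd u v).toNat := by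
      intro v hv
      rw [mem_erase] at hv
      have s1 := sd_nonneg u v
      have s2 : sd u v = ((sd u v).toNat : ℤ) := (Int.toNat_of_nonneg s1).symm
      have s3 : sd u v ≠ 0 := by
        intro h7
        have h8 := (sd_le (u := u) (v := v) (m := 0)).1 h7.le
        exact hv.1 (Prod.ext (by omega) (by omega))
      exact (Pr_mono fun ω _ hω => hω.reach).trans (htwo u v (sd u v).toNat (bx n) s2 (by omega))
    have e3 := sum_dist hn hu (a := 5 / 24) (by norm_num) (by norm_num)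
      (fun r : ℕ => C2 * pi1 r ^ 2) (fun r => by have := pi1_nonneg r; positivity)
      (C := C2 * C ^ 2) (by positivity) (fun r hr => by
        have hr0 : (0 : ℝ) < r := by exact_mod_cast hr
        have e4 : ((r : ℝ) ^ (-(5 / 48) : ℝ)) ^ 2 = (r : ℝ) ^ (-(5 / 24) : ℝ) := by
          rw [← Real.rpow_natCast, ← Real.rpow_mul hr0.le]
          norm_num
        show C2 * pi1 r ^ 2 ≤ C2 * C ^ 2 * (r : ℝ) ^ (-(5 / 24) : ℝ)
        rw [← e4, mul_assoc, ← mul_pow]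
        refine mul_le_mul_of_nonneg_left ?_ hC2.le
        exact pow_le_pow_left₀ (pi1_nonneg _) (hpi r hr).2 2)
    have e5 := (sum_le_sum e2).trans e3
    linarith
  have h1 : Ex (bx n) (fun ω => (mx n ω : ℝ) ^ 2) ≤ M * (n : ℝ) ^ (91 / 24 : ℝ) := by
    have f1 : Ex (bx n) (fun ω => (mx n ω : ℝ) ^ 2) ≤
        Ex (bx n) (fun ω => ∑ u ∈ vx n, (csz n u ω : ℝ)) := by
      refine Ex_mono fun ω _ => ?_
      have := mx_sq n ω
      exact_mod_cast this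
    have f2 : Ex (bx n) (fun ω => ∑ u ∈ vx n, (csz n u ω : ℝ)) =
        ∑ u ∈ vx n, ∑ v ∈ vx n, Pr (bx n) (fun ω => Conn (bx n) ω u v) := by
      rw [Ex_sum]
      exact sum_congr rfl fun u _ => cyI_Ex_csz n u
    have f3 := sum_le_sum key
    rw [sum_const, card_vx, nsmul_eq_mul] at f3
    have f4 : (((2 * n + 1) ^ 2 : ℕ) : ℝ) ≤ 9 * (n : ℝ) ^ 2 := by
      have h4 : (2 * n + 1) ^ 2 ≤ (3 * n) ^ 2 := Nat.pow_le_pow_left (by omega) 2
      calc (((2 * n + 1) ^ 2 : ℕ) : ℝ) ≤ (((3 * n) ^ 2 : ℕ) : ℝ) := by exact_mod_cast h4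
        _ = 9 * (n : ℝ) ^ 2 := by
          push_cast
          ring
    have f5 : (1 : ℝ) ≤ (n : ℝ) ^ (2 - 5 / 24 : ℝ) := Real.one_le_rpow hn1 (by norm_num)
    have f6 : 1 + 32 * (C2 * C ^ 2) * (n : ℝ) ^ (2 - 5 / 24 : ℝ) ≤
        (1 + 32 * (C2 * C ^ 2)) * (n : ℝ) ^ (2 - 5 / 24 : ℝ) := by
      rw [add_mul, one_mul]
      linarith
    have f7 : (n : ℝ) ^ (91 / 24 : ℝ) = (n : ℝ) ^ 2 * (n : ℝ) ^ (2 - 5 / 24 : ℝ) := by
      rw [← Real.rpow_natCast, ← Real.rpow_add hn0]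
      norm_num
    refine f1.trans (f2.le.trans (f3.trans ?_))
    rw [f7, hM]
    calc (((2 * n + 1) ^ 2 : ℕ) : ℝ) * (1 + 32 * (C2 * C ^ 2) * (n : ℝ) ^ (2 - 5 / 24 : ℝ))
        ≤ (9 * (n : ℝ) ^ 2) * ((1 + 32 * (C2 * C ^ 2)) * (n : ℝ) ^ (2 - 5 / 24 : ℝ)) :=
          mul_le_mul f4 f6 (by positivity) (by positivity)
      _ = _ := by ring
  have h2 := Ex_cs (bx n) (fun ω => (mx n ω : ℝ)) (fun _ => 1)
  simp only [mul_one, one_pow] at h2
  rw [cyI_Ex_const, mul_one] at h2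
  have h3 : (Real.sqrt M * (n : ℝ) ^ (91 / 48 : ℝ)) ^ 2 = M * (n : ℝ) ^ (91 / 24 : ℝ) := by
    rw [mul_pow, Real.sq_sqrt hM0.le]
    congr 1
    rw [← Real.rpow_natCast, ← Real.rpow_mul hn0.le]
    norm_num
  have h4 : Ex (bx n) (fun ω => (mx n ω : ℝ)) ^ 2 ≤
      (Real.sqrt M * (n : ℝ) ^ (91 / 48 : ℝ)) ^ 2 := by
    rw [h3]
    exact h2.trans h1
  exact le_of_sq_le_sq h4 (by positivity)

/-- lower bound -/
theorem cyI_lower (h : OneArm) : ∃ c : ℝ, 0 < c ∧ ∀ n : ℕ, 1 ≤ n →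
    c * (n : ℝ) ^ (91 / 48 : ℝ) ≤ Ex (bx n) (fun ω => (mx n ω : ℝ)) := by
  classical
  obtain ⟨c, hc, hZ⟩ := ZZ_first h
  obtain ⟨d, hd, hRG⟩ := RG_prob
  refine ⟨d * c, by positivity, fun n hn => ?_⟩
  have hr : d ≤ Pr (bx n) (RG (0, 0) (n / 2) n) :=
    hRG (0, 0) (n / 2) n (bx n) (by omega) (by omega) (by rw [bu_zero])
  have h1 : ∀ v ∈ vx (n / 4), Pr (bx n) (OUT n v) * d ≤
      Pr (bx n) (fun ω => OUT n v ω ∧ RG (0, 0) (n / 2) n ω) := by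
    intro v _
    refine le_trans ?_ (Pr_fkg (bx n) (inc_OUT n v) (inc_RG _ _ _))
    exact mul_le_mul_of_nonneg_left hr (Pr_nonneg _ _)
  have h2 : ∑ v ∈ vx (n / 4), Pr (bx n) (fun ω => OUT n v ω ∧ RG (0, 0) (n / 2) n ω) ≤
      Ex (bx n) (fun ω => (mx n ω : ℝ)) := by
    have h3 : ∑ v ∈ vx (n / 4), Pr (bx n) (fun ω => OUT n v ω ∧ RG (0, 0) (n / 2) n ω) =
        Ex (bx n) (fun ω => ∑ v ∈ vx (n / 4),
          if OUT n v ω ∧ RG (0, 0) (n / 2) n ω then (1 : ℝ) else 0) := by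
      rw [Ex_sum]
      refine sum_congr rfl fun v _ => ?_
      rw [← Ex_ind]
      congr 1
      funext ω
      split_ifs <;> rfl
    rw [h3]
    refine Ex_mono fun ω hω => ?_
    by_cases hR : RG (0, 0) (n / 2) n ω
    · refine le_trans (le_of_eq ?_) (ZZ_le_mx hn hω hR)
      unfold ZZ
      refine sum_congr rfl fun v _ => ?_
      by_cases ho : OUT n v ω
      · rw [if_pos ⟨ho, hR⟩, if_pos ho]
      · rw [if_neg (fun h => ho h.1), if_neg ho]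
    · refine le_trans (le_of_eq ?_) (Nat.cast_nonneg _)
      refine sum_eq_zero fun v _ => ?_
      rw [if_neg fun h => hR h.2]
  refine le_trans ?_ h2
  refine le_trans ?_ (sum_le_sum h1)
  rw [← sum_mul]
  have h4 := mul_le_mul_of_nonneg_left (hZ n hn) hd.le
  linarith

/-- **The largest cluster.** -/
theorem largest (h : OneArm) : ∃ c C : ℝ, 0 < c ∧ 0 < C ∧ ∀ n : ℕ, 1 ≤ n →
    c * (n : ℝ) ^ (91 / 48 : ℝ) ≤ Ex (bx n) (fun ω => (mx n ω : ℝ)) ∧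
    Ex (bx n) (fun ω => (mx n ω : ℝ)) ≤ C * (n : ℝ) ^ (91 / 48 : ℝ) := by
  obtain ⟨c, hc, h1⟩ := cyI_lower h
  obtain ⟨C, hC, h2⟩ := cyI_upper h
  exact ⟨c, C, hc, hC, fun n hn => ⟨h1 n hn, h2 n hn⟩⟩

end FKP
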