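import Pool.Agent.Lib.MP_216314_pr.Cy.CyH

/-!
# The tail of the cluster size, upper bound

PROOF. Let `q = 48/91`, `n = ⌈s^q⌉₊` (`1 ≤ n`, `s^q ≤ n ≤ s^q + 1 ≤ 2 s^q` as `1 ≤ s^q`). If `s ≤ cs0 N ω` then either some vertex `v` with `Conn (bx N) ω (0,0) v` has
`sd (0,0) v > n`, so `AR (0,0) n ω` (`AR_of_reach`), or all of them are in `vx n` and `s ≤ f ω := ∑ v ∈ vx n, if (gr ω).Reachable (0,0) v then 1 else 0`.
`Pr_or_le`. First: `Pr (bx N) (AR (0,0) n) ≤ Pr (bx N ∪ bu (0,0) n) (AR (0,0) n) = pi1 n` (`Pr_super`, `Pr_AR`) `≤ C n^(-5/48) ≤ C (s^q)^(-5/48) = C s^(-5/91)`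
(`Real.rpow_le_rpow_of_nonpos` / `Real.rpow_le_rpow_of_exponent_nonpos`, `Real.rpow_mul`). Second: `Ex_markov`: `s Pr (s ≤ f) ≤ Ex f = ∑ v ∈ vx n, Pr (bx N) (Reachable (0,0) v)` (`Ex_sum`, `Ex_ind`)
`≤ 1 + ∑ v ≠ 0, C' pi1 r²` (`two_le`, `Pr_le_one` for `v = (0,0)`) `≤ 1 + C' 32 C² n^(2 - 5/24)` (`sum_dist`, `a = 5/24`, `f r = pi1 r ^ 2`) `≤ C'' n^(43/24) ≤ C'' (2 s^q)^(43/24) =
C'' 2^(43/24) s^(86/91)`, and `s^(86/91) / s = s^(-5/91)`.
-/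

set_option autoImplicit false

noncomputable section

namespace FKP

open Finset FKI

open Classical in
/-- number of vertices of `[-N,N]²` connected to the origin by open paths of this square -/
def cs0 (N : ℕ) (ω : Finset Edge) : ℕ := ((vx N).filter (fun v => Conn (bx N) ω (0, 0) v)).card

open Classical in
theorem CyJ_split {N n s : ℕ} {ω : Finset Edge} (hs : s ≤ cs0 N ω) (hA : ¬ AR (0, 0) n ω) :
    (s : ℝ) ≤ ∑ v ∈ vx n, (if (gr ω).Reachable (0, 0) v then (1 : ℝ) else 0) := by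
  classical
  rw [sum_boole]
  have h1 : (vx N).filter (fun v => Conn (bx N) ω (0, 0) v) ⊆
      (vx n).filter (fun v => (gr ω).Reachable (0, 0) v) := by
    intro v hv
    rw [mem_filter] at hv ⊢
    have h2 := hv.2.reach
    refine ⟨?_, h2⟩
    rw [mem_vx]
    by_contra h3
    exact hA (AR_of_reach h2 (by omega))
  have h2 := card_le_card h1
  have h3 : s ≤ ((vx n).filter (fun v => (gr ω).Reachable (0, 0) v)).card := by
    refine hs.trans ?_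
    unfold cs0
    refine le_trans (le_of_eq ?_) h2
    congr 1
  exact_mod_cast h3

theorem CyJ_sum {c C : ℝ} (hC : 0 < C) (hpi : ∀ n : ℕ, 1 ≤ n →
      c * (n : ℝ) ^ (-(5 / 48) : ℝ) ≤ pi1 n ∧ pi1 n ≤ C * (n : ℝ) ^ (-(5 / 48) : ℝ))
    {C1 : ℝ} (hC1 : 0 < C1) (htwo : ∀ (u v : V) (r : ℕ) (E : Finset Edge), sd u v = r → 1 ≤ r →
      Pr E (fun ω => (gr ω).Reachable u v) ≤ C1 * pi1 r ^ 2) (E : Finset Edge) {n : ℕ} (hn : 1 ≤ n) :
    ∑ v ∈ vx n, Pr E (fun ω => (gr ω).Reachable (0, 0) v) ≤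
      (1 + 32 * (C1 * C ^ 2)) * (n : ℝ) ^ (43 / 24 : ℝ) := by
  have h0 : ((0, 0) : V) ∈ vx n := by
    rw [mem_vx, sd_self]
    omega
  have hn1 : (1 : ℝ) ≤ n := by exact_mod_cast hn
  rw [← add_sum_erase _ _ h0]
  have h1 : Pr E (fun ω => (gr ω).Reachable (0, 0) (0, 0)) ≤ 1 * (n : ℝ) ^ (43 / 24 : ℝ) := by
    rw [one_mul]
    exact (Pr_le_one _ _).trans (Real.one_le_rpow hn1 (by norm_num))
  have h2 : ∑ v ∈ (vx n).erase (0, 0), Pr E (fun ω => (gr ω).Reachable (0, 0) v) ≤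
      ∑ v ∈ (vx n).erase (0, 0), C1 * pi1 (sd (0, 0) v).toNat ^ 2 := by
    refine sum_le_sum fun v hv => ?_
    rw [mem_erase] at hv
    have h3 := sd_nonneg (0, 0) v
    refine htwo (0, 0) v _ E (by omega) ?_
    by_contra h4
    apply hv.1
    have h5 : sd (0, 0) v ≤ 0 := by omega
    rw [sd_le] at h5
    simp only at h5
    ext
    · simp only
      omega
    · simp only
      omega
  have h3 := sum_dist hn h0 (a := 5 / 24) (by norm_num) (by norm_num)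
    (fun r => C1 * pi1 r ^ 2) (fun r => by have := pi1_nonneg r; positivity)
    (C := C1 * C ^ 2) (by positivity) (fun r hr => by
      have hr0 : (0 : ℝ) < r := by exact_mod_cast hr
      have h4 := (hpi r hr).2
      have h5 : pi1 r ^ 2 ≤ (C * (r : ℝ) ^ (-(5 / 48) : ℝ)) ^ 2 :=
        pow_le_pow_left₀ (pi1_nonneg r) h4 2
      have h6 : (C * (r : ℝ) ^ (-(5 / 48) : ℝ)) ^ 2 = C ^ 2 * (r : ℝ) ^ (-(5 / 24) : ℝ) := by
        rw [mul_pow, ← Real.rpow_natCast ((r : ℝ) ^ (-(5 / 48) : ℝ)), ← Real.rpow_mul hr0.le]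
        norm_num
      rw [h6] at h5
      have h7 := mul_le_mul_of_nonneg_left h5 hC1.le
      rw [← mul_assoc] at h7
      exact h7)
  have h4 : (n : ℝ) ^ (2 - 5 / 24 : ℝ) = (n : ℝ) ^ (43 / 24 : ℝ) := by norm_num
  rw [h4] at h3
  rw [add_mul]
  exact add_le_add h1 (h2.trans h3)

/-- the tail of the cluster size, upper bound -/
theorem tail_upper (h : OneArm) : ∃ C : ℝ, 0 < C ∧ ∀ s N : ℕ, 1 ≤ s →
    Pr (bx N) (fun ω => s ≤ cs0 N ω) ≤ C * (s : ℝ) ^ (-(5 / 91) : ℝ) := by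
  classical
  obtain ⟨c, C, hc, hC, hpi⟩ := h
  obtain ⟨C1, hC1, htwo⟩ := two_le
  refine ⟨C + (1 + 32 * (C1 * C ^ 2)) * 4, by positivity, fun s N hs => ?_⟩
  have hs1 : (1 : ℝ) ≤ s := by exact_mod_cast hs
  have hs0 : (0 : ℝ) < s := by linarith
  obtain ⟨x, hx⟩ : ∃ x : ℝ, x = (s : ℝ) ^ (48 / 91 : ℝ) := ⟨_, rfl⟩
  have hx1 : 1 ≤ x := by
    rw [hx]
    exact Real.one_le_rpow hs1 (by norm_num)
  have hx0 : 0 < x := by linarith
  obtain ⟨n, hn⟩ : ∃ n : ℕ, n = ⌈x⌉₊ := ⟨_, rfl⟩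
  have hxn : x ≤ n := by
    rw [hn]
    exact Nat.le_ceil x
  have hnx : (n : ℝ) ≤ 2 * x := by
    rw [hn]
    have := Nat.ceil_lt_add_one hx0.le
    linarith
  have hn1 : 1 ≤ n := by
    have : (1 : ℝ) ≤ n := hx1.trans hxn
    exact_mod_cast this
  have k1 : x ^ (-(5 / 48) : ℝ) = (s : ℝ) ^ (-(5 / 91) : ℝ) := by
    rw [hx, ← Real.rpow_mul hs0.le]
    norm_num
  have k2 : x ^ (43 / 24 : ℝ) = s * (s : ℝ) ^ (-(5 / 91) : ℝ) := by
    rw [hx, ← Real.rpow_mul hs0.le]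
    have : (s : ℝ) * (s : ℝ) ^ (-(5 / 91) : ℝ) = (s : ℝ) ^ (1 : ℝ) * (s : ℝ) ^ (-(5 / 91) : ℝ) := by
      rw [Real.rpow_one]
    rw [this, ← Real.rpow_add hs0]
    norm_num
  have h1 : Pr (bx N) (fun ω => s ≤ cs0 N ω) ≤ Pr (bx N) (fun ω => AR (0, 0) n ω ∨
      (s : ℝ) ≤ ∑ v ∈ vx n, (if (gr ω).Reachable (0, 0) v then (1 : ℝ) else 0)) := by
    refine Pr_mono fun ω _ hω => ?_
    by_cases hA : AR (0, 0) n ω
    · exact Or.inl hA
    · refine Or.inr ?_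
      have := CyJ_split hω hA
      refine this.trans (le_of_eq ?_)
      refine sum_congr rfl fun v _ => ?_
      split_ifs <;> rfl
  have h2 : Pr (bx N) (AR (0, 0) n) ≤ C * (s : ℝ) ^ (-(5 / 91) : ℝ) := by
    refine (Pr_super (E' := bx N ∪ bu (0, 0) n) subset_union_left (inc_AR _ _)).trans ?_
    rw [Pr_AR subset_union_right]
    refine (hpi n hn1).2.trans ?_
    rw [← k1]
    refine mul_le_mul_of_nonneg_left ?_ hC.le
    exact Real.rpow_le_rpow_of_nonpos hx0 hxn (by norm_num)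
  have h3 : (s : ℝ) * Pr (bx N) (fun ω => (s : ℝ) ≤ ∑ v ∈ vx n,
      (if (gr ω).Reachable (0, 0) v then (1 : ℝ) else 0)) ≤
      (1 + 32 * (C1 * C ^ 2)) * (n : ℝ) ^ (43 / 24 : ℝ) := by
    refine (Ex_markov (E := bx N) (f := fun ω => ∑ v ∈ vx n,
      (if (gr ω).Reachable (0, 0) v then (1 : ℝ) else 0)) (fun ω _ => sum_nonneg fun v _ => by
        split_ifs <;> norm_num) _ (fun ω _ hω => hω)).trans ?_
    rw [Ex_sum]
    refine le_trans (le_of_eq ?_) (CyJ_sum hC hpi hC1 htwo (bx N) hn1)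
    refine sum_congr rfl fun v _ => ?_
    rw [← Ex_ind]
  have h4 : (n : ℝ) ^ (43 / 24 : ℝ) ≤ 4 * (s * (s : ℝ) ^ (-(5 / 91) : ℝ)) := by
    rw [← k2]
    calc (n : ℝ) ^ (43 / 24 : ℝ) ≤ (2 * x) ^ (43 / 24 : ℝ) :=
          Real.rpow_le_rpow (by positivity) hnx (by norm_num)
      _ = 2 ^ (43 / 24 : ℝ) * x ^ (43 / 24 : ℝ) := Real.mul_rpow (by norm_num) hx0.le
      _ ≤ 4 * x ^ (43 / 24 : ℝ) := by
          refine mul_le_mul_of_nonneg_right ?_ (by positivity)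
          calc (2 : ℝ) ^ (43 / 24 : ℝ) ≤ 2 ^ (2 : ℝ) :=
                Real.rpow_le_rpow_of_exponent_le (by norm_num) (by norm_num)
            _ = 4 := by norm_num
  have h5 : Pr (bx N) (fun ω => (s : ℝ) ≤ ∑ v ∈ vx n,
      (if (gr ω).Reachable (0, 0) v then (1 : ℝ) else 0)) ≤
      (1 + 32 * (C1 * C ^ 2)) * 4 * (s : ℝ) ^ (-(5 / 91) : ℝ) := by
    refine le_of_mul_le_mul_left ?_ hs0
    calc _ ≤ (1 + 32 * (C1 * C ^ 2)) * (n : ℝ) ^ (43 / 24 : ℝ) := h3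
      _ ≤ (1 + 32 * (C1 * C ^ 2)) * (4 * (s * (s : ℝ) ^ (-(5 / 91) : ℝ))) :=
          mul_le_mul_of_nonneg_left h4 (by positivity)
      _ = _ := by ring
  refine h1.trans ((Pr_or_le _ _ _).trans ?_)
  rw [add_mul]
  exact add_le_add h2 h5

end FKP
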