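import Pool.Agent.Lib.MP_216314_pr.Cy.CyJ

/-!
# The tail of the cluster size, lower bound

PROOF. (1) `tail_scale`. `E = bx n`. `Ex_pz` with `f = ZZ n` and `t = c1 n^(91/48)`, `2 c1 ≤` the constant of `ZZ_first` (also `c1 ≤ 1`) (`Ex (bx n) (ZZ n) = ∑ Pr (OUT n v)` by `Ex_sum`, `Ex_ind`);
`Ex (bx n) (ZZ n ^ 2) = ∑ ∑ Pr (OUT n u ∧ OUT n v) ≤ C n^(91/24)` (`ZZ_second`; square of a sum of indicators: `Finset.sum_mul_sum`, product of two indicators = indicator of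
the conjunction). So `c1² n^(91/24) ≤ C n^(91/24) Pr (t ≤ ZZ n)`, `Pr (bx n) (t ≤ ZZ n) ≥ c1² / C`. `{t ≤ ZZ n}` is increasing (`ZZ_mono`), `AR (0,0) n` has probability `pi1 n ≥ c n^(-5/48)` in
`bx n` (`Pr_AR`, `bu_zero`), `RG (0,0) (n/2) n` has probability `≥ d` (`RG_prob`). `pup_fkg` twice: the conjunction `B` has probability `≥ c2 n^(-5/48)` in `bx n`,
so in `bx N`, `N ≥ n` (`Pr_super`, `pup_and`, `bx_mono`). On `B`, `ω ⊆ bx N`: `ring_core` gives `r`; `(0,0)` is connected to `r` (first property with the arm), all `v ∈ vx (n/4)` with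
`OUT n v ω` are connected to `r` (`sd (0,0) v ≤ n/4 ≤ n/2`), so to `(0,0)`, so `Conn (bx N) ω (0,0) v` (`Conn.of_reach`), `v ∈ vx N`; `ZZ n ω ≤ cs0 N ω`.
(2) `tail_small`. `HC 0 (s-1) 0 0` in `bx N` has probability `h (s-1) 0 ≥ (1/2)^(s-1)` (`Pr_HC`, `h_line`, `N ≥ s`). On it every `(i,0)`, `0 ≤ i ≤ s-1`, is connected to `(0,0)`: the
crossing is `Conn (box 0 (s-1) 0 0) ω (0,0) (s-1,0)`; `first_hit` with `f v = v.1`, `t = i` gives `c` with `c.1 = i`, connected to the end, and in the box (`conn_mem_box`), so `c = (i,0)`.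
So `cs0 N ω ≥ s` (`Finset.card_le_card_of_injOn` or the image of `range s`).
(3) `tail_lower`. `q = 48/91`, `n = ⌈(s/c1)^q⌉₊`, `(s/c1)^q ≥ 1`, `(s/c1)^q ≤ n ≤ 2 (s/c1)^q`, so `c1 n^(91/48) ≥ s` and `c2 n^(-5/48) ≥ c2 (2 (s/c1)^q)^(-5/48) = c3 s^(-5/91)`.
`n ≤ N` if `2 (s/c1)^q ≤ s` i.e. `s^(43/91) ≥ 2 c1^(-q)`, true for `s ≥ s0`. For `s < s0` use (2): `(1/2)^s ≥ (1/2)^s0 ≥ (1/2)^s0 s^(-5/91)`.
-/

set_option autoImplicit false

noncomputable section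

namespace FKP

open Finset FKI

theorem CyK_ind (E : Finset Edge) (A : Finset Edge → Prop) [∀ ω, Decidable (A ω)] :
    Ex E (fun ω => if A ω then (1 : ℝ) else 0) = Pr E A := by
  rw [← Ex_ind]
  congr 1
  funext ω
  by_cases h : A ω
  · rw [if_pos h, if_pos h]
  · rw [if_neg h, if_neg h]

open Classical in
theorem CyK_first (n : ℕ) : Ex (bx n) (fun ω => ZZ n ω) = ∑ v ∈ vx (n / 4), Pr (bx n) (OUT n v) := by
  unfold ZZ
  rw [Ex_sum (bx n) (vx (n / 4)) (fun v ω => if OUT n v ω then (1 : ℝ) else 0)]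
  exact sum_congr rfl fun v _ => Ex_ind (bx n) (OUT n v)

open Classical in
theorem CyK_second (n : ℕ) : Ex (bx n) (fun ω => ZZ n ω ^ 2) =
    ∑ u ∈ vx (n / 4), ∑ v ∈ vx (n / 4), Pr (bx n) (fun ω => OUT n u ω ∧ OUT n v ω) := by
  have h1 : ∀ ω, ZZ n ω ^ 2 = ∑ u ∈ vx (n / 4), ∑ v ∈ vx (n / 4),
      (if OUT n u ω ∧ OUT n v ω then (1 : ℝ) else 0) := by
    intro ω
    unfold ZZ
    rw [sq, sum_mul_sum]
    refine sum_congr rfl fun u _ => sum_congr rfl fun v _ => ?_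
    by_cases a : OUT n u ω
    · by_cases b : OUT n v ω
      · rw [if_pos a, if_pos b, if_pos ⟨a, b⟩, one_mul]
      · rw [if_pos a, if_neg b, if_neg (fun h => b h.2), mul_zero]
    · rw [if_neg a, if_neg (fun h : OUT n u ω ∧ OUT n v ω => a h.1), zero_mul]
  have h2 : (fun ω => ZZ n ω ^ 2) = fun ω => ∑ u ∈ vx (n / 4), ∑ v ∈ vx (n / 4),
      (if OUT n u ω ∧ OUT n v ω then (1 : ℝ) else 0) := funext h1
  rw [h2, Ex_sum (bx n) (vx (n / 4)) (fun u ω => ∑ v ∈ vx (n / 4),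
      (if OUT n u ω ∧ OUT n v ω then (1 : ℝ) else 0))]
  refine sum_congr rfl fun u _ => ?_
  rw [Ex_sum (bx n) (vx (n / 4)) (fun v ω => if OUT n u ω ∧ OUT n v ω then (1 : ℝ) else 0)]
  exact sum_congr rfl fun v _ => CyK_ind (bx n) (fun ω => OUT n u ω ∧ OUT n v ω)

/-- on the event, the number of vertices with an arm is at most the size of the cluster of the origin -/
theorem CyK_det {n N : ℕ} (hnN : n ≤ N) {ω : Finset Edge} (hω : ω ⊆ bx N)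
    (hA : AR (0, 0) n ω) (hR : RG (0, 0) (n / 2) n ω) : ZZ n ω ≤ (cs0 N ω : ℝ) := by
  classical
  obtain ⟨r, hr, -, -⟩ := ring_core (Nat.div_le_self n 2) hR
  obtain ⟨w, hw1, hw2⟩ := hA
  have h0 : (gr ω).Reachable (0, 0) r := by
    refine hr (0, 0) w ?_ hw1.ge hw2.reach
    rw [sd_self]
    omega
  have h1 : ZZ n ω = (((vx (n / 4)).filter (fun v => OUT n v ω)).card : ℝ) := by
    unfold ZZ
    rw [sum_boole]
  rw [h1]
  have h3 : ((vx (n / 4)).filter (fun v => OUT n v ω)).card ≤ cs0 N ω := by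
    unfold cs0
    refine card_le_card fun v hv => ?_
    rw [mem_filter] at hv ⊢
    obtain ⟨hv1, c, hc1, hc2⟩ := hv
    rw [mem_vx] at hv1
    have h4 : ((n / 4 : ℕ) : ℤ) ≤ ((n / 2 : ℕ) : ℤ) := by omega
    have h5 : (gr ω).Reachable v r := hr v c (hv1.trans h4) hc1.ge hc2
    refine ⟨?_, ?_⟩
    · rw [mem_vx]
      refine hv1.trans ?_
      omega
    · exact Conn.of_reach hω (h0.trans h5.symm)
  exact_mod_cast h3

theorem tail_scale (h : OneArm) : ∃ c1 c2 : ℝ, 0 < c1 ∧ c1 ≤ 1 ∧ 0 < c2 ∧ ∀ n N : ℕ, 1 ≤ n → n ≤ N →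
    c2 * (n : ℝ) ^ (-(5 / 48) : ℝ) ≤ Pr (bx N) (fun ω => c1 * (n : ℝ) ^ (91 / 48 : ℝ) ≤ (cs0 N ω : ℝ)) := by
  obtain ⟨m1, hm1, hfirst⟩ := ZZ_first h
  obtain ⟨M, hM, hsec⟩ := ZZ_second h
  obtain ⟨c, C, hc, hC, hpi⟩ := h
  obtain ⟨d, hd, hRG⟩ := RG_prob
  obtain ⟨c1, hc1⟩ : ∃ c1, c1 = min 1 (m1 / 2) := ⟨_, rfl⟩
  have hc10 : 0 < c1 := by
    rw [hc1]
    exact lt_min one_pos (by linarith)
  have hc11 : c1 ≤ 1 := by
    rw [hc1]
    exact min_le_left _ _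
  have hc12 : 2 * c1 ≤ m1 := by
    have := min_le_right 1 (m1 / 2)
    rw [← hc1] at this
    linarith
  refine ⟨c1, c1 ^ 2 / M * c * d, hc10, hc11, by positivity, fun n N hn hnN => ?_⟩
  have hn0 : (0 : ℝ) < n := by exact_mod_cast hn
  obtain ⟨X, hX⟩ : ∃ X : ℝ, X = (n : ℝ) ^ (91 / 24 : ℝ) := ⟨_, rfl⟩
  have hX0 : 0 < X := by
    rw [hX]
    positivity
  have hX2 : (c1 * (n : ℝ) ^ (91 / 48 : ℝ)) ^ 2 = c1 ^ 2 * X := by
    rw [mul_pow, hX, ← Real.rpow_natCast ((n : ℝ) ^ (91 / 48 : ℝ)) 2, ← Real.rpow_mul hn0.le]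
    norm_num
  have p0 : c1 ^ 2 / M ≤ Pr (bx n) (fun ω => c1 * (n : ℝ) ^ (91 / 48 : ℝ) ≤ ZZ n ω) := by
    have k1 := Ex_pz (E := bx n) (f := fun ω => ZZ n ω) (fun ω _ => ZZ_nonneg n ω)
      (t := c1 * (n : ℝ) ^ (91 / 48 : ℝ)) (by positivity) (by
        rw [CyK_first]
        refine le_trans ?_ (hfirst n hn)
        rw [← mul_assoc]
        exact mul_le_mul_of_nonneg_right hc12 (by positivity))
    rw [hX2, CyK_second] at k1
    have k2 := hsec n hn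
    rw [← hX] at k2
    have k3 := Pr_nonneg (bx n) (fun ω => c1 * (n : ℝ) ^ (91 / 48 : ℝ) ≤ ZZ n ω)
    have k4 := k1.trans (mul_le_mul_of_nonneg_right k2 k3)
    rw [div_le_iff₀ hM]
    refine le_of_mul_le_mul_right ?_ hX0
    calc c1 ^ 2 * X ≤ _ := k4
      _ = _ := by ring
  have p1 : c * (n : ℝ) ^ (-(5 / 48) : ℝ) ≤ Pr (bx n) (AR (0, 0) n) := by
    rw [Pr_AR (u := (0, 0)) (m := n) (E := bx n) (by rw [bu_zero])]
    exact (hpi n hn).1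
  have p2 : d ≤ Pr (bx n) (RG (0, 0) (n / 2) n) :=
    hRG (0, 0) (n / 2) n (bx n) (by omega) (by omega) (by rw [bu_zero])
  have i0 : Inc (fun ω => c1 * (n : ℝ) ^ (91 / 48 : ℝ) ≤ ZZ n ω) :=
    fun ω ω' hs hω => le_trans hω (ZZ_mono hs)
  have i1 : Inc (AR (0, 0) n) := inc_AR _ _
  have i2 : Inc (RG (0, 0) (n / 2) n) := inc_RG _ _ _
  have f1 := pup_fkg i0 i1 (by positivity) p0 p1
  have f2 := pup_fkg (pup_and i0 i1) i2 hd.le f1 p2
  have f3 := f2.trans (Pr_super (bx_mono hnN) (pup_and (pup_and i0 i1) i2))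
  refine le_trans (le_of_eq ?_) (f3.trans ?_)
  · ring
  · refine Pr_mono fun ω hω hB => ?_
    obtain ⟨⟨b0, b1⟩, b2⟩ := hB
    exact b0.trans (CyK_det hnN hω b1 b2)

theorem tail_small {s N : ℕ} (hs : 1 ≤ s) (hN : s ≤ N) :
    (1 / 2 : ℝ) ^ s ≤ Pr (bx N) (fun ω => s ≤ cs0 N ω) := by
  classical
  obtain ⟨m, rfl⟩ : ∃ m, s = m + 1 := ⟨s - 1, by omega⟩
  have hsub : box 0 (m : ℤ) 0 ((0 : ℕ) : ℤ) ⊆ bx N := by
    unfold bx
    exact box_mono (by omega) (by omega) (by omega) (by omega)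
  have h1 : (1 / 2 : ℝ) ^ (m + 1) ≤ (1 / 2 : ℝ) ^ m :=
    pow_le_pow_of_le_one (by norm_num) (by norm_num) (by omega)
  refine h1.trans ((h_line m 0).trans ?_)
  rw [← Pr_HC (x1 := 0) (x2 := m) (y1 := 0) (y2 := ((0 : ℕ) : ℤ)) m 0 (by ring) (by ring) hsub]
  refine Pr_mono fun ω _ hω => ?_
  obtain ⟨y, y', k1, k2, k3, k4, k5⟩ := hω
  have e1 : y = 0 := by omega
  have e2 : y' = 0 := by omega
  subst e1
  subst e2
  have hinj : Function.Injective (fun i : ℕ => (((i : ℤ), 0) : V)) := by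
    intro i j hij
    have := congrArg Prod.fst hij
    simp only at this
    exact_mod_cast this
  have hcard : ((range (m + 1)).image (fun i : ℕ => (((i : ℤ), 0) : V))).card = m + 1 := by
    rw [card_image_of_injective _ hinj, card_range]
  show m + 1 ≤ cs0 N ω
  rw [← hcard]
  unfold cs0
  refine card_le_card fun v hv => ?_
  obtain ⟨i, hi, rfl⟩ := mem_image.1 hv
  rw [mem_range] at hi
  rw [mem_filter]
  refine ⟨?_, ?_⟩
  · rw [mem_vx, sd_le]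
    simp only
    omega
  · obtain ⟨c, q1, q2, q3⟩ := first_hit (F := box 0 (m : ℤ) 0 ((0 : ℕ) : ℤ)) (ω := ω)
      (fun v => v.1) (fun e _ => by
        obtain ⟨x, y, t⟩ := e
        cases t <;> simp [ea, eb]) (a := (0, 0)) (b := ((m : ℤ), 0)) (t := (i : ℤ))
        (by simp) (by simp; omega) k5
    have q4 : Conn (box 0 (m : ℤ) 0 ((0 : ℕ) : ℤ)) ω (0, 0) c := k5.trans q2.symm
    have q5 := conn_mem_box q4 ⟨by simp, by simp, by simp, by simp⟩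
    have q6 : c = (((i : ℤ), 0) : V) := Prod.ext q1 (by
      simp only
      omega)
    rw [← q6]
    exact Conn.mono hsub (Finset.Subset.refl _) q4

/-- the tail of the cluster size, lower bound -/
theorem tail_lower (h : OneArm) : ∃ c : ℝ, 0 < c ∧ ∀ s N : ℕ, 1 ≤ s → s ≤ N →
    c * (s : ℝ) ^ (-(5 / 91) : ℝ) ≤ Pr (bx N) (fun ω => s ≤ cs0 N ω) := by
  obtain ⟨c1, c2, hc1, hc11, hc2, hsc⟩ := tail_scale h
  obtain ⟨K, hK⟩ : ∃ K : ℝ, K = 2 * (1 / c1) ^ (48 / 91 : ℝ) := ⟨_, rfl⟩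
  have hK0 : 0 < K := by
    rw [hK]
    positivity
  obtain ⟨s0, hs0⟩ : ∃ s0 : ℕ, K ^ (91 / 43 : ℝ) ≤ s0 := ⟨⌈K ^ (91 / 43 : ℝ)⌉₊, Nat.le_ceil _⟩
  obtain ⟨c3, hc3⟩ : ∃ c3 : ℝ, c3 = c2 * (2 ^ (-(5 / 48) : ℝ) * (1 / c1) ^ (-(5 / 91) : ℝ)) := ⟨_, rfl⟩
  have hc30 : 0 < c3 := by
    rw [hc3]
    positivity
  refine ⟨min c3 ((1 / 2) ^ s0), lt_min hc30 (by positivity), fun s N hs hN => ?_⟩
  have hsr : (0 : ℝ) < s := by exact_mod_cast hs
  have hs1 : (1 : ℝ) ≤ s := by exact_mod_cast hs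
  have hsp : (0 : ℝ) ≤ (s : ℝ) ^ (-(5 / 91) : ℝ) := by positivity
  rcases Nat.lt_or_ge s s0 with hlt | hge
  · have a1 : (s : ℝ) ^ (-(5 / 91) : ℝ) ≤ 1 := Real.rpow_le_one_of_one_le_of_nonpos hs1 (by norm_num)
    calc min c3 ((1 / 2) ^ s0) * (s : ℝ) ^ (-(5 / 91) : ℝ)
        ≤ (1 / 2) ^ s0 * 1 := mul_le_mul (min_le_right _ _) a1 hsp (by positivity)
      _ = (1 / 2 : ℝ) ^ s0 := mul_one _
      _ ≤ (1 / 2 : ℝ) ^ s := pow_le_pow_of_le_one (by norm_num) (by norm_num) hlt.le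
      _ ≤ _ := tail_small hs hN
  · obtain ⟨x, hx⟩ : ∃ x : ℝ, x = ((s : ℝ) * (1 / c1)) ^ (48 / 91 : ℝ) := ⟨_, rfl⟩
    have hb : (1 : ℝ) ≤ (s : ℝ) * (1 / c1) := by
      have : 1 ≤ 1 / c1 := by
        rw [le_div_iff₀ hc1]
        linarith
      calc (1 : ℝ) = 1 * 1 := by ring
        _ ≤ (s : ℝ) * (1 / c1) := mul_le_mul hs1 this (by norm_num) hsr.le
    have hb0 : (0 : ℝ) < (s : ℝ) * (1 / c1) := lt_of_lt_of_le one_pos hb
    have hx1 : 1 ≤ x := by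
      rw [hx]
      exact Real.one_le_rpow hb (by norm_num)
    have hx0 : 0 < x := lt_of_lt_of_le one_pos hx1
    have hxe : x = (s : ℝ) ^ (48 / 91 : ℝ) * (1 / c1) ^ (48 / 91 : ℝ) := by
      rw [hx, Real.mul_rpow hsr.le (by positivity)]
    have hxs : 2 * x ≤ s := by
      have b1 : K ≤ (s : ℝ) ^ (43 / 91 : ℝ) := by
        have b2 : K ^ (91 / 43 : ℝ) ≤ s := hs0.trans (by exact_mod_cast hge)
        have b3 : (K ^ (91 / 43 : ℝ)) ^ (43 / 91 : ℝ) = K := by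
          rw [← Real.rpow_mul hK0.le]
          norm_num
        rw [← b3]
        exact Real.rpow_le_rpow (by positivity) b2 (by norm_num)
      have b4 : (s : ℝ) = (s : ℝ) ^ (43 / 91 : ℝ) * (s : ℝ) ^ (48 / 91 : ℝ) := by
        rw [← Real.rpow_add hsr]
        norm_num
      calc 2 * x = K * (s : ℝ) ^ (48 / 91 : ℝ) := by
            rw [hxe, hK]
            ring
        _ ≤ (s : ℝ) ^ (43 / 91 : ℝ) * (s : ℝ) ^ (48 / 91 : ℝ) :=
            mul_le_mul_of_nonneg_right b1 (by positivity)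
        _ = s := b4.symm
    obtain ⟨n, hn⟩ : ∃ n : ℕ, n = ⌈x⌉₊ := ⟨_, rfl⟩
    have hn1 : x ≤ n := by
      rw [hn]
      exact Nat.le_ceil _
    have hn2 : (n : ℝ) ≤ 2 * x := by
      have := Nat.ceil_lt_add_one hx0.le
      rw [← hn] at this
      linarith
    have hn3 : 1 ≤ n := by
      have : (1 : ℝ) ≤ n := hx1.trans hn1
      exact_mod_cast this
    have hnN : n ≤ N := by
      have : (n : ℝ) ≤ s := hn2.trans hxs
      have h2 : n ≤ s := by exact_mod_cast this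
      exact h2.trans hN
    have hn0 : (0 : ℝ) < n := by exact_mod_cast hn3
    have key := hsc n N hn3 hnN
    have g1 : (s : ℝ) ≤ c1 * (n : ℝ) ^ (91 / 48 : ℝ) := by
      have g2 : x ^ (91 / 48 : ℝ) = (s : ℝ) * (1 / c1) := by
        rw [hx, ← Real.rpow_mul hb0.le]
        norm_num
      have g3 : x ^ (91 / 48 : ℝ) ≤ (n : ℝ) ^ (91 / 48 : ℝ) :=
        Real.rpow_le_rpow hx0.le hn1 (by norm_num)
      calc (s : ℝ) = c1 * ((s : ℝ) * (1 / c1)) := by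
            field_simp
        _ = c1 * x ^ (91 / 48 : ℝ) := by rw [g2]
        _ ≤ c1 * (n : ℝ) ^ (91 / 48 : ℝ) := mul_le_mul_of_nonneg_left g3 hc1.le
    have g4 : c3 * (s : ℝ) ^ (-(5 / 91) : ℝ) ≤ c2 * (n : ℝ) ^ (-(5 / 48) : ℝ) := by
      have g5 : (2 * x) ^ (-(5 / 48) : ℝ) ≤ (n : ℝ) ^ (-(5 / 48) : ℝ) :=
        Real.rpow_le_rpow_of_nonpos hn0 hn2 (by norm_num)
      have g6 : (2 * x) ^ (-(5 / 48) : ℝ) =
          2 ^ (-(5 / 48) : ℝ) * ((s : ℝ) ^ (-(5 / 91) : ℝ) * (1 / c1) ^ (-(5 / 91) : ℝ)) := by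
        rw [Real.mul_rpow (by norm_num) hx0.le, hx, ← Real.rpow_mul hb0.le,
          ← Real.mul_rpow hsr.le (by positivity)]
        norm_num
      calc c3 * (s : ℝ) ^ (-(5 / 91) : ℝ) = c2 * (2 * x) ^ (-(5 / 48) : ℝ) := by
            rw [g6, hc3]
            ring
        _ ≤ c2 * (n : ℝ) ^ (-(5 / 48) : ℝ) := mul_le_mul_of_nonneg_left g5 hc2.le
    calc min c3 ((1 / 2) ^ s0) * (s : ℝ) ^ (-(5 / 91) : ℝ)
        ≤ c3 * (s : ℝ) ^ (-(5 / 91) : ℝ) := mul_le_mul_of_nonneg_right (min_le_left _ _) hsp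
      _ ≤ c2 * (n : ℝ) ^ (-(5 / 48) : ℝ) := g4
      _ ≤ _ := key
      _ ≤ _ := Pr_mono fun ω _ hω => by
          have : (s : ℝ) ≤ (cs0 N ω : ℝ) := g1.trans hω
          exact_mod_cast this

end FKP
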