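import Pool.Agent.Lib.MP_216314_pr.Cy.CyH

/-!
# The wired cluster of a rectangle with Dobrushin boundary conditions

Rectangle `[0,a] × [0,b]`, the left and the lower side are wired. `WC a b v ω`: the vertex `v` belongs to the cluster of the
wired sides.
-/

set_option autoImplicit false

noncomputable section

namespace FKP

open Finset FKI

/-- the edges of the left and of the lower side of `[0,a] × [0,b]` -/
def wsd (a b : ℕ) : Finset Edge := box 0 0 0 b ∪ box 0 a 0 0

/-- `v` is connected to the wired left and lower sides inside `[0,a] × [0,b]` -/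
def WC (a b : ℕ) (v : V) (ω : Finset Edge) : Prop := Conn (box 0 a 0 b) (ω ∪ wsd a b) (0, 0) v

/-- the vertices of `[0,a] × [0,b]` -/
def rv (a b : ℕ) : Finset V := Icc 0 (a : ℤ) ×ˢ Icc 0 (b : ℤ)

theorem mem_rv {a b : ℕ} {v : V} : v ∈ rv a b ↔ (0 ≤ v.1 ∧ v.1 ≤ a) ∧ (0 ≤ v.2 ∧ v.2 ≤ b) := by
  unfold rv
  rw [mem_product, mem_Icc, mem_Icc]

open Classical in
/-- number of vertices of the wired cluster -/
def nW (a b : ℕ) (ω : Finset Edge) : ℕ := ((rv a b).filter (fun v => WC a b v ω)).card

open Classical in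
/-- number of vertices of the wired cluster on the free (right and upper) sides -/
def nF (a b : ℕ) (ω : Finset Edge) : ℕ :=
  ((rv a b).filter (fun v : V => (v.1 = a ∨ v.2 = b) ∧ WC a b v ω)).card

theorem inc_WC (a b : ℕ) (v : V) : Inc (WC a b v) := by
  intro ω ω' hs h
  exact Conn.mono (Finset.Subset.refl _) (union_subset_union hs (Finset.Subset.refl _)) h

/-- minus the smaller coordinate -/
def mn (v : V) : ℤ := - min v.1 v.2

theorem mn_edge (e : Edge) : mn (ea e) - mn (eb e) ≤ 1 ∧ mn (eb e) - mn (ea e) ≤ 1 := by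
  obtain ⟨x, y, t⟩ := e
  unfold mn
  cases t
  · simp only [ea, eb, Bool.false_eq_true, if_false]
    rcases min_cases x y with h3 | h3 <;> rcases min_cases (x + 1) y with h4 | h4 <;>
      constructor <;> omega
  · simp only [ea, eb, if_true]
    rcases min_cases x y with h3 | h3 <;> rcases min_cases x (y + 1) with h4 | h4 <;>
      constructor <;> omega

/-- a vertex of the wired cluster has an open path to a neighbour of the wired sides -/
theorem WC_arm {a b : ℕ} {v : V} {ω : Finset Edge} (h1 : 1 ≤ v.1) (h2 : 1 ≤ v.2)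
    (h : WC a b v ω) : ∃ c : V, (c.1 = 1 ∨ c.2 = 1) ∧ Conn (box 0 a 0 b) ω v c := by
  have hm := le_min h1 h2
  obtain ⟨c, hc1, -, hc3⟩ := first_hit (F := box 0 a 0 b) (ω := ω ∪ wsd a b) mn
    (fun e _ => mn_edge e) (t := -1) (a := v) (b := (0, 0))
    (by unfold mn; omega) (by unfold mn; simp) h.symm
  refine ⟨c, ?_, ?_⟩
  · unfold mn at hc1
    rcases min_cases c.1 c.2 with h3 | h3 <;> omega
  · unfold Conn at hc3 ⊢
    refine SimpleGraph.Reachable.mono (gr_mono ?_) hc3
    intro e he
    rw [mem_inter, mem_union, mem_filter] at he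
    rw [mem_inter]
    refine ⟨?_, he.2.1⟩
    rcases he.1 with h3 | h3
    · exact h3
    · exfalso
      have h4 := he.2.2.1
      have h5 := he.2.2.2
      unfold wsd at h3
      rw [mem_union] at h3
      rcases h3 with h3 | h3
      · have h6 := (pexit_box h3).1
        have h7 := min_le_left (ea e).1 (ea e).2
        unfold mn at h4
        omega
      · have h6 := (pexit_box h3).1
        have h7 := min_le_right (ea e).1 (ea e).2
        unfold mn at h4
        omega

/-- a vertex connected to the lower side belongs to the wired cluster -/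
theorem WC_of_conn {a b : ℕ} {v : V} {ω : Finset Edge} {x : ℤ} (hx0 : 0 ≤ x) (hx1 : x ≤ a)
    (h : Conn (box 0 a 0 b) ω v (x, 0)) : WC a b v ω := by
  obtain ⟨k, rfl⟩ : ∃ k : ℕ, x = k := ⟨x.toNat, (Int.toNat_of_nonneg hx0).symm⟩
  have h1 := pexit_line a k (by exact_mod_cast hx1)
  have h2 : Conn (box 0 a 0 b) (ω ∪ wsd a b) (0, 0) ((k : ℤ), 0) := by
    refine Conn.mono (box_mono le_rfl le_rfl le_rfl (by omega)) ?_ h1
    unfold wsd
    exact Finset.Subset.trans subset_union_right subset_union_right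
  exact h2.trans (Conn.mono (Finset.Subset.refl _) subset_union_left h.symm)

theorem wsd_tr (a b : ℕ) : (wsd a b).map trE.toEmbedding = wsd b a := by
  unfold wsd
  rw [map_union, box_tr, box_tr, union_comm]

theorem WC_tr (a b : ℕ) (v : V) (ω : Finset Edge) :
    WC b a (v.2, v.1) (ω.map trE.toEmbedding) ↔ WC a b v ω := by
  unfold WC
  have h := conn_map cp_tr (box 0 a 0 b) (ω ∪ wsd a b) (0, 0) v
  rw [box_tr, map_union, wsd_tr] at h
  exact h

theorem Pr_WC_tr (a b : ℕ) (v : V) :
    Pr (box 0 b 0 a) (WC b a (v.2, v.1)) = Pr (box 0 a 0 b) (WC a b v) := by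
  rw [← box_tr, Pr_map]
  exact Pr_congr fun ω _ => WC_tr a b v ω

/-- in the bulk -/
theorem WC_bulk {a b : ℕ} {v : V} {d : ℕ} (h1 : (d : ℤ) + 1 ≤ v.1) (h2 : (d : ℤ) + 1 ≤ v.2) :
    Pr (box 0 a 0 b) (WC a b v) ≤ pi1 d := by
  have h3 : Pr (box 0 a 0 b) (WC a b v) ≤ Pr (box 0 a 0 b) (AR v d) := by
    refine Pr_mono fun ω _ hω => ?_
    obtain ⟨c, hc1, hc2⟩ := WC_arm (by omega) (by omega) hω
    refine AR_of_reach hc2.reach ?_
    unfold sd
    rw [le_max_iff]
    rcases hc1 with hc1 | hc1
    · left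
      rw [hc1, abs_sub_comm]
      exact le_trans (by omega) (le_abs_self _)
    · right
      rw [hc1, abs_sub_comm]
      exact le_trans (by omega) (le_abs_self _)
  refine h3.trans ((Pr_super (E' := box 0 a 0 b ∪ bu v d) subset_union_left (inc_AR v d)).trans ?_)
  exact (Pr_AR subset_union_right).le

end FKP
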