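import Pool.Agent.Lib.MP_216314_pr.Cy.CyL

/-!
# The volume of the wired cluster of a rectangle
-/

set_option autoImplicit false

noncomputable section

namespace FKP

open Finset FKI

open Classical in
theorem Ex_card {E : Finset Edge} (S : Finset V) (A : V → Finset Edge → Prop) :
    Ex E (fun ω => ((S.filter (fun v => A v ω)).card : ℝ)) = ∑ v ∈ S, Pr E (A v) := by
  have h1 : (fun ω => ((S.filter (fun v => A v ω)).card : ℝ)) =
      fun ω => ∑ v ∈ S, if A v ω then (1 : ℝ) else 0 := by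
    funext ω
    rw [sum_boole]
  rw [h1, Ex_sum]
  exact sum_congr rfl fun v _ => Ex_ind E (A v)

/-- partial sums of powers -/
theorem sum_rpow {s : ℝ} (hs0 : 0 ≤ s) (hs1 : s < 1) (n : ℕ) :
    ∑ k ∈ range n, ((k : ℝ) + 1) ^ (-s) ≤ (1 - s)⁻¹ * (n : ℝ) ^ (1 - s) := by
  have h1s : 0 < 1 - s := by linarith
  induction n with
  | zero =>
    rw [sum_range_zero]
    positivity
  | succ n ih =>
    rw [sum_range_succ]
    have hn1 : (0 : ℝ) < (n : ℝ) + 1 := by positivity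
    have hn0 : (0 : ℝ) ≤ n := Nat.cast_nonneg n
    have h2 : (n : ℝ) ^ (1 - s) ≤ ((n : ℝ) + 1) ^ (1 - s) - (1 - s) * ((n : ℝ) + 1) ^ (-s) := by
      have h3 : (1 + (-((n : ℝ) + 1)⁻¹)) ^ (1 - s) ≤ 1 + (1 - s) * (-((n : ℝ) + 1)⁻¹) := by
        refine rpow_one_add_le_one_add_mul_self ?_ h1s.le (by linarith)
        have : ((n : ℝ) + 1)⁻¹ ≤ 1 := inv_le_one_of_one_le₀ (by linarith)
        linarith
      have h4 : (n : ℝ) = ((n : ℝ) + 1) * (1 + (-((n : ℝ) + 1)⁻¹)) := by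
        field_simp
        ring
      have h5 : (0 : ℝ) ≤ 1 + (-((n : ℝ) + 1)⁻¹) := by
        have : ((n : ℝ) + 1)⁻¹ ≤ 1 := inv_le_one_of_one_le₀ (by linarith)
        linarith
      calc (n : ℝ) ^ (1 - s) = (((n : ℝ) + 1) * (1 + (-((n : ℝ) + 1)⁻¹))) ^ (1 - s) := by rw [← h4]
        _ = ((n : ℝ) + 1) ^ (1 - s) * (1 + (-((n : ℝ) + 1)⁻¹)) ^ (1 - s) :=
            Real.mul_rpow hn1.le h5
        _ ≤ ((n : ℝ) + 1) ^ (1 - s) * (1 + (1 - s) * (-((n : ℝ) + 1)⁻¹)) :=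
            mul_le_mul_of_nonneg_left h3 (by positivity)
        _ = ((n : ℝ) + 1) ^ (1 - s) - (1 - s) * (((n : ℝ) + 1) ^ (1 - s) * ((n : ℝ) + 1)⁻¹) := by ring
        _ = ((n : ℝ) + 1) ^ (1 - s) - (1 - s) * ((n : ℝ) + 1) ^ (-s) := by
            rw [← Real.rpow_neg_one ((n : ℝ) + 1), ← Real.rpow_add hn1]
            congr 2
            ring_nf
    have h6 : (1 - s)⁻¹ * (n : ℝ) ^ (1 - s) ≤
        (1 - s)⁻¹ * (((n : ℝ) + 1) ^ (1 - s) - (1 - s) * ((n : ℝ) + 1) ^ (-s)) :=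
      mul_le_mul_of_nonneg_left h2 (by positivity)
    have h7 : (1 - s)⁻¹ * (((n : ℝ) + 1) ^ (1 - s) - (1 - s) * ((n : ℝ) + 1) ^ (-s)) =
        (1 - s)⁻¹ * ((n : ℝ) + 1) ^ (1 - s) - ((n : ℝ) + 1) ^ (-s) := by
      field_simp
    push_cast
    linarith

/-- sums of a function with power decay, arguments shifted by two -/
theorem sum_pow_le {s C : ℝ} (hs0 : 0 ≤ s) (hs1 : s < 1) (hC : 0 < C) {f : ℕ → ℝ} (hf1 : ∀ k, f k ≤ 1)
    (hf : ∀ k : ℕ, 1 ≤ k → f k ≤ C * (k : ℝ) ^ (-s)) {n : ℕ} (hn : 1 ≤ n) :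
    ∑ k ∈ range (n + 1), f (k - 1) ≤ (2 + C * (1 - s)⁻¹) * (n : ℝ) ^ (1 - s) := by
  have hn1 : (1 : ℝ) ≤ n := by exact_mod_cast hn
  have h1 : (1 : ℝ) ≤ (n : ℝ) ^ (1 - s) := Real.one_le_rpow hn1 (by linarith)
  obtain ⟨m, rfl⟩ : ∃ m, n = m + 1 := ⟨n - 1, by omega⟩
  rw [sum_range_succ', sum_range_succ']
  simp only [Nat.add_sub_cancel, Nat.zero_sub, zero_add]
  have h2 : ∑ k ∈ range m, f (k + 1) ≤ C * ((1 - s)⁻¹ * (m : ℝ) ^ (1 - s)) := by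
    refine le_trans ?_ (mul_le_mul_of_nonneg_left (sum_rpow hs0 hs1 m) hC.le)
    rw [mul_sum]
    refine sum_le_sum fun k _ => ?_
    have := hf (k + 1) (by omega)
    push_cast at this
    exact this
  have h3 : (m : ℝ) ^ (1 - s) ≤ ((m + 1 : ℕ) : ℝ) ^ (1 - s) :=
    Real.rpow_le_rpow (by positivity) (by push_cast; linarith) (by linarith)
  have h4 : C * ((1 - s)⁻¹ * (m : ℝ) ^ (1 - s)) ≤ C * (1 - s)⁻¹ * ((m + 1 : ℕ) : ℝ) ^ (1 - s) := by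
    rw [← mul_assoc]
    exact mul_le_mul_of_nonneg_left h3 (by
      have : 0 < 1 - s := by linarith
      positivity)
  have h5 := hf1 0
  calc ∑ k ∈ range m, f (k + 1) + f 0 + f 0
      ≤ C * (1 - s)⁻¹ * ((m + 1 : ℕ) : ℝ) ^ (1 - s) + ((m + 1 : ℕ) : ℝ) ^ (1 - s) +
          ((m + 1 : ℕ) : ℝ) ^ (1 - s) := by linarith
    _ = (2 + C * (1 - s)⁻¹) * ((m + 1 : ℕ) : ℝ) ^ (1 - s) := by ring

theorem sum_rv (a b : ℕ) (f : ℕ → ℕ → ℝ) :
    ∑ v ∈ rv a b, f v.1.toNat v.2.toNat = ∑ x ∈ range (a + 1), ∑ y ∈ range (b + 1), f x y := by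
  have key : ∀ (c : ℕ) (g : ℕ → ℝ), ∑ x ∈ Icc 0 (c : ℤ), g x.toNat = ∑ x ∈ range (c + 1), g x := by
    intro c g
    refine sum_nbij' (fun x => x.toNat) (fun x => (x : ℤ)) ?_ ?_ ?_ ?_ ?_
    · intro x hx
      rw [mem_Icc] at hx
      rw [mem_range]
      omega
    · intro x hx
      rw [mem_range] at hx
      rw [mem_Icc]
      omega
    · intro x hx
      rw [mem_Icc] at hx
      omega
    · intro x _
      exact Int.toNat_natCast x
    · intro x _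
      rfl
  unfold rv
  rw [sum_product, key a (fun x => ∑ y ∈ Icc 0 (b : ℤ), f x y.toNat)]
  exact sum_congr rfl fun x _ => key b (f x)

theorem WC_le {a b : ℕ} {v : V} (hv : v ∈ rv a b) : Pr (box 0 a 0 b) (WC a b v) ≤
    pi1 (v.1.toNat - 1) + pi1 (v.2.toNat - 1) := by
  rw [mem_rv] at hv
  have h1 := pi1_nonneg (v.1.toNat - 1)
  have h2 := pi1_nonneg (v.2.toNat - 1)
  have h0 : (1 : ℝ) ≤ pi1 0 := by
    have := pi1_line 0
    rw [pow_zero] at this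
    exact this
  rcases le_total v.1 v.2 with h | h
  · rcases eq_or_lt_of_le hv.1.1 with h3 | h3
    · rw [← h3] at h1 ⊢
      have := Pr_le_one (box 0 a 0 b) (WC a b v)
      simp only [Int.toNat_zero, Nat.zero_sub]
      linarith
    · have := WC_bulk (a := a) (b := b) (v := v) (d := v.1.toNat - 1) (by omega) (by omega)
      linarith
  · rcases eq_or_lt_of_le hv.2.1 with h3 | h3
    · rw [← h3] at h2 ⊢
      have := Pr_le_one (box 0 a 0 b) (WC a b v)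
      simp only [Int.toNat_zero, Nat.zero_sub]
      linarith
    · have := WC_bulk (a := a) (b := b) (v := v) (d := v.2.toNat - 1) (by omega) (by omega)
      linarith

theorem Ex_nW (a b : ℕ) : Ex (box 0 a 0 b) (fun ω => (nW a b ω : ℝ)) =
    ∑ v ∈ rv a b, Pr (box 0 a 0 b) (WC a b v) := Ex_card (rv a b) (WC a b)

/-- upper bound for the volume of the wired cluster -/
theorem nW_upper (h : OneArm) (K : ℕ) : ∃ C : ℝ, 0 < C ∧ ∀ a b : ℕ, 1 ≤ a → 1 ≤ b → b ≤ K * a →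
    Ex (box 0 a 0 b) (fun ω => (nW a b ω : ℝ)) ≤ C * (a : ℝ) ^ (91 / 48 : ℝ) := by
  obtain ⟨c, C, hc, hC, hpi⟩ := h
  obtain ⟨D, hD⟩ : ∃ D : ℝ, D = 2 + C * (1 - 5 / 48)⁻¹ := ⟨_, rfl⟩
  have hD0 : 0 < D := by
    rw [hD]
    positivity
  refine ⟨4 * ((K : ℝ) + 1) * ((K : ℝ) + 1) * D, by positivity, fun a b ha hb hba => ?_⟩
  have ha0 : (0 : ℝ) < a := by exact_mod_cast ha
  have ha1 : (1 : ℝ) ≤ a := by exact_mod_cast ha
  have hb0 : (0 : ℝ) < b := by exact_mod_cast hb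
  have hK0 : (0 : ℝ) ≤ K := Nat.cast_nonneg K
  rw [Ex_nW]
  refine (sum_le_sum fun v hv => WC_le hv).trans ?_
  rw [sum_rv a b (fun x y => pi1 (x - 1) + pi1 (y - 1))]
  simp only [sum_add_distrib, sum_const, card_range, nsmul_eq_mul]
  rw [← mul_sum]
  have s1 := sum_pow_le (s := 5 / 48) (by norm_num) (by norm_num) hC pi1_le_one
    (fun k hk => (hpi k hk).2) ha
  have s2 := sum_pow_le (s := 5 / 48) (by norm_num) (by norm_num) hC pi1_le_one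
    (fun k hk => (hpi k hk).2) hb
  rw [← hD] at s1 s2
  have hbK : (b : ℝ) ≤ (K + 1) * a := by
    have : (b : ℝ) ≤ K * a := by exact_mod_cast hba
    linarith
  have e1 : (b : ℝ) ^ (1 - 5 / 48 : ℝ) ≤ (K + 1) * (a : ℝ) ^ (1 - 5 / 48 : ℝ) := by
    calc (b : ℝ) ^ (1 - 5 / 48 : ℝ) ≤ ((K + 1) * a) ^ (1 - 5 / 48 : ℝ) :=
          Real.rpow_le_rpow hb0.le hbK (by norm_num)
      _ = (K + 1) ^ (1 - 5 / 48 : ℝ) * (a : ℝ) ^ (1 - 5 / 48 : ℝ) := Real.mul_rpow (by positivity) ha0.le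
      _ ≤ (K + 1) * (a : ℝ) ^ (1 - 5 / 48 : ℝ) := by
          refine mul_le_mul_of_nonneg_right ?_ (by positivity)
          calc ((K : ℝ) + 1) ^ (1 - 5 / 48 : ℝ) ≤ ((K : ℝ) + 1) ^ (1 : ℝ) :=
                Real.rpow_le_rpow_of_exponent_le (by linarith) (by norm_num)
            _ = (K : ℝ) + 1 := Real.rpow_one _
  have e2 : (a : ℝ) ^ (91 / 48 : ℝ) = a * (a : ℝ) ^ (1 - 5 / 48 : ℝ) := by
    rw [← Real.rpow_one_add' ha0.le (by norm_num)]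
    norm_num
  have hp : (0 : ℝ) ≤ (a : ℝ) ^ (1 - 5 / 48 : ℝ) := by positivity
  rw [e2]
  have t1 : ((b + 1 : ℕ) : ℝ) ≤ 2 * (K + 1) * a := by
    push_cast
    nlinarith
  have t2 : ((a + 1 : ℕ) : ℝ) ≤ 2 * a := by
    push_cast
    linarith
  have u1 : ((b + 1 : ℕ) : ℝ) * ∑ x ∈ range (a + 1), pi1 (x - 1) ≤
      (2 * (K + 1) * a) * (D * (a : ℝ) ^ (1 - 5 / 48 : ℝ)) :=
    mul_le_mul t1 s1 (sum_nonneg fun x _ => pi1_nonneg _) (by positivity)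
  have u2 : ((a + 1 : ℕ) : ℝ) * ∑ x ∈ range (b + 1), pi1 (x - 1) ≤
      (2 * a) * (D * ((K + 1) * (a : ℝ) ^ (1 - 5 / 48 : ℝ))) := by
    refine mul_le_mul t2 (s2.trans (mul_le_mul_of_nonneg_left e1 hD0.le))
      (sum_nonneg fun x _ => pi1_nonneg _) (by positivity)
  have u3 : 4 * ((K : ℝ) + 1) * 1 * D * (a * (a : ℝ) ^ (1 - 5 / 48 : ℝ)) ≤
      4 * ((K : ℝ) + 1) * ((K : ℝ) + 1) * D * (a * (a : ℝ) ^ (1 - 5 / 48 : ℝ)) := by
    gcongr
    linarith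
  have u4 : ∑ i ∈ range (a + 1), ((b : ℝ) + 1) * pi1 (i - 1) =
      ((b + 1 : ℕ) : ℝ) * ∑ x ∈ range (a + 1), pi1 (x - 1) := by
    rw [mul_sum]
    push_cast
    rfl
  calc _ = ((b + 1 : ℕ) : ℝ) * ∑ x ∈ range (a + 1), pi1 (x - 1) +
        ((a + 1 : ℕ) : ℝ) * ∑ x ∈ range (b + 1), pi1 (x - 1) := by
          push_cast
          rfl
    _ ≤ (2 * (K + 1) * a) * (D * (a : ℝ) ^ (1 - 5 / 48 : ℝ)) +
        (2 * a) * (D * ((K + 1) * (a : ℝ) ^ (1 - 5 / 48 : ℝ))) := add_le_add u1 u2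
    _ = 4 * ((K : ℝ) + 1) * 1 * D * (a * (a : ℝ) ^ (1 - 5 / 48 : ℝ)) := by ring
    _ ≤ _ := u3

/-- lower bound for one vertex in the bulk -/
theorem WC_ge : ∃ c : ℝ, 0 < c ∧ ∀ (a b d : ℕ) (v : V), 2 ≤ d → (d : ℤ) ≤ v.1 → v.1 + d ≤ a →
    (d : ℤ) ≤ v.2 → v.2 + d ≤ b → v.2 ≤ 16 * d → c * pi1 d ≤ Pr (box 0 a 0 b) (WC a b v) := by
  obtain ⟨c, hc0, hc⟩ := rsw 32
  obtain ⟨e, he0, he⟩ := RG_prob
  refine ⟨e * c, by positivity, fun a b d v hd h1 h2 h3 h4 h5 => ?_⟩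
  have hbu : bu v d ⊆ box 0 a 0 b := by
    unfold bu
    exact box_mono (by omega) (by omega) (by omega) (by omega)
  obtain ⟨y, hy⟩ : ∃ y : ℕ, v.2 = y := ⟨v.2.toNat, (Int.toNat_of_nonneg (by omega)).symm⟩
  have p1 : pi1 d ≤ Pr (box 0 a 0 b) (AR v d) := (Pr_AR hbu).ge
  have p2 := he v (d / 2) d (box 0 a 0 b) (by omega) (by omega) hbu
  have p3 : c ≤ Pr (box 0 a 0 b) (VC (v.1 - d) (v.1 + d) 0 (v.2 + d)) := by
    rw [Pr_VC (2 * d) (y + d) (by push_cast; ring) (by push_cast; omega)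
      (box_mono (by omega) (by omega) (by omega) (by omega))]
    exact hc _ _ (by omega) (by omega)
  have f1 := pup_fkg (inc_AR v d) (inc_RG v (d / 2) d) he0.le p1 p2
  have f2 := pup_fkg (pup_and (inc_AR v d) (inc_RG v (d / 2) d)) (inc_VC _ _ _ _) hc0.le f1 p3
  refine le_trans (le_of_eq (by ring)) (f2.trans (Pr_mono fun ω hω hω' => ?_))
  obtain ⟨⟨⟨w, w1, w2⟩, h6⟩, ⟨x, x', g1, g2, g3, g4, hG⟩⟩ := hω'
  obtain ⟨r, r1, -, r3⟩ := ring_core (by omega) h6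
  have a1 := r1 v w (by rw [sd_self]; omega) w1.ge w2.reach
  have a2 := r3 _ _ _ _ x x' le_rfl le_rfl (by omega) le_rfl ⟨g1, g2⟩ ⟨g3, g4⟩ hG
  exact WC_of_conn (by omega) (by omega) (Conn.of_reach hω (a1.trans a2.symm))

theorem WC_zero (a b : ℕ) (ω : Finset Edge) : WC a b (0, 0) ω := Conn.refl _ _ _

/-- **The volume of the wired cluster.** -/
theorem wired_volume (h : OneArm) (K : ℕ) : ∃ c C : ℝ, 0 < c ∧ 0 < C ∧ ∀ a b : ℕ, 1 ≤ a → 1 ≤ b →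
    a ≤ K * b → b ≤ K * a →
    c * (a : ℝ) ^ (91 / 48 : ℝ) ≤ Ex (box 0 a 0 b) (fun ω => (nW a b ω : ℝ)) ∧
    Ex (box 0 a 0 b) (fun ω => (nW a b ω : ℝ)) ≤ C * (a : ℝ) ^ (91 / 48 : ℝ) := by
  obtain ⟨C, hC, hup⟩ := nW_upper h K
  obtain ⟨c, C', hc, hC', hpi⟩ := h
  obtain ⟨e, he0, he⟩ := WC_ge
  refine ⟨min (e * c / 16 * ((K : ℝ) + 1) ^ (-(91 / 48) : ℝ)) ((8 * ((K : ℝ) + 1)) ^ (-(91 / 48) : ℝ)), C,
    by positivity, hC, fun a b ha hb hab hba => ⟨?_, hup a b ha hb hba⟩⟩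
  have ha0 : (0 : ℝ) < a := by exact_mod_cast ha
  have hK0 : (0 : ℝ) ≤ K := Nat.cast_nonneg K
  obtain ⟨s, hs⟩ : ∃ s, s = min a b := ⟨_, rfl⟩
  have hsa : s ≤ a := by rw [hs]; exact min_le_left _ _
  have hsb : s ≤ b := by rw [hs]; exact min_le_right _ _
  have has : a ≤ (K + 1) * s := by
    rcases min_cases a b with h3 | h3
    · rw [hs, h3.1]
      nlinarith
    · rw [hs, h3.1]
      nlinarith
  have hasR : (a : ℝ) ≤ ((K : ℝ) + 1) * s := by exact_mod_cast has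
  rcases Nat.lt_or_ge s 8 with h8 | h8
  · have h1 : (1 : ℝ) ≤ Ex (box 0 a 0 b) (fun ω => (nW a b ω : ℝ)) := by
      rw [Ex_nW]
      have h2 : Pr (box 0 a 0 b) (WC a b (0, 0)) ≤ ∑ v ∈ rv a b, Pr (box 0 a 0 b) (WC a b v) := by
        refine single_le_sum (f := fun v => Pr (box 0 a 0 b) (WC a b v))
          (fun v _ => Pr_nonneg _ _) ?_
        rw [mem_rv]
        simp
      refine le_trans ?_ h2
      rw [← Pr_true (box 0 a 0 b)]
      exact Pr_mono fun ω _ _ => WC_zero a b ω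
    refine le_trans ?_ h1
    have h3 : (a : ℝ) ≤ 8 * ((K : ℝ) + 1) := by
      have h4 : ((s : ℕ) : ℝ) ≤ 8 := by exact_mod_cast h8.le
      nlinarith
    have h4 : (0 : ℝ) < 8 * ((K : ℝ) + 1) := by positivity
    calc _ ≤ (8 * ((K : ℝ) + 1)) ^ (-(91 / 48) : ℝ) * (a : ℝ) ^ (91 / 48 : ℝ) :=
          mul_le_mul_of_nonneg_right (min_le_right _ _) (by positivity)
      _ ≤ (8 * ((K : ℝ) + 1)) ^ (-(91 / 48) : ℝ) * (8 * ((K : ℝ) + 1)) ^ (91 / 48 : ℝ) := by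
          refine mul_le_mul_of_nonneg_left ?_ (by positivity)
          exact Real.rpow_le_rpow ha0.le h3 (by norm_num)
      _ = 1 := by
          rw [← Real.rpow_add h4]
          norm_num
  · have hs0 : (0 : ℝ) < s := by
      have : 0 < s := by omega
      exact_mod_cast this
    obtain ⟨d, hd⟩ : ∃ d, d = s / 4 := ⟨_, rfl⟩
    obtain ⟨T, hT⟩ : ∃ T : Finset V, T = Icc (d : ℤ) (2 * d) ×ˢ Icc (d : ℤ) (2 * d) := ⟨_, rfl⟩
    have hTc : (T.card : ℝ) = ((d : ℝ) + 1) ^ 2 := by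
      rw [hT, card_product, Int.card_Icc, sq]
      have : (2 * (d : ℤ) + 1 - d).toNat = d + 1 := by omega
      rw [this]
      push_cast
      ring
    have hsub : T ⊆ rv a b := by
      intro v hv
      rw [hT, mem_product, mem_Icc, mem_Icc] at hv
      rw [mem_rv]
      omega
    have h1 : (T.card : ℝ) * (e * (c * (s : ℝ) ^ (-(5 / 48) : ℝ))) ≤
        ∑ v ∈ rv a b, Pr (box 0 a 0 b) (WC a b v) := by
      refine le_trans ?_ (sum_le_sum_of_subset_of_nonneg hsub fun v _ _ => Pr_nonneg _ _)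
      rw [← nsmul_eq_mul, ← sum_const]
      refine sum_le_sum fun v hv => ?_
      rw [hT, mem_product, mem_Icc, mem_Icc] at hv
      refine le_trans ?_ (he a b d v (by omega) hv.1.1 (by omega) hv.2.1 (by omega) (by omega))
      refine mul_le_mul_of_nonneg_left ?_ he0.le
      exact ((hpi s (by omega)).1).trans (pi1_anti (by omega))
    rw [Ex_nW]
    refine le_trans ?_ h1
    have h2 : (s : ℝ) ^ 2 / 16 ≤ (T.card : ℝ) := by
      rw [hTc]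
      have h3 : s ≤ 4 * (d + 1) := by omega
      have h4 : (s : ℝ) ≤ 4 * ((d : ℝ) + 1) := by exact_mod_cast h3
      nlinarith
    have h5 : (s : ℝ) ^ (91 / 48 : ℝ) = (s : ℝ) ^ 2 * (s : ℝ) ^ (-(5 / 48) : ℝ) := by
      rw [← Real.rpow_natCast, ← Real.rpow_add hs0]
      norm_num
    have hK1 : (0 : ℝ) < (K : ℝ) + 1 := by positivity
    calc _ ≤ (e * c / 16 * ((K : ℝ) + 1) ^ (-(91 / 48) : ℝ)) * (a : ℝ) ^ (91 / 48 : ℝ) :=
          mul_le_mul_of_nonneg_right (min_le_left _ _) (by positivity)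
      _ ≤ (e * c / 16 * ((K : ℝ) + 1) ^ (-(91 / 48) : ℝ)) * (((K : ℝ) + 1) * s) ^ (91 / 48 : ℝ) := by
          refine mul_le_mul_of_nonneg_left ?_ (by positivity)
          exact Real.rpow_le_rpow ha0.le hasR (by norm_num)
      _ = e * c / 16 * (s : ℝ) ^ (91 / 48 : ℝ) *
            (((K : ℝ) + 1) ^ (-(91 / 48) : ℝ) * ((K : ℝ) + 1) ^ (91 / 48 : ℝ)) := by
          rw [Real.mul_rpow hK1.le hs0.le]
          ring
      _ = e * c / 16 * (s : ℝ) ^ (91 / 48 : ℝ) := by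
          rw [← Real.rpow_add hK1]
          norm_num
      _ = ((s : ℝ) ^ 2 / 16) * (e * (c * (s : ℝ) ^ (-(5 / 48) : ℝ))) := by
          rw [h5]
          ring
      _ ≤ _ := mul_le_mul_of_nonneg_right h2 (by positivity)

end FKP
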