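import Pool.Agent.Lib.MP_216314_pr.Cy.CyN

/-!
# The number of vertices of the free sides in the wired cluster
-/

set_option autoImplicit false

noncomputable section

namespace FKP

open Finset FKI

/-- the half plane one arm exponent `1/3` -/
def HalfArm : Prop := ∃ c C : ℝ, 0 < c ∧ 0 < C ∧ ∀ n : ℕ, 1 ≤ n →
  c * (n : ℝ) ^ (-(1 / 3) : ℝ) ≤ piH n ∧ piH n ≤ C * (n : ℝ) ^ (-(1 / 3) : ℝ)

theorem piH_nonneg (n : ℕ) : 0 ≤ piH n := Pr_nonneg _ _

theorem piH_le_one (n : ℕ) : piH n ≤ 1 := Pr_le_one _ _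

theorem piH_zero : 1 ≤ piH 0 := by
  unfold piH
  rw [← Pr_true (box (-((0 : ℕ) : ℤ)) ((0 : ℕ) : ℤ) 0 ((0 : ℕ) : ℤ))]
  refine Pr_mono fun ω _ _ => ?_
  exact Or.inl ⟨0, le_rfl, le_rfl, Conn.refl _ _ _⟩

theorem RA_anti {u : V} {d d' : ℕ} (h : d ≤ d') {ω : Finset Edge} (hA : RA u d' ω) : RA u d ω := by
  obtain ⟨w, h1, h2⟩ := hA
  unfold hb at h2
  refine RA_of_conn h2 ?_
  unfold sd
  rw [le_max_iff]
  have h3 : (d : ℤ) ≤ d' := by exact_mod_cast h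
  rcases h1 with h1 | h1 | h1
  · left
    rw [h1, abs_sub_comm]
    exact le_trans (by omega) (le_abs_self _)
  · right
    rw [h1, abs_sub_comm]
    exact le_trans (by omega) (le_abs_self _)
  · right
    rw [h1]
    exact le_trans (by omega) (le_abs_self _)

/-- upper bound for a vertex of the right side -/
theorem WC_right {a b : ℕ} {y : ℤ} {d : ℕ} (h1 : d + 1 ≤ a) (h2 : (d : ℤ) + 1 ≤ y) :
    Pr (box 0 a 0 b) (WC a b ((a : ℤ), y)) ≤ piH d := by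
  have h3 : Pr (box 0 a 0 b) (WC a b ((a : ℤ), y)) ≤ Pr (box 0 a 0 b) (RA ((a : ℤ), y) d) := by
    refine Pr_mono fun ω _ hω => ?_
    obtain ⟨c, hc1, hc2⟩ := WC_arm (by simp only; omega) (by simp only; omega) hω
    refine RA_of_conn (u := ((a : ℤ), y)) hc2 ?_
    unfold sd
    rw [le_max_iff]
    simp only
    rcases hc1 with hc1 | hc1
    · left
      rw [hc1, abs_sub_comm]
      exact le_trans (by omega) (le_abs_self _)
    · right
      rw [hc1, abs_sub_comm]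
      exact le_trans (by omega) (le_abs_self _)
  refine h3.trans ((Pr_super (E' := box 0 a 0 b ∪ hb ((a : ℤ), y) d) subset_union_left
    (inc_RA ((a : ℤ), y) d)).trans ?_)
  exact (Pr_RA subset_union_right).le

theorem WC_right_le {a b : ℕ} (ha : 1 ≤ a) {y : ℤ} (hy : 0 ≤ y) :
    Pr (box 0 a 0 b) (WC a b ((a : ℤ), y)) ≤ piH (a - 1) + piH (y.toNat - 1) := by
  have h1 := piH_nonneg (a - 1)
  have h2 := piH_nonneg (y.toNat - 1)
  have h0 := piH_zero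
  rcases eq_or_lt_of_le hy with h3 | h3
  · rw [← h3] at h2 ⊢
    have := Pr_le_one (box 0 a 0 b) (WC a b ((a : ℤ), 0))
    simp only [Int.toNat_zero, Nat.zero_sub]
    linarith
  · rcases le_total (a : ℤ) y with h | h
    · have := WC_right (a := a) (b := b) (y := y) (d := a - 1) (by omega) (by omega)
      linarith
    · have := WC_right (a := a) (b := b) (y := y) (d := y.toNat - 1) (by omega) (by omega)
      linarith

/-- the geometric part of the lower bound -/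
theorem half_geo {u : V} {j d : ℕ} (hj : j ≤ d) {ω : Finset Edge} (hA : RA u d ω)
    (hT : HC (u.1 - d) u.1 (u.2 + j) (u.2 + d) ω) (hL : VC (u.1 - d) (u.1 - j) (u.2 - d) (u.2 + d) ω)
    (hB : HC (u.1 - d) u.1 (u.2 - d) (u.2 - j) ω) (hu : (d : ℤ) ≤ u.2)
    (hC : VC (u.1 - d) u.1 0 u.2 ω) :
    ∃ x : ℤ, u.1 - d ≤ x ∧ x ≤ u.1 ∧ (gr ω).Reachable u (x, 0) := by
  obtain ⟨ux, uy⟩ := u
  simp only at hT hL hB hC hu ⊢
  obtain ⟨w, hw1, hw2⟩ := hA
  obtain ⟨yt, yt', t1, t2, t3, t4, hT⟩ := hT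
  obtain ⟨xl, xl', l1, l2, l3, l4, hL⟩ := hL
  obtain ⟨yb, yb', b1, b2, b3, b4, hB⟩ := hB
  obtain ⟨x, x', c1, c2, c3, c4, hC⟩ := hC
  refine ⟨x, c1, c2, ?_⟩
  have bc := cross (ω := ω) (x1 := ux - d) (x2 := ux) (y1 := uy - d) (y2 := uy - j)
    (x3 := ux - d) (x4 := ux) (y3 := 0) (y4 := uy) le_rfl le_rfl (by omega) (by omega)
    ⟨b1, b2⟩ ⟨b3, b4⟩ ⟨c1, c2⟩ ⟨c3, c4⟩ hB hC
  have bl := cross (ω := ω) (x1 := ux - d) (x2 := ux) (y1 := uy - d) (y2 := uy - j)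
    (x3 := ux - d) (x4 := ux - j) (y3 := uy - d) (y4 := uy + d) le_rfl (by omega) le_rfl
    (by omega) ⟨b1, b2⟩ ⟨b3, b4⟩ ⟨l1, l2⟩ ⟨l3, l4⟩ hB hL
  have tl := cross (ω := ω) (x1 := ux - d) (x2 := ux) (y1 := uy + j) (y2 := uy + d)
    (x3 := ux - d) (x4 := ux - j) (y3 := uy - d) (y4 := uy + d) le_rfl (by omega) (by omega)
    le_rfl ⟨t1, t2⟩ ⟨t3, t4⟩ ⟨l1, l2⟩ ⟨l3, l4⟩ hT hL
  unfold hb at hw2
  simp only at hw1 hw2
  have hm := conn_mem_box hw2 ⟨by simp, by simp, by simp, by simp⟩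
  obtain ⟨wx, wy⟩ := w
  simp only at hw1 hm
  rcases hw1 with h1 | h1 | h1
  · subst h1
    obtain ⟨y0, h1, h2, h3, h4⟩ := pgeo_left (t := ux - j) hw2 (by omega)
      ⟨by simp only; omega, by simp only; omega, by simp only; omega, by simp only; omega⟩
    have h5 := cross (ω := ω) le_rfl le_rfl le_rfl le_rfl ⟨hm.2.2.1, hm.2.2.2⟩ ⟨h1, h2⟩
      ⟨l1, l2⟩ ⟨l3, l4⟩ h4 hL
    exact ((hw2.reach.trans h5).trans bl.symm).trans bc
  · subst h1
    obtain ⟨x0, h1, h2, h3, h4⟩ := pgeo_down (t := uy - j) hw2 (by omega)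
      ⟨by simp only; omega, by simp only; omega, by simp only; omega, by simp only; omega⟩
    have h5 := cross (ω := ω) le_rfl le_rfl le_rfl le_rfl ⟨b1, b2⟩ ⟨b3, b4⟩ ⟨hm.1, hm.2.1⟩
      ⟨h1, h2⟩ hB h4
    exact (hw2.reach.trans h5.symm).trans bc
  · subst h1
    obtain ⟨x0, h1, h2, h3, h4⟩ := pgeo_up (t := uy + j) hw2 (by omega)
      ⟨by simp only; omega, by simp only; omega, by simp only; omega, by simp only; omega⟩
    have h5 := cross (ω := ω) le_rfl le_rfl le_rfl le_rfl ⟨t1, t2⟩ ⟨t3, t4⟩ ⟨h1, h2⟩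
      ⟨hm.1, hm.2.1⟩ hT h4
    exact (((h3.reach.trans h5.symm).trans tl).trans bl.symm).trans bc

/-- lower bound for a vertex of the right side -/
theorem WC_right_ge : ∃ c : ℝ, 0 < c ∧ ∀ (a b d y : ℕ), 2 ≤ d → d ≤ a → d ≤ y → y + d ≤ b →
    y ≤ 16 * d → c * piH d ≤ Pr (box 0 a 0 b) (WC a b ((a : ℤ), (y : ℤ))) := by
  obtain ⟨c, hc0, hc⟩ := rsw 32
  refine ⟨c ^ 4, by positivity, fun a b d y hd h1 h2 h3 h4 => ?_⟩
  obtain ⟨j, hj⟩ : ∃ j, j = d / 2 := ⟨_, rfl⟩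
  have hsub : ∀ {x1 x2 y1 y2 : ℤ}, 0 ≤ x1 → x2 ≤ a → 0 ≤ y1 → y2 ≤ b →
      box x1 x2 y1 y2 ⊆ box 0 a 0 b := fun h1 h2 h3 h4 => box_mono h1 h2 h3 h4
  have pA : piH d ≤ Pr (box 0 a 0 b) (RA ((a : ℤ), (y : ℤ)) d) := by
    refine (Pr_RA ?_).ge
    unfold hb
    exact hsub (by simp only; omega) le_rfl (by simp only; omega) (by simp only; omega)
  have pT : c ≤ Pr (box 0 a 0 b) (HC ((a : ℤ) - d) a ((y : ℤ) + j) ((y : ℤ) + d)) := by
    rw [Pr_HC d (d - j) (by omega) (by omega) (hsub (by omega) (by omega) (by omega) (by omega))]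
    exact hc _ _ (by omega) (by omega)
  have pL : c ≤ Pr (box 0 a 0 b) (VC ((a : ℤ) - d) ((a : ℤ) - j) ((y : ℤ) - d) ((y : ℤ) + d)) := by
    rw [Pr_VC (d - j) (2 * d) (by omega) (by omega)
      (hsub (by omega) (by omega) (by omega) (by omega))]
    exact hc _ _ (by omega) (by omega)
  have pB : c ≤ Pr (box 0 a 0 b) (HC ((a : ℤ) - d) a ((y : ℤ) - d) ((y : ℤ) - j)) := by
    rw [Pr_HC d (d - j) (by omega) (by omega) (hsub (by omega) (by omega) (by omega) (by omega))]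
    exact hc _ _ (by omega) (by omega)
  have pC : c ≤ Pr (box 0 a 0 b) (VC ((a : ℤ) - d) a 0 y) := by
    rw [Pr_VC d y (by omega) (by omega) (hsub (by omega) (by omega) (by omega) (by omega))]
    exact hc _ _ (by omega) (by omega)
  have iA := inc_RA ((a : ℤ), (y : ℤ)) d
  have iT := inc_HC ((a : ℤ) - d) a ((y : ℤ) + j) ((y : ℤ) + d)
  have iL := inc_VC ((a : ℤ) - d) ((a : ℤ) - j) ((y : ℤ) - d) ((y : ℤ) + d)
  have iB := inc_HC ((a : ℤ) - d) a ((y : ℤ) - d) ((y : ℤ) - j)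
  have iC := inc_VC ((a : ℤ) - d) a 0 (y : ℤ)
  have f1 := pup_fkg iA iT hc0.le pA pT
  have f2 := pup_fkg (pup_and iA iT) iL hc0.le f1 pL
  have f3 := pup_fkg (pup_and (pup_and iA iT) iL) iB hc0.le f2 pB
  have f4 := pup_fkg (pup_and (pup_and (pup_and iA iT) iL) iB) iC hc0.le f3 pC
  refine le_trans (le_of_eq (by ring)) (f4.trans (Pr_mono fun ω hω hω' => ?_))
  obtain ⟨⟨⟨⟨h5, h6⟩, h7⟩, h8⟩, h9⟩ := hω'
  obtain ⟨x, x1, x2, x3⟩ := half_geo (u := ((a : ℤ), (y : ℤ))) (j := j) (d := d) (by omega)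
    h5 h6 h7 h8 (by simp only; omega) h9
  simp only at x1 x2
  exact WC_of_conn (by omega) (by omega) (Conn.of_reach hω x3)

/-- expected number of vertices of the right side in the wired cluster -/
theorem right_upper (h : HalfArm) (K : ℕ) : ∃ C : ℝ, 0 < C ∧ ∀ a b : ℕ, 1 ≤ a → 1 ≤ b →
    a ≤ K * b → b ≤ K * a →
    ∑ y ∈ range (b + 1), Pr (box 0 a 0 b) (WC a b ((a : ℤ), (y : ℤ))) ≤ C * (a : ℝ) ^ (2 / 3 : ℝ) := by
  obtain ⟨c, C, hc, hC, hpi⟩ := h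
  obtain ⟨D, hD⟩ : ∃ D : ℝ, D = 2 + C * (1 - 1 / 3)⁻¹ := ⟨_, rfl⟩
  have hD0 : 0 < D := by
    rw [hD]
    positivity
  refine ⟨2 * ((K : ℝ) + 1) * (2 * C + 1) + D * ((K : ℝ) + 1), by positivity, fun a b ha hb hab hba => ?_⟩
  have ha0 : (0 : ℝ) < a := by exact_mod_cast ha
  have ha1 : (1 : ℝ) ≤ a := by exact_mod_cast ha
  have hb0 : (0 : ℝ) < b := by exact_mod_cast hb
  have hK0 : (0 : ℝ) ≤ K := Nat.cast_nonneg K
  have h1 : ∀ y ∈ range (b + 1), Pr (box 0 a 0 b) (WC a b ((a : ℤ), (y : ℤ))) ≤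
      piH (a - 1) + piH (y - 1) := by
    intro y _
    have := WC_right_le (a := a) (b := b) ha (y := (y : ℤ)) (Int.natCast_nonneg y)
    rwa [Int.toNat_natCast] at this
  refine (sum_le_sum h1).trans ?_
  rw [sum_add_distrib, sum_const, card_range, nsmul_eq_mul]
  have s2 := sum_pow_le (s := 1 / 3) (by norm_num) (by norm_num) hC piH_le_one
    (fun k hk => (hpi k hk).2) hb
  rw [← hD] at s2
  have hbK : (b : ℝ) ≤ (K + 1) * a := by
    have : (b : ℝ) ≤ K * a := by exact_mod_cast hba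
    linarith
  have e1 : (b : ℝ) ^ (1 - 1 / 3 : ℝ) ≤ (K + 1) * (a : ℝ) ^ (2 / 3 : ℝ) := by
    calc (b : ℝ) ^ (1 - 1 / 3 : ℝ) ≤ ((K + 1) * a) ^ (1 - 1 / 3 : ℝ) :=
          Real.rpow_le_rpow hb0.le hbK (by norm_num)
      _ = (K + 1) ^ (1 - 1 / 3 : ℝ) * (a : ℝ) ^ (1 - 1 / 3 : ℝ) := Real.mul_rpow (by positivity) ha0.le
      _ ≤ (K + 1) * (a : ℝ) ^ (1 - 1 / 3 : ℝ) := by
          refine mul_le_mul_of_nonneg_right ?_ (by positivity)
          calc ((K : ℝ) + 1) ^ (1 - 1 / 3 : ℝ) ≤ ((K : ℝ) + 1) ^ (1 : ℝ) :=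
                Real.rpow_le_rpow_of_exponent_le (by linarith) (by norm_num)
            _ = (K : ℝ) + 1 := Real.rpow_one _
      _ = (K + 1) * (a : ℝ) ^ (2 / 3 : ℝ) := by norm_num
  have e2 : piH (a - 1) ≤ (2 * C + 1) * (a : ℝ) ^ (-(1 / 3) : ℝ) := by
    rcases Nat.lt_or_ge a 2 with h2 | h2
    · have h3 : a = 1 := by omega
      subst h3
      have h4 := piH_le_one (1 - 1)
      simp only [Nat.cast_one, Real.one_rpow, mul_one]
      linarith
    · have h3 := (hpi (a - 1) (by omega)).2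
      have h4 : ((a - 1 : ℕ) : ℝ) ^ (-(1 / 3) : ℝ) ≤ 2 * (a : ℝ) ^ (-(1 / 3) : ℝ) := by
        have h5 : (a : ℝ) / 2 ≤ ((a - 1 : ℕ) : ℝ) := by
          rw [div_le_iff₀ (by norm_num)]
          have : a ≤ (a - 1) * 2 := by omega
          exact_mod_cast this
        calc ((a - 1 : ℕ) : ℝ) ^ (-(1 / 3) : ℝ) ≤ ((a : ℝ) / 2) ^ (-(1 / 3) : ℝ) :=
              Real.rpow_le_rpow_of_nonpos (by positivity) h5 (by norm_num)
          _ = (a : ℝ) ^ (-(1 / 3) : ℝ) * 2 ^ (1 / 3 : ℝ) := by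
              rw [Real.div_rpow ha0.le (by norm_num), div_eq_mul_inv,
                ← Real.rpow_neg (by norm_num : (0 : ℝ) ≤ 2), neg_neg]
          _ ≤ (a : ℝ) ^ (-(1 / 3) : ℝ) * 2 := by
              refine mul_le_mul_of_nonneg_left ?_ (by positivity)
              calc (2 : ℝ) ^ (1 / 3 : ℝ) ≤ 2 ^ (1 : ℝ) :=
                    Real.rpow_le_rpow_of_exponent_le (by norm_num) (by norm_num)
                _ = 2 := Real.rpow_one 2
          _ = 2 * (a : ℝ) ^ (-(1 / 3) : ℝ) := by ring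
      have h6 : (0 : ℝ) ≤ (a : ℝ) ^ (-(1 / 3) : ℝ) := by positivity
      calc piH (a - 1) ≤ C * ((a - 1 : ℕ) : ℝ) ^ (-(1 / 3) : ℝ) := h3
        _ ≤ C * (2 * (a : ℝ) ^ (-(1 / 3) : ℝ)) := mul_le_mul_of_nonneg_left h4 hC.le
        _ ≤ (2 * C + 1) * (a : ℝ) ^ (-(1 / 3) : ℝ) := by nlinarith
  have e3 : (a : ℝ) ^ (2 / 3 : ℝ) = a * (a : ℝ) ^ (-(1 / 3) : ℝ) := by
    rw [← Real.rpow_one_add' ha0.le (by norm_num)]
    norm_num
  have t1 : ((b + 1 : ℕ) : ℝ) ≤ 2 * (K + 1) * a := by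
    push_cast
    nlinarith
  calc ((b + 1 : ℕ) : ℝ) * piH (a - 1) + ∑ y ∈ range (b + 1), piH (y - 1)
      ≤ (2 * (K + 1) * a) * ((2 * C + 1) * (a : ℝ) ^ (-(1 / 3) : ℝ)) +
          D * ((K + 1) * (a : ℝ) ^ (2 / 3 : ℝ)) := by
        refine add_le_add (mul_le_mul t1 e2 (piH_nonneg _) (by positivity)) ?_
        exact s2.trans (mul_le_mul_of_nonneg_left e1 hD0.le)
    _ = (2 * ((K : ℝ) + 1) * (2 * C + 1) + D * ((K : ℝ) + 1)) * (a : ℝ) ^ (2 / 3 : ℝ) := by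
        rw [e3]
        ring

open Classical in
theorem nF_le (a b : ℕ) (ω : Finset Edge) : (nF a b ω : ℝ) ≤
    ∑ y ∈ range (b + 1), (if WC a b ((a : ℤ), (y : ℤ)) ω then (1 : ℝ) else 0) +
    ∑ x ∈ range (a + 1), (if WC a b ((x : ℤ), (b : ℤ)) ω then (1 : ℝ) else 0) := by
  rw [sum_boole, sum_boole]
  have h1 : (rv a b).filter (fun v : V => (v.1 = a ∨ v.2 = b) ∧ WC a b v ω) ⊆
      ((range (b + 1)).filter (fun y : ℕ => WC a b ((a : ℤ), (y : ℤ)) ω)).image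
        (fun y : ℕ => ((a : ℤ), (y : ℤ))) ∪
      ((range (a + 1)).filter (fun x : ℕ => WC a b ((x : ℤ), (b : ℤ)) ω)).image
        (fun x : ℕ => ((x : ℤ), (b : ℤ))) := by
    rintro ⟨x, y⟩ hv
    rw [mem_filter, mem_rv] at hv
    simp only at hv
    obtain ⟨⟨⟨h2, h3⟩, ⟨h4, h5⟩⟩, h6, h7⟩ := hv
    rw [mem_union]
    rcases h6 with h6 | h6
    · left
      rw [mem_image]
      refine ⟨y.toNat, ?_, ?_⟩
      · rw [mem_filter, mem_range, Int.toNat_of_nonneg h4, ← h6]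
        exact ⟨by omega, h7⟩
      · rw [Int.toNat_of_nonneg h4, h6]
    · right
      rw [mem_image]
      refine ⟨x.toNat, ?_, ?_⟩
      · rw [mem_filter, mem_range, Int.toNat_of_nonneg h2, ← h6]
        exact ⟨by omega, h7⟩
      · rw [Int.toNat_of_nonneg h2, h6]
  have h2 := (card_le_card h1).trans (card_union_le _ _)
  have h3 := h2.trans (add_le_add card_image_le card_image_le)
  unfold nF
  exact_mod_cast h3

open Classical in
theorem nF_ge (a b : ℕ) (ω : Finset Edge) :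
    ∑ y ∈ range (b + 1), (if WC a b ((a : ℤ), (y : ℤ)) ω then (1 : ℝ) else 0) ≤ (nF a b ω : ℝ) := by
  rw [sum_boole]
  have h1 : ((range (b + 1)).filter (fun y : ℕ => WC a b ((a : ℤ), (y : ℤ)) ω)).image
      (fun y : ℕ => ((a : ℤ), (y : ℤ))) ⊆
      (rv a b).filter (fun v : V => (v.1 = a ∨ v.2 = b) ∧ WC a b v ω) := by
    intro v hv
    rw [mem_image] at hv
    obtain ⟨y, hy, rfl⟩ := hv
    rw [mem_filter, mem_range] at hy
    rw [mem_filter, mem_rv]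
    exact ⟨⟨⟨by simp only; omega, le_rfl⟩, ⟨by simp only; omega, by simp only; omega⟩⟩,
      Or.inl rfl, hy.2⟩
  have h2 := card_le_card h1
  rw [card_image_of_injective _ (fun y y' h => by
    have := congrArg Prod.snd h
    simp only at this
    exact_mod_cast this)] at h2
  unfold nF
  exact_mod_cast h2

/-- **The number of vertices of the free sides touched by the wired cluster.** -/
theorem free_touch (h : HalfArm) (K : ℕ) : ∃ c C : ℝ, 0 < c ∧ 0 < C ∧ ∀ a b : ℕ, 1 ≤ a → 1 ≤ b →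
    a ≤ K * b → b ≤ K * a →
    c * (a : ℝ) ^ (2 / 3 : ℝ) ≤ Ex (box 0 a 0 b) (fun ω => (nF a b ω : ℝ)) ∧
    Ex (box 0 a 0 b) (fun ω => (nF a b ω : ℝ)) ≤ C * (a : ℝ) ^ (2 / 3 : ℝ) := by
  classical
  obtain ⟨C, hC, hup⟩ := right_upper h K
  obtain ⟨c, C', hc, hC', hpi⟩ := h
  obtain ⟨e, he0, he⟩ := WC_right_ge
  refine ⟨min (e * c / 4 * ((K : ℝ) + 1) ^ (-(2 / 3) : ℝ)) ((8 * ((K : ℝ) + 1)) ^ (-(2 / 3) : ℝ)),
    C + C * ((K : ℝ) + 1), by positivity, by positivity, fun a b ha hb hab hba => ⟨?_, ?_⟩⟩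
  · have ha0 : (0 : ℝ) < a := by exact_mod_cast ha
    have hK0 : (0 : ℝ) ≤ K := Nat.cast_nonneg K
    have hE : ∑ y ∈ range (b + 1), Pr (box 0 a 0 b) (WC a b ((a : ℤ), (y : ℤ))) ≤
        Ex (box 0 a 0 b) (fun ω => (nF a b ω : ℝ)) := by
      have h1 : ∑ y ∈ range (b + 1), Pr (box 0 a 0 b) (WC a b ((a : ℤ), (y : ℤ))) =
          Ex (box 0 a 0 b) (fun ω => ∑ y ∈ range (b + 1),
            (if WC a b ((a : ℤ), (y : ℤ)) ω then (1 : ℝ) else 0)) := by
        rw [Ex_sum]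
        exact sum_congr rfl fun y _ => (Ex_ind _ _).symm
      rw [h1]
      exact Ex_mono fun ω _ => nF_ge a b ω
    refine le_trans ?_ hE
    obtain ⟨s, hs⟩ : ∃ s, s = min a b := ⟨_, rfl⟩
    have hsa : s ≤ a := by rw [hs]; exact min_le_left _ _
    have hsb : s ≤ b := by rw [hs]; exact min_le_right _ _
    have has : a ≤ (K + 1) * s := by
      rcases min_cases a b with h3 | h3
      · rw [hs, h3.1]
        nlinarith
      · rw [hs, h3.1]
        nlinarith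
    have hasR : (a : ℝ) ≤ ((K : ℝ) + 1) * s := by exact_mod_cast has
    rcases Nat.lt_or_ge s 8 with h8 | h8
    · have h1 : (1 : ℝ) ≤ ∑ y ∈ range (b + 1), Pr (box 0 a 0 b) (WC a b ((a : ℤ), (y : ℤ))) := by
        have h2 : Pr (box 0 a 0 b) (WC a b ((a : ℤ), ((0 : ℕ) : ℤ))) ≤
            ∑ y ∈ range (b + 1), Pr (box 0 a 0 b) (WC a b ((a : ℤ), (y : ℤ))) :=
          single_le_sum (f := fun y : ℕ => Pr (box 0 a 0 b) (WC a b ((a : ℤ), (y : ℤ))))
            (fun v _ => Pr_nonneg _ _) (mem_range.2 (by omega))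
        refine le_trans ?_ h2
        rw [← Pr_true (box 0 a 0 b)]
        refine Pr_mono fun ω _ _ => ?_
        exact WC_of_conn (Int.natCast_nonneg a) le_rfl (Conn.refl _ _ _)
      refine le_trans ?_ h1
      have h3 : (a : ℝ) ≤ 8 * ((K : ℝ) + 1) := by
        have h4 : ((s : ℕ) : ℝ) ≤ 8 := by exact_mod_cast h8.le
        nlinarith
      have h4 : (0 : ℝ) < 8 * ((K : ℝ) + 1) := by positivity
      calc _ ≤ (8 * ((K : ℝ) + 1)) ^ (-(2 / 3) : ℝ) * (a : ℝ) ^ (2 / 3 : ℝ) :=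
            mul_le_mul_of_nonneg_right (min_le_right _ _) (by positivity)
        _ ≤ (8 * ((K : ℝ) + 1)) ^ (-(2 / 3) : ℝ) * (8 * ((K : ℝ) + 1)) ^ (2 / 3 : ℝ) := by
            refine mul_le_mul_of_nonneg_left ?_ (by positivity)
            exact Real.rpow_le_rpow ha0.le h3 (by norm_num)
        _ = 1 := by
            rw [← Real.rpow_add h4]
            norm_num
    · have hs0 : (0 : ℝ) < s := by
        have : 0 < s := by omega
        exact_mod_cast this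
      obtain ⟨d, hd⟩ : ∃ d, d = s / 4 := ⟨_, rfl⟩
      have h1 : ((d : ℝ) + 1) * (e * (c * (s : ℝ) ^ (-(1 / 3) : ℝ))) ≤
          ∑ y ∈ range (b + 1), Pr (box 0 a 0 b) (WC a b ((a : ℤ), (y : ℤ))) := by
        have hsub : Ico d (2 * d + 1) ⊆ range (b + 1) := by
          intro y hy
          rw [mem_Ico] at hy
          rw [mem_range]
          omega
        refine le_trans ?_ (sum_le_sum_of_subset_of_nonneg hsub fun v _ _ => Pr_nonneg _ _)
        have hcard : ((Ico d (2 * d + 1)).card : ℝ) = (d : ℝ) + 1 := by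
          rw [Nat.card_Ico]
          have : 2 * d + 1 - d = d + 1 := by omega
          rw [this]
          push_cast
          ring
        rw [← hcard, ← nsmul_eq_mul, ← sum_const]
        refine sum_le_sum fun y hy => ?_
        rw [mem_Ico] at hy
        refine le_trans ?_ (he a b d y (by omega) (by omega) (by omega) (by omega) (by omega))
        refine mul_le_mul_of_nonneg_left ?_ he0.le
        exact ((hpi s (by omega)).1).trans (piH_anti (by omega))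
      refine le_trans ?_ h1
      have h2 : (s : ℝ) / 4 ≤ (d : ℝ) + 1 := by
        have h3 : s ≤ 4 * (d + 1) := by omega
        have h4 : (s : ℝ) ≤ 4 * ((d : ℝ) + 1) := by exact_mod_cast h3
        linarith
      have h5 : (s : ℝ) ^ (2 / 3 : ℝ) = s * (s : ℝ) ^ (-(1 / 3) : ℝ) := by
        rw [← Real.rpow_one_add' hs0.le (by norm_num)]
        norm_num
      have hK1 : (0 : ℝ) < (K : ℝ) + 1 := by positivity
      calc _ ≤ (e * c / 4 * ((K : ℝ) + 1) ^ (-(2 / 3) : ℝ)) * (a : ℝ) ^ (2 / 3 : ℝ) :=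
            mul_le_mul_of_nonneg_right (min_le_left _ _) (by positivity)
        _ ≤ (e * c / 4 * ((K : ℝ) + 1) ^ (-(2 / 3) : ℝ)) * (((K : ℝ) + 1) * s) ^ (2 / 3 : ℝ) := by
            refine mul_le_mul_of_nonneg_left ?_ (by positivity)
            exact Real.rpow_le_rpow ha0.le hasR (by norm_num)
        _ = e * c / 4 * (s : ℝ) ^ (2 / 3 : ℝ) *
              (((K : ℝ) + 1) ^ (-(2 / 3) : ℝ) * ((K : ℝ) + 1) ^ (2 / 3 : ℝ)) := by
            rw [Real.mul_rpow hK1.le hs0.le]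
            ring
        _ = e * c / 4 * (s : ℝ) ^ (2 / 3 : ℝ) := by
            rw [← Real.rpow_add hK1]
            norm_num
        _ = ((s : ℝ) / 4) * (e * (c * (s : ℝ) ^ (-(1 / 3) : ℝ))) := by
            rw [h5]
            ring
        _ ≤ _ := mul_le_mul_of_nonneg_right h2 (by positivity)
  · have ha0 : (0 : ℝ) < a := by exact_mod_cast ha
    have hb0 : (0 : ℝ) < b := by exact_mod_cast hb
    have hK0 : (0 : ℝ) ≤ K := Nat.cast_nonneg K
    have h1 := hup a b ha hb hab hba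
    have h2 := hup b a hb ha hba hab
    have h3 : Ex (box 0 a 0 b) (fun ω => (nF a b ω : ℝ)) ≤
        ∑ y ∈ range (b + 1), Pr (box 0 a 0 b) (WC a b ((a : ℤ), (y : ℤ))) +
        ∑ x ∈ range (a + 1), Pr (box 0 a 0 b) (WC a b ((x : ℤ), (b : ℤ))) := by
      refine (Ex_mono fun ω _ => nF_le a b ω).trans (le_of_eq ?_)
      have h4 : ∀ f g : Finset Edge → ℝ, Ex (box 0 a 0 b) (fun ω => f ω + g ω) =
          Ex (box 0 a 0 b) f + Ex (box 0 a 0 b) g := by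
        intro f g
        unfold Ex
        rw [sum_add_distrib, add_div]
      rw [h4, Ex_sum, Ex_sum]
      refine congrArg₂ (· + ·) (sum_congr rfl fun y _ => Ex_ind _ _)
        (sum_congr rfl fun y _ => Ex_ind _ _)
    have h4 : ∑ x ∈ range (a + 1), Pr (box 0 a 0 b) (WC a b ((x : ℤ), (b : ℤ))) =
        ∑ x ∈ range (a + 1), Pr (box 0 b 0 a) (WC b a ((b : ℤ), (x : ℤ))) :=
      sum_congr rfl fun x _ => (Pr_WC_tr a b ((x : ℤ), (b : ℤ))).symm
    rw [h4] at h3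
    have e1 : (b : ℝ) ^ (2 / 3 : ℝ) ≤ (K + 1) * (a : ℝ) ^ (2 / 3 : ℝ) := by
      have hbK : (b : ℝ) ≤ (K + 1) * a := by
        have : (b : ℝ) ≤ K * a := by exact_mod_cast hba
        linarith
      calc (b : ℝ) ^ (2 / 3 : ℝ) ≤ ((K + 1) * a) ^ (2 / 3 : ℝ) :=
            Real.rpow_le_rpow hb0.le hbK (by norm_num)
        _ = (K + 1) ^ (2 / 3 : ℝ) * (a : ℝ) ^ (2 / 3 : ℝ) := Real.mul_rpow (by positivity) ha0.le
        _ ≤ (K + 1) * (a : ℝ) ^ (2 / 3 : ℝ) := by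
            refine mul_le_mul_of_nonneg_right ?_ (by positivity)
            calc ((K : ℝ) + 1) ^ (2 / 3 : ℝ) ≤ ((K : ℝ) + 1) ^ (1 : ℝ) :=
                  Real.rpow_le_rpow_of_exponent_le (by linarith) (by norm_num)
              _ = (K : ℝ) + 1 := Real.rpow_one _
    calc _ ≤ _ := h3
      _ ≤ C * (a : ℝ) ^ (2 / 3 : ℝ) + C * ((K + 1) * (a : ℝ) ^ (2 / 3 : ℝ)) :=
          add_le_add h1 (h2.trans (mul_le_mul_of_nonneg_left e1 hC.le))
      _ = _ := by ring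

end FKP
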