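import Pool.Agent.Lib.MP_216314_pr.Cy.CyI
import Pool.Agent.Lib.MP_216314_pr.Cy.CyK
import Pool.Agent.Lib.MP_216314_pr.Cy.CyO

/-!
# Consequences of the one arm exponent

`two_point`: the two point function, `tail`: the tail of the size of the cluster of the origin, `largest`: the largest cluster
of a square, `wired_volume`, `free_touch`: the cluster of the wired sides of a rectangle.
-/

set_option autoImplicit false

noncomputable section

namespace FKP

open Finset FKI

/-- the tail of the cluster size -/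
theorem tail (h : OneArm) : ∃ c C : ℝ, 0 < c ∧ 0 < C ∧ ∀ s N : ℕ, 1 ≤ s → s ≤ N →
    c * (s : ℝ) ^ (-(5 / 91) : ℝ) ≤ Pr (bx N) (fun ω => s ≤ cs0 N ω) ∧
    Pr (bx N) (fun ω => s ≤ cs0 N ω) ≤ C * (s : ℝ) ^ (-(5 / 91) : ℝ) := by
  obtain ⟨C, hC, h1⟩ := tail_upper h
  obtain ⟨c, hc, h2⟩ := tail_lower h
  exact ⟨c, C, hc, hC, fun s N hs hN => ⟨h2 s N hs hN, h1 s N hs⟩⟩

end FKP
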