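import Pool.Agent.Lib.MP_216314_pr.Cy.CyM

/-!
# Arms at a vertical boundary
-/

set_option autoImplicit false

noncomputable section

namespace FKP

open Finset FKI

/-- the half square to the left of `u` -/
def hb (u : V) (d : ℕ) : Finset Edge := box (u.1 - d) u.1 (u.2 - d) (u.2 + d)

/-- `u` is connected inside the half square to the left of `u` to its far sides -/
def RA (u : V) (d : ℕ) (ω : Finset Edge) : Prop :=
  ∃ w : V, (w.1 = u.1 - d ∨ w.2 = u.2 - d ∨ w.2 = u.2 + d) ∧ Conn (hb u d) ω u w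

theorem inc_RA (u : V) (d : ℕ) : Inc (RA u d) := by
  rintro ω ω' hs ⟨v, h1, h2⟩
  exact ⟨v, h1, h2.mono (Finset.Subset.refl _) hs⟩

theorem dep_RA {u : V} {d : ℕ} {E : Finset Edge} (hE : hb u d ⊆ E) : Dep E (RA u d) := by
  intro ω
  constructor
  · rintro ⟨v, h1, h2⟩
    exact ⟨v, h1, (dep_Conn hE _ _ ω).1 h2⟩
  · rintro ⟨v, h1, h2⟩
    exact ⟨v, h1, (dep_Conn hE _ _ ω).2 h2⟩

theorem cp_trans {σ σ' : Edge ≃ Edge} {τ τ' : V ≃ V} (h : Cp σ τ) (h' : Cp σ' τ') :
    Cp (σ.trans σ') (τ.trans τ') := by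
  intro e
  have e1 : (σ.trans σ') e = σ' (σ e) := rfl
  have e2 : ∀ v, (τ.trans τ') v = τ' (τ v) := fun v => rfl
  rw [e1, e2, e2]
  rcases h e with ⟨h1, h2⟩ | ⟨h1, h2⟩ <;> rcases h' (σ e) with ⟨h3, h4⟩ | ⟨h3, h4⟩
  · left
    rw [h3, h4, h1, h2]
    exact ⟨rfl, rfl⟩
  · right
    rw [h3, h4, h1, h2]
    exact ⟨rfl, rfl⟩
  · right
    rw [h3, h4, h1, h2]
    exact ⟨rfl, rfl⟩
  · left
    rw [h3, h4, h1, h2]
    exact ⟨rfl, rfl⟩

/-- the rotation `(X, Y) ↦ (u.1 - Y, u.2 + X)` -/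
def roE (u : V) : Edge ≃ Edge := trE.trans ((rxE u.1).trans (shE 0 u.2))

def roV (u : V) : V ≃ V := trV.trans ((rxV u.1).trans (shV 0 u.2))

theorem roV_apply (u v : V) : roV u v = (u.1 - v.2, v.1 + u.2) := by
  show ((u.1 - v.2 + 0, v.1 + u.2) : V) = _
  rw [add_zero]

theorem cp_ro (u : V) : Cp (roE u) (roV u) := cp_trans cp_tr (cp_trans (cp_rx _) (cp_sh _ _))

theorem box_ro (u : V) (x1 x2 y1 y2 : ℤ) : (box x1 x2 y1 y2).map (roE u).toEmbedding =
    box (u.1 - y2) (u.1 - y1) (x1 + u.2) (x2 + u.2) := by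
  have h1 : (roE u).toEmbedding =
      (trE.toEmbedding.trans (rxE u.1).toEmbedding).trans (shE 0 u.2).toEmbedding := rfl
  rw [h1, ← map_map, ← map_map, box_tr, box_rx, box_sh, add_zero, add_zero]

theorem hb_ro (u : V) (d : ℕ) : (box (-(d : ℤ)) d 0 d).map (roE u).toEmbedding = hb u d := by
  rw [box_ro]
  unfold hb
  congr 1 <;> ring

theorem RA_ro (u : V) (d : ℕ) (ω : Finset Edge) : RA u d (ω.map (roE u).toEmbedding) ↔ HA d ω := by
  have key : ∀ v : V, Conn (hb u d) (ω.map (roE u).toEmbedding) u (u.1 - v.2, v.1 + u.2) ↔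
      Conn (box (-(d : ℤ)) d 0 d) ω (0, 0) v := by
    intro v
    have h := conn_map (cp_ro u) (box (-(d : ℤ)) d 0 d) ω (0, 0) v
    rw [hb_ro, roV_apply, roV_apply] at h
    simp only [sub_zero, zero_add] at h
    exact h
  have hd0 : (0 : ℤ) ≤ d := Int.natCast_nonneg d
  constructor
  · rintro ⟨w, h1, h2⟩
    have h3 := (key (w.2 - u.2, u.1 - w.1)).1 (by
      simp only [sub_sub_cancel, sub_add_cancel]
      exact h2)
    have h4 := conn_mem_box h3 ⟨by simp, by simp, le_rfl, hd0⟩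
    simp only at h4
    unfold HA
    rcases h1 with h1 | h1 | h1
    · right; right
      refine ⟨w.2 - u.2, h4.1, h4.2.1, ?_⟩
      have h5 : u.1 - w.1 = (d : ℤ) := by omega
      rw [h5] at h3
      exact h3
    · right; left
      refine ⟨u.1 - w.1, h4.2.2.1, h4.2.2.2, ?_⟩
      have h5 : w.2 - u.2 = -(d : ℤ) := by omega
      rw [h5] at h3
      exact h3
    · left
      refine ⟨u.1 - w.1, h4.2.2.1, h4.2.2.2, ?_⟩
      have h5 : w.2 - u.2 = (d : ℤ) := by omega
      rw [h5] at h3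
      exact h3
  · rintro (⟨y, h1, h2, h3⟩ | ⟨y, h1, h2, h3⟩ | ⟨x, h1, h2, h3⟩)
    · exact ⟨_, Or.inr (Or.inr (by simp only; ring)), (key _).2 h3⟩
    · exact ⟨_, Or.inr (Or.inl (by simp only; ring)), (key _).2 h3⟩
    · exact ⟨_, Or.inl rfl, (key _).2 h3⟩

theorem Pr_RA {u : V} {d : ℕ} {E : Finset Edge} (hE : hb u d ⊆ E) : Pr E (RA u d) = piH d := by
  rw [Pr_dep hE (dep_RA (Finset.Subset.refl _)), ← hb_ro, Pr_map]
  unfold piH
  congr 1
  funext ω
  exact propext (RA_ro u d ω)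

/-- an open path from `u` in a region to the left of `u` reaching distance `d` -/
theorem RA_of_conn {u v : V} {d : ℕ} {x1 y1 y2 : ℤ} {ω : Finset Edge}
    (h : Conn (box x1 u.1 y1 y2) ω u v) (hv : (d : ℤ) ≤ sd u v) : RA u d ω := by
  obtain ⟨c, hc1, -, hc3⟩ := first_hit (F := box x1 u.1 y1 y2) (ω := ω) (sd u)
    (fun e _ => sd_edge u e) (t := (d : ℤ)) (a := u) (b := v) (by rw [sd_self]; omega) hv h
  have hsub : (box x1 u.1 y1 y2).filter (fun e => sd u (ea e) ≤ d ∧ sd u (eb e) ≤ d) ⊆ hb u d := by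
    intro e he
    rw [mem_filter] at he
    obtain ⟨h1, h2, h3⟩ := he
    rw [sd_le] at h2 h3
    have h4 := pexit_box h1
    obtain ⟨x, y, t⟩ := e
    unfold hb
    rw [mem_box]
    cases t
    · simp only [ea, eb, Bool.false_eq_true, if_false] at h2 h3 h4
      left
      refine ⟨rfl, ?_⟩
      simp only
      omega
    · simp only [ea, eb, if_true] at h2 h3 h4
      right
      refine ⟨rfl, ?_⟩
      simp only
      omega
  have h5 := hc3.mono hsub (Finset.Subset.refl _)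
  refine ⟨c, ?_, h5⟩
  rcases Nat.eq_zero_or_pos d with hd | hd
  · subst hd
    have h6 := (sd_le (u := u) (v := c) (m := 0)).1 (by rw [hc1]; simp)
    left
    push_cast
    omega
  · have h6 := conn_mem_box h5 ⟨by omega, le_rfl, by omega, by omega⟩
    rcases sd_cases hc1 with h | h | h | h
    · omega
    · left; exact h
    · right; right; exact h
    · right; left; exact h

end FKP
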